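import Mathlib

/-!
Localisation by binary channels: a uniform covariance bound for all the tilted measures gives an
`L^1` variance inequality.
-/

set_option autoImplicit false

namespace Pool.Agent.Lib.MP_6d896a_gt.Few

open MeasureTheory Real Filter Topology

variable {Ω ι : Type*} [MeasurableSpace Ω]

/-- bounded nonnegative measurable weight -/
structure Wt (w : Ω → ℝ) : Prop where
  meas : Measurable w
  nonneg : ∀ x, 0 ≤ w x
  bdd : ∃ B, ∀ x, w x ≤ B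

/-- expectation for the weight `w` -/
noncomputable def EE (mm : Measure Ω) (w g : Ω → ℝ) : ℝ := (∫ x, g x * w x ∂mm) / ∫ x, w x ∂mm

/-- covariance for the weight `w` -/
noncomputable def CC (mm : Measure Ω) (w f X : Ω → ℝ) : ℝ :=
  EE mm w (fun x => f x * X x) - EE mm w f * EE mm w X

/-- variance times mass -/
noncomputable def VV (mm : Measure Ω) (w f : Ω → ℝ) : ℝ :=
  (∫ x, f x ^ 2 * w x ∂mm) - (∫ x, f x * w x ∂mm) ^ 2 / ∫ x, w x ∂mm

/-- the two updated weights -/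
noncomputable def up (κ : ℝ) (X w : Ω → ℝ) (x : Ω) : ℝ := w x * ((1 + κ * X x) / 2)

section basic

variable {mm : Measure Ω} [IsFiniteMeasure mm]

lemma Wt.int {w g : Ω → ℝ} (hw : Wt w) (hg : Measurable g) {C : ℝ} (hC : ∀ x, |g x| ≤ C) :
    Integrable (fun x => g x * w x) mm := by
  obtain ⟨B, hB⟩ := hw.bdd
  refine (integrable_const (C * B)).mono' (hg.mul hw.meas).aestronglyMeasurable
    (ae_of_all _ fun x => ?_)
  rw [Real.norm_eq_abs, abs_mul, abs_of_nonneg (hw.nonneg x)]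
  exact mul_le_mul (hC x) (hB x) (hw.nonneg x) ((abs_nonneg _).trans (hC x))

lemma Wt.int1 {w : Ω → ℝ} (hw : Wt w) : Integrable w mm := by
  have := hw.int (mm := mm) (g := fun _ => 1) measurable_const (C := 1) (by simp)
  simpa using this

lemma up_wt {κ : ℝ} (h0 : 0 ≤ κ) (h1 : κ ≤ 1 / 2) {X w : Ω → ℝ} (hX : Measurable X)
    (hX1 : ∀ x, |X x| ≤ 1) (hw : Wt w) : Wt (up κ X w) := by
  obtain ⟨B, hB⟩ := hw.bdd
  have hb : ∀ x, 0 ≤ (1 + κ * X x) / 2 ∧ (1 + κ * X x) / 2 ≤ 1 := by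
    intro x
    have h2 := abs_le.mp (hX1 x)
    constructor <;> nlinarith
  refine ⟨?_, fun x => mul_nonneg (hw.nonneg x) (hb x).1, B, fun x => ?_⟩
  · unfold up
    exact hw.meas.mul (((hX.const_mul κ).const_add 1).div_const 2)
  · unfold up
    calc w x * ((1 + κ * X x) / 2) ≤ w x * 1 :=
          mul_le_mul_of_nonneg_left (hb x).2 (hw.nonneg x)
      _ ≤ B := by rw [mul_one]; exact hB x

lemma EE_le {w g : Ω → ℝ} (hw : Wt w) (hpos : 0 < ∫ x, w x ∂mm) (_hg : Measurable g) {C : ℝ}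
    (hC : ∀ x, |g x| ≤ C) : |EE mm w g| ≤ C := by
  unfold EE
  rw [abs_div, abs_of_pos hpos, div_le_iff₀ hpos, ← Real.norm_eq_abs, ← integral_const_mul]
  refine norm_integral_le_of_norm_le (hw.int1.const_mul C) (ae_of_all _ fun x => ?_)
  rw [Real.norm_eq_abs, abs_mul, abs_of_nonneg (hw.nonneg x)]
  exact mul_le_mul_of_nonneg_right (hC x) (hw.nonneg x)

lemma up_int {κ : ℝ} {X w g : Ω → ℝ} (hX : Measurable X) (hX1 : ∀ x, |X x| ≤ 1)
    (hw : Wt w) (hg : Measurable g) {C : ℝ} (hC : ∀ x, |g x| ≤ C) :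
    ∫ x, g x * up κ X w x ∂mm = (∫ x, g x * w x ∂mm) / 2 + κ / 2 * ∫ x, g x * X x * w x ∂mm := by
  have e : ∀ x, g x * up κ X w x = (g x * w x) / 2 + κ / 2 * (g x * X x * w x) := by
    intro x; unfold up; ring
  simp only [e]
  have hC0 : 0 ≤ C ∨ IsEmpty Ω := by
    by_cases h : Nonempty Ω
    · obtain ⟨x⟩ := h; exact Or.inl ((abs_nonneg _).trans (hC x))
    · exact Or.inr (not_nonempty_iff.mp h)
  rcases hC0 with hC0 | hC0
  · rw [integral_add, integral_div, integral_const_mul]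
    · exact (hw.int hg hC).div_const 2
    · apply Integrable.const_mul
      apply hw.int (hg.mul hX) (C := C)
      intro x
      rw [Pi.mul_apply, abs_mul]
      calc |g x| * |X x| ≤ C * 1 := mul_le_mul (hC x) (hX1 x) (abs_nonneg _) hC0
        _ = C := mul_one C
  · simp [integral_of_isEmpty]

lemma up_int1 {κ : ℝ} {X w : Ω → ℝ} (hX : Measurable X) (hX1 : ∀ x, |X x| ≤ 1)
    (hw : Wt w) :
    ∫ x, up κ X w x ∂mm = (∫ x, w x ∂mm) / 2 + κ / 2 * ∫ x, X x * w x ∂mm := by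
  have := up_int (mm := mm) (κ := κ) hX hX1 hw (g := fun _ => 1) measurable_const (C := 1)
    (by simp)
  simpa using this

/-- mass of the update -/
lemma up_mass {κ : ℝ} {X w : Ω → ℝ} (hX : Measurable X) (hX1 : ∀ x, |X x| ≤ 1)
    (hw : Wt w) (hpos : 0 < ∫ x, w x ∂mm) :
    ∫ x, up κ X w x ∂mm = (∫ x, w x ∂mm) / 2 * (1 + κ * EE mm w X) := by
  rw [up_int1 hX hX1 hw]
  unfold EE
  field_simp

lemma up_pos {κ : ℝ} (h0 : |κ| ≤ 1 / 2) {X w : Ω → ℝ} (hX : Measurable X)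
    (hX1 : ∀ x, |X x| ≤ 1) (hw : Wt w) (hpos : 0 < ∫ x, w x ∂mm) :
    0 < ∫ x, up κ X w x ∂mm := by
  rw [up_mass hX hX1 hw hpos]
  have h1 := abs_le.mp (EE_le hw hpos hX hX1)
  have h2 : |κ * EE mm w X| ≤ 1 / 2 := by
    rw [abs_mul]
    calc |κ| * |EE mm w X| ≤ 1 / 2 * 1 := mul_le_mul h0 (abs_le.mpr h1) (abs_nonneg _) (by norm_num)
      _ = _ := by norm_num
  have h3 := abs_le.mp h2
  have : 0 < 1 + κ * EE mm w X := by linarith
  positivity

/-- expectation after the update -/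
lemma up_EE {κ : ℝ} (h0 : |κ| ≤ 1 / 2) {X w g : Ω → ℝ} (hX : Measurable X)
    (hX1 : ∀ x, |X x| ≤ 1) (hw : Wt w) (hpos : 0 < ∫ x, w x ∂mm) (hg : Measurable g)
    (hC : ∀ x, |g x| ≤ 1) :
    EE mm (up κ X w) g - EE mm w g = κ * CC mm w g X / (1 + κ * EE mm w X) := by
  have hp := up_pos (mm := mm) h0 hX hX1 hw hpos
  have hm := up_mass (mm := mm) (κ := κ) hX hX1 hw hpos
  have h3 : 0 < 1 + κ * EE mm w X := by
    rw [hm] at hp
    by_contra hcon
    push Not at hcon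
    have : (∫ x, w x ∂mm) / 2 * (1 + κ * EE mm w X) ≤ 0 :=
      mul_nonpos_of_nonneg_of_nonpos (by positivity) hcon
    linarith
  have e1 : EE mm (up κ X w) g = (EE mm w g + κ * EE mm w (fun x => g x * X x)) /
      (1 + κ * EE mm w X) := by
    have : EE mm (up κ X w) g = (∫ x, g x * up κ X w x ∂mm) / ∫ x, up κ X w x ∂mm := rfl
    rw [this, up_int hX hX1 hw hg hC, hm]
    have h4 : (∫ x, g x * w x ∂mm) / 2 + κ / 2 * ∫ x, g x * X x * w x ∂mm =
      (∫ x, w x ∂mm) / 2 * (EE mm w g + κ * EE mm w (fun x => g x * X x)) := by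
      unfold EE
      field_simp
    rw [h4]
    field_simp
  rw [e1]
  unfold CC
  field_simp
  ring

lemma CC_le {w f X : Ω → ℝ} (hw : Wt w) (hpos : 0 < ∫ x, w x ∂mm) (hf : Measurable f)
    (hf1 : ∀ x, |f x| ≤ 1) (hX : Measurable X) (hX1 : ∀ x, |X x| ≤ 1) : |CC mm w f X| ≤ 2 := by
  unfold CC
  have h1 := EE_le hw hpos (hf.mul hX) (C := 1) (fun x => by
    rw [Pi.mul_apply, abs_mul]; exact mul_le_one₀ (hf1 x) (abs_nonneg _) (hX1 x))
  have h2 := EE_le hw hpos hf hf1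
  have h3 := EE_le hw hpos hX hX1
  have h4 : |EE mm w f * EE mm w X| ≤ 1 := by
    rw [abs_mul]; exact mul_le_one₀ h2 (abs_nonneg _) h3
  have h5 : |EE mm w (fun x => f x * X x)| ≤ 1 := h1
  calc _ ≤ |EE mm w (fun x => f x * X x)| + |EE mm w f * EE mm w X| := abs_sub _ _
    _ ≤ 2 := by linarith

/-- the change of an expectation in one update -/
lemma up_EE_le {κ : ℝ} (h0 : |κ| ≤ 1 / 2) {X w g : Ω → ℝ} (hX : Measurable X)
    (hX1 : ∀ x, |X x| ≤ 1) (hw : Wt w) (hpos : 0 < ∫ x, w x ∂mm) (hg : Measurable g)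
    (hC : ∀ x, |g x| ≤ 1) :
    |EE mm (up κ X w) g - EE mm w g| ≤ 4 * |κ| := by
  rw [up_EE h0 hX hX1 hw hpos hg hC, abs_div, abs_mul]
  have h1 := EE_le hw hpos hX hX1
  have h2 : |κ * EE mm w X| ≤ 1 / 2 := by
    rw [abs_mul]
    calc |κ| * |EE mm w X| ≤ 1 / 2 * 1 := mul_le_mul h0 h1 (abs_nonneg _) (by norm_num)
      _ = _ := by norm_num
  have h3 := abs_le.mp h2
  have h4 : 1 / 2 ≤ 1 + κ * EE mm w X := by linarith
  rw [abs_of_pos (by linarith : 0 < 1 + κ * EE mm w X), div_le_iff₀ (by linarith)]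
  have h5 := CC_le hw hpos hg hC hX hX1
  nlinarith [abs_nonneg κ, abs_nonneg (CC mm w g X)]

lemma up_CC_le {κ : ℝ} (h0 : |κ| ≤ 1 / 2) {X w f Y : Ω → ℝ} (hX : Measurable X)
    (hX1 : ∀ x, |X x| ≤ 1) (hw : Wt w) (hpos : 0 < ∫ x, w x ∂mm) (hf : Measurable f)
    (hf1 : ∀ x, |f x| ≤ 1) (hY : Measurable Y) (hY1 : ∀ x, |Y x| ≤ 1) :
    |CC mm (up κ X w) f Y| ≤ |CC mm w f Y| + 12 * |κ| := by
  have hp := up_pos (mm := mm) h0 hX hX1 hw hpos
  have h1 : |EE mm (up κ X w) (fun x => f x * Y x) - EE mm w (fun x => f x * Y x)| ≤ 4 * |κ| :=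
    up_EE_le h0 hX hX1 hw hpos (hf.mul hY) (fun x => by
      rw [abs_mul]; exact mul_le_one₀ (hf1 x) (abs_nonneg _) (hY1 x))
  have h2 := up_EE_le (mm := mm) h0 hX hX1 hw hpos hf hf1
  have h3 := up_EE_le (mm := mm) h0 hX hX1 hw hpos hY hY1
  have h4 := EE_le hw hpos hf hf1
  have hk2 : κ = κ := rfl
  have h5 : |EE mm (up κ X w) Y| ≤ 1 := by
    have : EE mm (up κ X w) Y = (∫ x, Y x * up κ X w x ∂mm) / ∫ x, up κ X w x ∂mm := rfl
    by_cases hk : 0 ≤ κ
    · exact EE_le (up_wt hk (by rwa [abs_of_nonneg hk] at h0) hX hX1 hw) hp hY hY1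
    · push Not at hk
      have e : up κ X w = up (-κ) (fun x => -X x) w := by
        funext x; unfold up; ring
      rw [e] at hp ⊢
      exact EE_le (up_wt (by linarith) (by rwa [abs_of_neg hk] at h0) hX.neg
        (fun x => by show |-(X x)| ≤ 1; rw [abs_neg]; exact hX1 x) hw) hp hY hY1
  have e : CC mm (up κ X w) f Y = CC mm w f Y +
      (EE mm (up κ X w) (fun x => f x * Y x) - EE mm w (fun x => f x * Y x)) -
      (EE mm (up κ X w) f - EE mm w f) * EE mm (up κ X w) Y -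
      EE mm w f * (EE mm (up κ X w) Y - EE mm w Y) := by
    unfold CC; ring
  rw [e]
  have h6 : |(EE mm (up κ X w) f - EE mm w f) * EE mm (up κ X w) Y| ≤ 4 * |κ| := by
    rw [abs_mul]
    calc _ ≤ 4 * |κ| * 1 := mul_le_mul h2 h5 (abs_nonneg _) (by positivity)
      _ = _ := mul_one _
  have h7 : |EE mm w f * (EE mm (up κ X w) Y - EE mm w Y)| ≤ 4 * |κ| := by
    rw [abs_mul]
    calc _ ≤ 1 * (4 * |κ|) := mul_le_mul h4 h3 (abs_nonneg _) (by norm_num)
      _ = _ := one_mul _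
  have h8 := abs_sub (CC mm w f Y +
      (EE mm (up κ X w) (fun x => f x * Y x) - EE mm w (fun x => f x * Y x)) -
      (EE mm (up κ X w) f - EE mm w f) * EE mm (up κ X w) Y)
      (EE mm w f * (EE mm (up κ X w) Y - EE mm w Y))
  have h9 := abs_sub (CC mm w f Y +
      (EE mm (up κ X w) (fun x => f x * Y x) - EE mm w (fun x => f x * Y x)))
      ((EE mm (up κ X w) f - EE mm w f) * EE mm (up κ X w) Y)
  have h10 := abs_add_le (CC mm w f Y)
      (EE mm (up κ X w) (fun x => f x * Y x) - EE mm w (fun x => f x * Y x))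
  linarith

/-- one binary channel -/
lemma step {κ : ℝ} (h0 : 0 ≤ κ) (h1 : κ ≤ 1 / 2) {X w f : Ω → ℝ} (hX : Measurable X)
    (hX1 : ∀ x, |X x| ≤ 1) (hw : Wt w) (hpos : 0 < ∫ x, w x ∂mm) (hf : Measurable f)
    (hf1 : ∀ x, |f x| ≤ 1) :
    VV mm w f ≤ VV mm (up κ X w) f + VV mm (up (-κ) X w) f +
      κ ^ 2 / (1 - κ ^ 2) * ((∫ x, w x ∂mm) * CC mm w f X ^ 2) := by
  have hk : |κ| ≤ 1 / 2 := by rwa [abs_of_nonneg h0]
  have hk' : |-κ| ≤ 1 / 2 := by rwa [abs_neg]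
  have hp1 := up_pos (mm := mm) hk hX hX1 hw hpos
  have hp2 := up_pos (mm := mm) hk' hX hX1 hw hpos
  have hm1 := up_mass (mm := mm) (κ := κ) hX hX1 hw hpos
  have hm2 := up_mass (mm := mm) (κ := -κ) hX hX1 hw hpos
  have hf2 : ∀ x, |f x ^ 2| ≤ 1 := fun x => by
    rw [abs_pow]; exact pow_le_one₀ (abs_nonneg _) (hf1 x)
  have i1 := up_int (mm := mm) (κ := κ) hX hX1 hw (hf.pow_const 2) hf2
  have i2 := up_int (mm := mm) (κ := -κ) hX hX1 hw (hf.pow_const 2) hf2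
  have j1 := up_int (mm := mm) (κ := κ) hX hX1 hw hf hf1
  have j2 := up_int (mm := mm) (κ := -κ) hX hX1 hw hf hf1
  have hE := EE_le hw hpos hX hX1
  set a := ∫ x, w x ∂mm with ha
  set b := ∫ x, f x * w x ∂mm with hb
  set c := ∫ x, f x * X x * w x ∂mm with hc
  set d := EE mm w X with hd
  have hCC : CC mm w f X = c / a - b / a * d := rfl
  unfold VV
  rw [i1, i2, j1, j2, hm1, hm2, ← hb, ← ha, hCC]
  rw [hm1] at hp1
  rw [hm2] at hp2
  have hd1 := abs_le.mp hE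
  have hkd : (κ * d) ^ 2 ≤ κ ^ 2 := by
    have : d ^ 2 ≤ 1 := by nlinarith
    nlinarith [sq_nonneg κ]
  have hk2 : κ ^ 2 ≤ 1 / 4 := by nlinarith
  have hpp : 0 < 1 + κ * d := by nlinarith
  have hpm : 0 < 1 - κ * d := by nlinarith
  rw [show 1 + -κ * d = 1 - κ * d by ring, show b / 2 + -κ / 2 * c = b / 2 - κ / 2 * c by ring]
  have key : b ^ 2 / a = (b / 2 + κ / 2 * c) ^ 2 / (a / 2 * (1 + κ * d)) +
      (b / 2 - κ / 2 * c) ^ 2 / (a / 2 * (1 - κ * d)) -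
      κ ^ 2 * (a * (c / a - b / a * d) ^ 2) / ((1 + κ * d) * (1 - κ * d)) := by
    have hane : a ≠ 0 := hpos.ne'
    have hpne : 1 + κ * d ≠ 0 := hpp.ne'
    have hmne : 1 - κ * d ≠ 0 := hpm.ne'
    field_simp
    ring
  have h5 : κ ^ 2 * (a * (c / a - b / a * d) ^ 2) / ((1 + κ * d) * (1 - κ * d)) ≤
      κ ^ 2 / (1 - κ ^ 2) * (a * (c / a - b / a * d) ^ 2) := by
    rw [div_mul_eq_mul_div (κ ^ 2) (1 - κ ^ 2)]
    apply div_le_div_of_nonneg_left (by positivity) (by linarith)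
    nlinarith
  linarith

/-- all the leaves of the tree of updates along the list satisfy the linear bound -/
def Leaves (mm : Measure Ω) (κ : ℝ) (X : ι → Ω → ℝ) (f D : Ω → ℝ) (A B : ℝ) :
    List ι → (Ω → ℝ) → Prop
  | [], w => VV mm w f ≤ A * (∫ x, D x * w x ∂mm) + B * ∫ x, w x ∂mm
  | (j :: L), w => Leaves mm κ X f D A B L (up κ (X j) w) ∧
      Leaves mm κ X f D A B L (up (-κ) (X j) w)

omit [MeasurableSpace Ω] in
lemma up_neg (κ : ℝ) (X w : Ω → ℝ) : up (-κ) X w = up κ (fun x => -X x) w := by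
  funext x; unfold up; ring

/-- a sweep of updates -/
lemma sweep {κ : ℝ} (h0 : 0 ≤ κ) (h1 : κ ≤ 1 / 2) {X : ι → Ω → ℝ} (hX : ∀ j, Measurable (X j))
    (hX1 : ∀ j x, |X j x| ≤ 1) {f D : Ω → ℝ} (hf : Measurable f) (hf1 : ∀ x, |f x| ≤ 1)
    (hD : Measurable D) {CD : ℝ} (hD1 : ∀ x, |D x| ≤ CD) {A B : ℝ} (L : List ι) :
    ∀ w : Ω → ℝ, Wt w → 0 < (∫ x, w x ∂mm) → Leaves mm κ X f D A B L w →
      VV mm w f ≤ A * (∫ x, D x * w x ∂mm) + B * (∫ x, w x ∂mm) +
        κ ^ 2 / (1 - κ ^ 2) * ((∫ x, w x ∂mm) *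
          (L.map fun j => (|CC mm w f (X j)| + 12 * κ * L.length) ^ 2).sum) := by
  have hk2 : κ ^ 2 ≤ 1 / 4 := by nlinarith
  have hk0 : 0 ≤ κ ^ 2 / (1 - κ ^ 2) := div_nonneg (by positivity) (by linarith)
  induction L with
  | nil =>
    intro w hw hpos hL
    simpa [Leaves] using hL
  | cons j L ih =>
    intro w hw hpos hL
    obtain ⟨hL1, hL2⟩ := hL
    have hk : |κ| ≤ 1 / 2 := by rwa [abs_of_nonneg h0]
    have hk' : |-κ| ≤ 1 / 2 := by rwa [abs_neg]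
    have hp1 := up_pos (mm := mm) hk (hX j) (hX1 j) hw hpos
    have hp2 := up_pos (mm := mm) hk' (hX j) (hX1 j) hw hpos
    have hw1 := up_wt h0 h1 (hX j) (hX1 j) hw
    have hw2 : Wt (up (-κ) (X j) w) := by
      rw [up_neg]
      exact up_wt h0 h1 (hX j).neg (fun x => by show |-(X j x)| ≤ 1; rw [abs_neg]; exact hX1 j x) hw
    have s0 := step (mm := mm) h0 h1 (hX j) (hX1 j) hw hpos hf hf1
    have s1 := ih _ hw1 hp1 hL1
    have s2 := ih _ hw2 hp2 hL2
    have d1 := up_int (mm := mm) (κ := κ) (hX j) (hX1 j) hw hD hD1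
    have d2 := up_int (mm := mm) (κ := -κ) (hX j) (hX1 j) hw hD hD1
    have m1 := up_int1 (mm := mm) (κ := κ) (hX j) (hX1 j) hw
    have m2 := up_int1 (mm := mm) (κ := -κ) (hX j) (hX1 j) hw
    set M := ∫ x, w x ∂mm with hM
    set M1 := ∫ x, up κ (X j) w x ∂mm with hM1
    set M2 := ∫ x, up (-κ) (X j) w x ∂mm with hM2
    have hMs : M1 + M2 = M := by rw [m1, m2]; ring
    have hDs : (∫ x, D x * up κ (X j) w x ∂mm) + (∫ x, D x * up (-κ) (X j) w x ∂mm) =
      ∫ x, D x * w x ∂mm := by rw [d1, d2]; ring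
    have hb : ∀ (κ' : ℝ), |κ'| = κ → ∀ i, (|CC mm (up κ' (X j) w) f (X i)| + 12 * κ * L.length) ^ 2 ≤
        (|CC mm w f (X i)| + 12 * κ * (j :: L).length) ^ 2 := by
      intro κ' hκ' i
      have h3 := up_CC_le (mm := mm) (κ := κ') (by rw [hκ']; exact h1) (hX j) (hX1 j) hw hpos hf hf1
        (hX i) (hX1 i)
      rw [hκ'] at h3
      apply pow_le_pow_left₀ (by positivity)
      rw [List.length_cons]
      push_cast
      linarith
    have hsum : ∀ (κ' : ℝ), |κ'| = κ →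
        (L.map fun i => (|CC mm (up κ' (X j) w) f (X i)| + 12 * κ * L.length) ^ 2).sum ≤
        (L.map fun i => (|CC mm w f (X i)| + 12 * κ * (j :: L).length) ^ 2).sum := by
      intro κ' hκ'
      exact List.sum_le_sum fun i _ => hb κ' hκ' i
    set S := (L.map fun i => (|CC mm w f (X i)| + 12 * κ * (j :: L).length) ^ 2).sum with hS
    have q1 := mul_le_mul_of_nonneg_left (hsum κ (abs_of_nonneg h0)) hp1.le
    have q2 := mul_le_mul_of_nonneg_left (hsum (-κ) (by rw [abs_neg, abs_of_nonneg h0])) hp2.le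
    have q3 := mul_le_mul_of_nonneg_left (add_le_add q1 q2) hk0
    have hc : CC mm w f (X j) ^ 2 ≤ (|CC mm w f (X j)| + 12 * κ * (j :: L).length) ^ 2 := by
      rw [← sq_abs]
      apply pow_le_pow_left₀ (abs_nonneg _)
      have : 0 ≤ 12 * κ * (j :: L).length := by positivity
      linarith
    have q4 := mul_le_mul_of_nonneg_left (mul_le_mul_of_nonneg_left hc hpos.le) hk0
    rw [List.map_cons, List.sum_cons]
    have e1 : M1 * S + M2 * S = M * S := by rw [← hMs]; ring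
    rw [e1, mul_add] at q3
    have e3 : B * M = B * M1 + B * M2 := by rw [← hMs]; ring
    rw [← hDs, mul_add M, mul_add A, mul_add (κ ^ 2 / (1 - κ ^ 2))]
    linarith

end basic

end Pool.Agent.Lib.MP_6d896a_gt.Few
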