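import Mathlib
import Pool.Agent.Lib.MP_6d896a_gt.Few.Loc

/-!
Localisation by binary channels: the recursion and its limit.
-/

set_option autoImplicit false

namespace Pool.Agent.Lib.MP_6d896a_gt.Few

open MeasureTheory Real Filter Topology

variable {Ω ι : Type*} [MeasurableSpace Ω]

section cmp

variable {mm : Measure Ω} [IsFiniteMeasure mm]

omit [IsFiniteMeasure mm] in
lemma int3 {F G H : Ω → ℝ} (hF : Integrable F mm) (hG : Integrable G mm) (hH : Integrable H mm)
    (a b : ℝ) : ∫ x, (F x - a * G x + b * H x) ∂mm =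
      (∫ x, F x ∂mm) - a * (∫ x, G x ∂mm) + b * ∫ x, H x ∂mm := by
  have h1 : Integrable (fun x => F x - a * G x) mm := hF.sub (hG.const_mul a)
  rw [integral_add h1 (hH.const_mul b), integral_sub hF (hG.const_mul a), integral_const_mul,
    integral_const_mul]

/-- the variance is the smallest second moment -/
lemma VV_le_moment {w f : Ω → ℝ} (hw : Wt w) (hpos : 0 < ∫ x, w x ∂mm) (hf : Measurable f)
    {C : ℝ} (hC : ∀ x, |f x| ≤ C) (m : ℝ) :
    VV mm w f ≤ ∫ x, (f x - m) ^ 2 * w x ∂mm := by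
  have h2 : ∀ x, |f x ^ 2| ≤ C ^ 2 := fun x => by
    rw [abs_pow]; exact pow_le_pow_left₀ (abs_nonneg _) (hC x) 2
  have i2 := hw.int (mm := mm) (hf.pow_const 2) h2
  have i1 := hw.int (mm := mm) hf hC
  have e : ∀ x, (f x - m) ^ 2 * w x = f x ^ 2 * w x - 2 * m * (f x * w x) + m ^ 2 * w x := by
    intro x; ring
  simp only [e]
  rw [int3 i2 i1 hw.int1]
  unfold VV
  set a := ∫ x, w x ∂mm
  set b := ∫ x, f x * w x ∂mm
  have : b ^ 2 / a - 2 * m * b + m ^ 2 * a = (b - m * a) ^ 2 / a := by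
    field_simp
    ring
  have h3 : 0 ≤ (b - m * a) ^ 2 / a := by positivity
  have h4 : -(b ^ 2 / a) ≤ -(2 * m * b) + m ^ 2 * a := by linarith
  linarith

lemma VV_eq {w f : Ω → ℝ} (hw : Wt w) (hpos : 0 < ∫ x, w x ∂mm) (hf : Measurable f)
    {C : ℝ} (hC : ∀ x, |f x| ≤ C) :
    VV mm w f = ∫ x, (f x - EE mm w f) ^ 2 * w x ∂mm := by
  have h2 : ∀ x, |f x ^ 2| ≤ C ^ 2 := fun x => by
    rw [abs_pow]; exact pow_le_pow_left₀ (abs_nonneg _) (hC x) 2
  have i2 := hw.int (mm := mm) (hf.pow_const 2) h2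
  have i1 := hw.int (mm := mm) hf hC
  set m := EE mm w f with hm
  have e : ∀ x, (f x - m) ^ 2 * w x = f x ^ 2 * w x - 2 * m * (f x * w x) + m ^ 2 * w x := by
    intro x; ring
  simp only [e]
  rw [int3 i2 i1 hw.int1]
  unfold VV
  rw [hm]
  unfold EE
  field_simp
  ring

lemma VV_nonneg {w f : Ω → ℝ} (hw : Wt w) (hpos : 0 < ∫ x, w x ∂mm) (hf : Measurable f)
    {C : ℝ} (hC : ∀ x, |f x| ≤ C) : 0 ≤ VV mm w f := by
  rw [VV_eq hw hpos hf hC]
  exact integral_nonneg fun x => mul_nonneg (sq_nonneg _) (hw.nonneg x)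

/-- comparison of variances -/
lemma VV_cmp {w G f : Ω → ℝ} (hw : Wt w) (hG : Wt G) (hpos : 0 < ∫ x, w x ∂mm)
    (hposG : 0 < ∫ x, G x ∂mm) (hf : Measurable f) {C : ℝ} (hC : ∀ x, |f x| ≤ C) {c2 : ℝ}
    (h2 : ∀ x, w x ≤ c2 * G x) : VV mm w f ≤ c2 * VV mm G f := by
  refine (VV_le_moment hw hpos hf hC (EE mm G f)).trans ?_
  rw [VV_eq hG hposG hf hC, ← integral_const_mul]
  have hm : Measurable (fun x => (f x - EE mm G f) ^ 2) := (hf.sub_const _).pow_const 2
  have hb : ∀ x, |(f x - EE mm G f) ^ 2| ≤ (C + |EE mm G f|) ^ 2 := by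
    intro x
    rw [abs_pow]
    apply pow_le_pow_left₀ (abs_nonneg _)
    exact (abs_sub _ _).trans (add_le_add_left (hC x) _)
  apply integral_mono (hw.int hm hb) ((hG.int hm hb).const_mul _)
  intro x
  calc (f x - EE mm G f) ^ 2 * w x ≤ (f x - EE mm G f) ^ 2 * (c2 * G x) :=
        mul_le_mul_of_nonneg_left (h2 x) (sq_nonneg _)
    _ = c2 * ((f x - EE mm G f) ^ 2 * G x) := by ring

variable [Fintype ι]

/-- Bessel type inequality -/
lemma bessel {X : ι → Ω → ℝ} (hX : ∀ j, Measurable (X j))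
    (hX1 : ∀ j x, |X j x| ≤ 1) {w f : Ω → ℝ} (hw : Wt w) (hpos : 0 < ∫ x, w x ∂mm)
    (hf : Measurable f) (hf1 : ∀ x, |f x| ≤ 1) {K : ℝ} (hK : 0 < K)
    (hH : ∀ c : ι → ℝ, VV mm w (fun x => ∑ j, c j * X j x) ≤ K * (∑ j, c j ^ 2) * ∫ x, w x ∂mm) :
    (∫ x, w x ∂mm) * ∑ j, CC mm w f (X j) ^ 2 ≤ K * VV mm w f := by
  set M := ∫ x, w x ∂mm with hM
  set c : ι → ℝ := fun j => CC mm w f (X j) with hc
  set s := ∑ j, c j ^ 2 with hs
  set Y : Ω → ℝ := fun x => ∑ j, c j * X j x with hY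
  have hYm : Measurable Y := Finset.measurable_sum _ fun j _ => (hX j).const_mul _
  have hYb : ∀ x, |Y x| ≤ ∑ j, |c j| := by
    intro x
    refine (Finset.abs_sum_le_sum_abs _ _).trans (Finset.sum_le_sum fun j _ => ?_)
    rw [abs_mul]
    exact mul_le_of_le_one_right (abs_nonneg _) (hX1 j x)
  set CY := ∑ j, |c j| with hCY
  have hCY0 : 0 ≤ CY := Finset.sum_nonneg fun j _ => abs_nonneg _
  have ifj : ∀ j, Integrable (fun x => f x * X j x * w x) mm := fun j =>
    hw.int (hf.mul (hX j)) (C := 1) (fun x => by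
      rw [abs_mul]; exact mul_le_one₀ (hf1 x) (abs_nonneg _) (hX1 j x))
  have ij : ∀ j, Integrable (fun x => X j x * w x) mm := fun j => hw.int (hX j) (hX1 j)
  -- covariance with Y
  have hfY : ∫ x, f x * Y x * w x ∂mm = ∑ j, c j * ∫ x, f x * X j x * w x ∂mm := by
    rw [← Finset.sum_congr rfl fun j _ => integral_const_mul (c j) _,
      ← integral_finsetSum _ fun j _ => (ifj j).const_mul _]
    congr 1
    funext x
    simp only [hY, Finset.mul_sum, Finset.sum_mul]
    exact Finset.sum_congr rfl fun j _ => by ring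
  have hYi : ∫ x, Y x * w x ∂mm = ∑ j, c j * ∫ x, X j x * w x ∂mm := by
    rw [← Finset.sum_congr rfl fun j _ => integral_const_mul (c j) _,
      ← integral_finsetSum _ fun j _ => (ij j).const_mul _]
    congr 1
    funext x
    simp only [hY, Finset.sum_mul]
    exact Finset.sum_congr rfl fun j _ => by ring
  set b := ∫ x, f x * w x ∂mm with hb
  have hCov : (∫ x, f x * Y x * w x ∂mm) - b * (∫ x, Y x * w x ∂mm) / M = M * s := by
    rw [hfY, hYi, hs, Finset.mul_sum, Finset.mul_sum, Finset.sum_div, ← Finset.sum_sub_distrib]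
    apply Finset.sum_congr rfl
    intro j _
    have : c j = (∫ x, f x * X j x * w x ∂mm) / M - b / M * ((∫ x, X j x * w x ∂mm) / M) := rfl
    have h3 : c j * (∫ x, f x * X j x * w x ∂mm) - b * (c j * ∫ x, X j x * w x ∂mm) / M =
      M * (c j * ((∫ x, f x * X j x * w x ∂mm) / M - b / M * ((∫ x, X j x * w x ∂mm) / M))) := by
      field_simp
    rw [h3, ← this]
    ring
  -- variance of f - Y / K
  have hn := VV_nonneg (mm := mm) (f := fun x => f x - K⁻¹ * Y x) hw hpos
    (hf.sub (hYm.const_mul _)) (C := 1 + K⁻¹ * CY) (fun x => by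
      refine (abs_sub _ _).trans (add_le_add (hf1 x) ?_)
      rw [abs_mul, abs_of_pos (inv_pos.mpr hK)]
      exact mul_le_mul_of_nonneg_left (hYb x) (inv_pos.mpr hK).le)
  have if2 : Integrable (fun x => f x ^ 2 * w x) mm := hw.int (hf.pow_const 2) (C := 1)
    (fun x => by rw [abs_pow]; exact pow_le_one₀ (abs_nonneg _) (hf1 x))
  have iY2 : Integrable (fun x => Y x ^ 2 * w x) mm := hw.int (hYm.pow_const 2) (C := CY ^ 2)
    (fun x => by rw [abs_pow]; exact pow_le_pow_left₀ (abs_nonneg _) (hYb x) 2)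
  have ifY : Integrable (fun x => f x * Y x * w x) mm := hw.int (hf.mul hYm) (C := CY)
    (fun x => by
      rw [abs_mul]
      calc |f x| * |Y x| ≤ 1 * CY := mul_le_mul (hf1 x) (hYb x) (abs_nonneg _) (by norm_num)
        _ = CY := one_mul _)
  have iF : Integrable (fun x => f x * w x) mm := hw.int hf hf1
  have iY : Integrable (fun x => Y x * w x) mm := hw.int hYm hYb
  have e1 : ∫ x, (f x - K⁻¹ * Y x) ^ 2 * w x ∂mm = (∫ x, f x ^ 2 * w x ∂mm) -
      2 * K⁻¹ * (∫ x, f x * Y x * w x ∂mm) + (K⁻¹) ^ 2 * ∫ x, Y x ^ 2 * w x ∂mm := by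
    have e : ∀ x, (f x - K⁻¹ * Y x) ^ 2 * w x = f x ^ 2 * w x - 2 * K⁻¹ * (f x * Y x * w x) +
      (K⁻¹) ^ 2 * (Y x ^ 2 * w x) := by intro x; ring
    simp only [e]
    rw [int3 if2 ifY iY2]
  have e2 : ∫ x, (f x - K⁻¹ * Y x) * w x ∂mm = b - K⁻¹ * ∫ x, Y x * w x ∂mm := by
    have e : ∀ x, (f x - K⁻¹ * Y x) * w x = f x * w x - K⁻¹ * (Y x * w x) := by intro x; ring
    simp only [e]
    rw [integral_sub iF (iY.const_mul _), integral_const_mul]
  have hYV := hH c
  unfold VV at hn hYV ⊢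
  rw [e1, e2] at hn
  have hY' : (fun x => ∑ j, c j * X j x) = Y := rfl
  simp only [show ∀ x, (∑ j, c j * X j x) = Y x from fun x => rfl] at hYV
  rw [← hs, ← hM] at hYV
  rw [← hM] at hn
  rw [← hM, ← hb]
  set F2 := ∫ x, f x ^ 2 * w x ∂mm
  set FY := ∫ x, f x * Y x * w x ∂mm
  set Y2 := ∫ x, Y x ^ 2 * w x ∂mm
  set y := ∫ x, Y x * w x ∂mm
  have h5 : F2 - 2 * K⁻¹ * FY + K⁻¹ ^ 2 * Y2 - (b - K⁻¹ * y) ^ 2 / M =
      (F2 - b ^ 2 / M) - 2 * K⁻¹ * (FY - b * y / M) + K⁻¹ ^ 2 * (Y2 - y ^ 2 / M) := by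
    field_simp
    ring
  rw [h5, hCov] at hn
  have h6 : K⁻¹ ^ 2 * (Y2 - y ^ 2 / M) ≤ K⁻¹ ^ 2 * (K * s * M) :=
    mul_le_mul_of_nonneg_left hYV (by positivity)
  have h7 : K⁻¹ ^ 2 * (K * s * M) = K⁻¹ * (M * s) := by field_simp
  have h8 : 0 ≤ (F2 - b ^ 2 / M) - K⁻¹ * (M * s) := by linarith
  have h9 := mul_le_mul_of_nonneg_left h8 hK.le
  have h10 : K * (K⁻¹ * (M * s)) = M * s := by field_simp
  rw [mul_zero, mul_sub, h10] at h9
  linarith

end cmp

section rec

variable [Fintype ι]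

/-- the exponential weights -/
noncomputable def GG (X : ι → Ω → ℝ) (t : ℝ) (θ : ι → ℝ) (x : Ω) : ℝ :=
  Real.exp ((∑ j, θ j * X j x) - t / 2 * ∑ j, X j x ^ 2)

/-- the product weights -/
noncomputable def PW (κ : ℝ) (X : ι → Ω → ℝ) (a b : ι → ℕ) (x : Ω) : ℝ :=
  ∏ j, ((1 + κ * X j x) / 2) ^ a j * ((1 + -κ * X j x) / 2) ^ b j

omit [MeasurableSpace Ω] [Fintype ι] in
lemma log_two_term {y : ℝ} (h : |y| ≤ 1 / 2) :
    |Real.log (1 + y) - y + y ^ 2 / 2| ≤ 2 * |y| ^ 3 := by
  have h1 : |(-y)| < 1 := by rw [abs_neg]; linarith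
  have h2 := Real.abs_log_sub_add_sum_range_le h1 2
  rw [Finset.sum_range_succ, Finset.sum_range_one, abs_neg, sub_neg_eq_add] at h2
  have e : (-y) ^ (0 + 1) / ((0 : ℕ) + 1 : ℝ) + (-y) ^ (1 + 1) / ((1 : ℕ) + 1 : ℝ) + Real.log (1 + y) =
    Real.log (1 + y) - y + y ^ 2 / 2 := by push_cast; ring
  rw [e] at h2
  refine h2.trans ?_
  rw [div_le_iff₀ (by linarith [abs_nonneg y])]
  have h5 := mul_nonneg (pow_nonneg (abs_nonneg y) 3) (by linarith : 0 ≤ 1 - 2 * |y|)
  norm_num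
  linarith

omit [MeasurableSpace Ω] in
/-- the product weight is comparable to an exponential weight -/
lemma PW_cmp {κ : ℝ} (h0 : 0 ≤ κ) (h1 : κ ≤ 1 / 2) {X : ι → Ω → ℝ} (hX1 : ∀ j x, |X j x| ≤ 1)
    {a b : ι → ℕ} {r : ℕ} (hab : ∀ j, a j + b j = r) (x : Ω) :
    PW κ X a b x ≤ ((1 / 2 : ℝ) ^ (r * Fintype.card ι)) * Real.exp (2 * r * κ ^ 3 * Fintype.card ι) *
      GG X (r * κ ^ 2) (fun j => κ * (a j - b j)) x ∧
    ((1 / 2 : ℝ) ^ (r * Fintype.card ι)) * Real.exp (-(2 * r * κ ^ 3 * Fintype.card ι)) *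
      GG X (r * κ ^ 2) (fun j => κ * (a j - b j)) x ≤ PW κ X a b x := by
  have hk : ∀ j, |κ * X j x| ≤ κ := by
    intro j
    rw [abs_mul, abs_of_nonneg h0]
    exact mul_le_of_le_one_right h0 (hX1 j x)
  have hk' : ∀ j, |κ * X j x| ≤ 1 / 2 := fun j => (hk j).trans h1
  have hp : ∀ j, 0 < 1 + κ * X j x := fun j => by have := abs_le.mp (hk' j); linarith
  have hm : ∀ j, 0 < 1 + -κ * X j x := fun j => by have := abs_le.mp (hk' j); nlinarith
  have h3 : ∀ j, |Real.log (1 + κ * X j x) - κ * X j x + (κ * X j x) ^ 2 / 2| ≤ 2 * κ ^ 3 := by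
    intro j
    refine (log_two_term (hk' j)).trans ?_
    have := pow_le_pow_left₀ (abs_nonneg _) (hk j) 3
    linarith
  have h4 : ∀ j, |Real.log (1 + -κ * X j x) + κ * X j x + (κ * X j x) ^ 2 / 2| ≤ 2 * κ ^ 3 := by
    intro j
    have h5 : |-κ * X j x| = |κ * X j x| := by rw [neg_mul, abs_neg]
    have h6 := log_two_term (y := -κ * X j x) (by rw [h5]; exact hk' j)
    rw [h5] at h6
    have e : Real.log (1 + -κ * X j x) + κ * X j x + (κ * X j x) ^ 2 / 2 =
      Real.log (1 + -κ * X j x) - -κ * X j x + (-κ * X j x) ^ 2 / 2 := by ring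
    rw [e]
    refine h6.trans ?_
    have := pow_le_pow_left₀ (abs_nonneg _) (hk j) 3
    linarith
  set E : ι → ℝ := fun j => a j * (Real.log (1 + κ * X j x) - κ * X j x + (κ * X j x) ^ 2 / 2) +
    b j * (Real.log (1 + -κ * X j x) + κ * X j x + (κ * X j x) ^ 2 / 2) with hE
  have hEb : ∀ j, |E j| ≤ 2 * r * κ ^ 3 := by
    intro j
    have h7 : (a j : ℝ) + b j = r := by exact_mod_cast hab j
    calc |E j| ≤ a j * (2 * κ ^ 3) + b j * (2 * κ ^ 3) := by
          refine (abs_add_le _ _).trans (add_le_add ?_ ?_)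
          · rw [abs_mul, abs_of_nonneg (Nat.cast_nonneg _)]
            exact mul_le_mul_of_nonneg_left (h3 j) (Nat.cast_nonneg _)
          · rw [abs_mul, abs_of_nonneg (Nat.cast_nonneg _)]
            exact mul_le_mul_of_nonneg_left (h4 j) (Nat.cast_nonneg _)
      _ = 2 * ((a j : ℝ) + b j) * κ ^ 3 := by ring
      _ = _ := by rw [h7]
  have hPW : PW κ X a b x = ((1 / 2 : ℝ) ^ (r * Fintype.card ι)) * Real.exp (∑ j, E j) *
      GG X (r * κ ^ 2) (fun j => κ * (a j - b j)) x := by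
    unfold PW GG
    rw [mul_assoc, ← Real.exp_add]
    have e1 : (∑ j, E j) + ((∑ j, κ * ((a j : ℝ) - b j) * X j x) -
        r * κ ^ 2 / 2 * ∑ j, X j x ^ 2) =
        ∑ j, (a j * Real.log (1 + κ * X j x) + b j * Real.log (1 + -κ * X j x)) := by
      rw [Finset.mul_sum, ← Finset.sum_sub_distrib, ← Finset.sum_add_distrib]
      apply Finset.sum_congr rfl
      intro j _
      have h7 : (r : ℝ) = (a j : ℝ) + b j := by exact_mod_cast (hab j).symm
      rw [h7]
      simp only [hE]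
      ring
    rw [e1, Real.exp_sum]
    have e2 : ((1 / 2 : ℝ) ^ (r * Fintype.card ι)) = ∏ _j : ι, (1 / 2 : ℝ) ^ r := by
      rw [Finset.prod_const, Finset.card_univ, ← pow_mul]
    rw [e2, ← Finset.prod_mul_distrib]
    apply Finset.prod_congr rfl
    intro j _
    rw [Real.exp_add, mul_comm (a j : ℝ), mul_comm (b j : ℝ), ← Real.rpow_def_of_pos (hp j),
      ← Real.rpow_def_of_pos (hm j), Real.rpow_natCast, Real.rpow_natCast, ← hab j, pow_add]
    have e3 : ∀ (u : ℝ) (m : ℕ), (u / 2) ^ m = (1 / 2) ^ m * u ^ m := by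
      intro u m
      rw [← mul_pow]
      congr 1
      ring
    rw [e3 (1 + κ * X j x), e3 (1 + -κ * X j x)]
    ring
  have hG : 0 < GG X (r * κ ^ 2) (fun j => κ * (a j - b j)) x := Real.exp_pos _
  have hS : |∑ j, E j| ≤ 2 * r * κ ^ 3 * Fintype.card ι := by
    refine (Finset.abs_sum_le_sum_abs _ _).trans ?_
    refine (Finset.sum_le_sum fun j _ => hEb j).trans (le_of_eq ?_)
    rw [Finset.sum_const, Finset.card_univ, nsmul_eq_mul]
    ring
  have hS' := abs_le.mp hS
  rw [hPW]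
  constructor
  · gcongr
    exact hS'.2
  · gcongr
    exact hS'.1

lemma PW_pos_meas {κ : ℝ} (h0 : 0 ≤ κ) (h1 : κ ≤ 1 / 2) {X : ι → Ω → ℝ}
    (hX : ∀ j, Measurable (X j)) (hX1 : ∀ j x, |X j x| ≤ 1) (a b : ι → ℕ) :
    Wt (PW κ X a b) ∧ ∀ x, 0 < PW κ X a b x := by
  have hk' : ∀ j x, |κ * X j x| ≤ 1 / 2 := by
    intro j x
    rw [abs_mul, abs_of_nonneg h0]
    exact (mul_le_of_le_one_right h0 (hX1 j x)).trans h1
  have hp : ∀ j x, 0 < (1 + κ * X j x) / 2 ∧ (1 + κ * X j x) / 2 ≤ 1 := fun j x => by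
    have := abs_le.mp (hk' j x)
    constructor <;> linarith
  have hm : ∀ j x, 0 < (1 + -κ * X j x) / 2 ∧ (1 + -κ * X j x) / 2 ≤ 1 := fun j x => by
    have := abs_le.mp (hk' j x)
    constructor <;> linarith
  have hpos : ∀ x, 0 < PW κ X a b x := fun x => Finset.prod_pos fun j _ =>
    mul_pos (pow_pos (hp j x).1 _) (pow_pos (hm j x).1 _)
  refine ⟨⟨?_, fun x => (hpos x).le, 1, fun x => ?_⟩, hpos⟩
  · unfold PW
    apply Finset.measurable_prod
    intro j _
    exact ((((hX j).const_mul κ).const_add 1).div_const 2).pow_const _ |>.mul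
      (((((hX j).const_mul (-κ)).const_add 1).div_const 2).pow_const _)
  · apply Finset.prod_le_one
    · intro j _
      exact (mul_pos (pow_pos (hp j x).1 _) (pow_pos (hm j x).1 _)).le
    · intro j _
      exact mul_le_one₀ (pow_le_one₀ (hp j x).1.le (hp j x).2) (pow_pos (hm j x).1 _).le
        (pow_le_one₀ (hm j x).1.le (hm j x).2)

lemma GG_wt {X : ι → Ω → ℝ} (hX : ∀ j, Measurable (X j)) (hX1 : ∀ j x, |X j x| ≤ 1) {t : ℝ}
    (ht : 0 ≤ t) (θ : ι → ℝ) : Wt (GG X t θ) := by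
  refine ⟨?_, fun x => (Real.exp_pos _).le, Real.exp (∑ j, |θ j|), fun x => ?_⟩
  · unfold GG
    apply Real.measurable_exp.comp
    apply Measurable.sub
    · exact Finset.measurable_sum _ fun j _ => (hX j).const_mul _
    · exact (Finset.measurable_sum _ fun j _ => (hX j).pow_const 2).const_mul _
  · unfold GG
    apply Real.exp_le_exp.mpr
    have h1 : ∑ j, θ j * X j x ≤ ∑ j, |θ j| := by
      apply Finset.sum_le_sum
      intro j _
      refine (le_abs_self _).trans ?_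
      rw [abs_mul]
      exact mul_le_of_le_one_right (abs_nonneg _) (hX1 j x)
    have h2 : 0 ≤ t / 2 * ∑ j, X j x ^ 2 := by positivity
    linarith

variable {mm : Measure Ω} [IsFiniteMeasure mm]

lemma int_pos {w : Ω → ℝ} (hw : Wt w) (hpos : ∀ x, 0 < w x) (hmm : mm ≠ 0) :
    0 < ∫ x, w x ∂mm := by
  rw [integral_pos_iff_support_of_nonneg hw.nonneg hw.int1]
  have : Function.support w = Set.univ := by
    ext x; simp [(hpos x).ne']
  rw [this]
  exact Measure.measure_univ_pos.mpr hmm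

omit [MeasurableSpace Ω] in
open Classical in
lemma PW_up {κ : ℝ} (X : ι → Ω → ℝ) (a b : ι → ℕ) (j : ι) :
    up κ (X j) (PW κ X a b) = PW κ X (Function.update a j (a j + 1)) b ∧
    up (-κ) (X j) (PW κ X a b) = PW κ X a (Function.update b j (b j + 1)) := by
  constructor
  · funext x
    unfold up PW
    rw [← Finset.prod_erase_mul Finset.univ _ (Finset.mem_univ j),
      ← Finset.prod_erase_mul Finset.univ (fun i => ((1 + κ * X i x) / 2) ^
        Function.update a j (a j + 1) i * ((1 + -κ * X i x) / 2) ^ b i) (Finset.mem_univ j)]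
    rw [Function.update_self]
    have : ∏ i ∈ Finset.univ.erase j, ((1 + κ * X i x) / 2) ^ Function.update a j (a j + 1) i *
        ((1 + -κ * X i x) / 2) ^ b i = ∏ i ∈ Finset.univ.erase j, ((1 + κ * X i x) / 2) ^ a i *
        ((1 + -κ * X i x) / 2) ^ b i := by
      apply Finset.prod_congr rfl
      intro i hi
      rw [Function.update_of_ne (Finset.ne_of_mem_erase hi)]
    rw [this]
    ring
  · funext x
    unfold up PW
    rw [← Finset.prod_erase_mul Finset.univ _ (Finset.mem_univ j),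
      ← Finset.prod_erase_mul Finset.univ (fun i => ((1 + κ * X i x) / 2) ^ a i *
        ((1 + -κ * X i x) / 2) ^ Function.update b j (b j + 1) i) (Finset.mem_univ j)]
    rw [Function.update_self]
    have : ∏ i ∈ Finset.univ.erase j, ((1 + κ * X i x) / 2) ^ a i *
        ((1 + -κ * X i x) / 2) ^ Function.update b j (b j + 1) i =
        ∏ i ∈ Finset.univ.erase j, ((1 + κ * X i x) / 2) ^ a i *
        ((1 + -κ * X i x) / 2) ^ b i := by
      apply Finset.prod_congr rfl
      intro i hi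
      rw [Function.update_of_ne (Finset.ne_of_mem_erase hi)]
    rw [this]
    ring

omit [IsFiniteMeasure mm] in
/-- the leaves of a sweep are product weights of the next level -/
lemma leaves_of_good {κ : ℝ} {X : ι → Ω → ℝ} {f D : Ω → ℝ} {A B : ℝ} {r : ℕ}
    (hgood : ∀ a b : ι → ℕ, (∀ j, a j + b j = r + 1) →
      VV mm (PW κ X a b) f ≤ A * (∫ x, D x * PW κ X a b x ∂mm) + B * ∫ x, PW κ X a b x ∂mm)
    (L : List ι) : ∀ a b : ι → ℕ, L.Nodup → (∀ j ∈ L, a j + b j = r) →
      (∀ j, j ∉ L → a j + b j = r + 1) → Leaves mm κ X f D A B L (PW κ X a b) := by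
  classical
  induction L with
  | nil =>
    intro a b _ _ h
    exact hgood a b fun j => h j (by simp)
  | cons j L ih =>
    intro a b hnd h1 h2
    rw [List.nodup_cons] at hnd
    have hj := h1 j (by simp)
    have hu := PW_up (κ := κ) X a b j
    refine ⟨?_, ?_⟩
    · rw [hu.1]
      apply ih _ _ hnd.2
      · intro i hi
        have hij : i ≠ j := fun h => hnd.1 (h ▸ hi)
        rw [Function.update_of_ne hij]
        exact h1 i (by simp [hi])
      · intro i hi
        by_cases hij : i = j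
        · subst hij
          rw [Function.update_self]
          omega
        · rw [Function.update_of_ne hij]
          exact h2 i (by simp [hi, hij])
    · rw [hu.2]
      apply ih _ _ hnd.2
      · intro i hi
        have hij : i ≠ j := fun h => hnd.1 (h ▸ hi)
        rw [Function.update_of_ne hij]
        exact h1 i (by simp [hi])
      · intro i hi
        by_cases hij : i = j
        · subst hij
          rw [Function.update_self]
          omega
        · rw [Function.update_of_ne hij]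
          exact h2 i (by simp [hi, hij])

end rec

end Pool.Agent.Lib.MP_6d896a_gt.Few
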