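import Mathlib
import Pool.Agent.Lib.MP_6d896a_gt.Few.Loc2

/-!
Localisation by binary channels: the main theorem.
-/

set_option autoImplicit false

namespace Pool.Agent.Lib.MP_6d896a_gt.Few

open MeasureTheory Real Filter Topology

variable {Ω ι : Type*} [MeasurableSpace Ω] [Fintype ι] {mm : Measure Ω} [IsFiniteMeasure mm]

/-- comparison at one level -/
lemma PW_cmp2 {κ : ℝ} (h0 : 0 ≤ κ) (h1 : κ ≤ 1 / 2) {X : ι → Ω → ℝ}
    (hX : ∀ j, Measurable (X j)) (hX1 : ∀ j x, |X j x| ≤ 1) {T : ℝ} {r : ℕ}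
    (hr : r * κ ^ 2 ≤ T) {a b : ι → ℕ} (hab : ∀ j, a j + b j = r) (hmm : mm ≠ 0) :
    ∃ c1 c2 : ℝ, 0 < c1 ∧ 0 < c2 ∧ c2 ≤ Real.exp (4 * T * κ * Fintype.card ι) * c1 ∧
      (∀ x, PW κ X a b x ≤ c2 * GG X (r * κ ^ 2) (fun j => κ * (a j - b j)) x) ∧
      (∀ x, c1 * GG X (r * κ ^ 2) (fun j => κ * (a j - b j)) x ≤ PW κ X a b x) := by
  refine ⟨((1 / 2 : ℝ) ^ (r * Fintype.card ι)) * Real.exp (-(2 * r * κ ^ 3 * Fintype.card ι)),
    ((1 / 2 : ℝ) ^ (r * Fintype.card ι)) * Real.exp (2 * r * κ ^ 3 * Fintype.card ι),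
    by positivity, by positivity, ?_, fun x => (PW_cmp h0 h1 hX1 hab x).1,
    fun x => (PW_cmp h0 h1 hX1 hab x).2⟩
  rw [mul_left_comm, ← Real.exp_add]
  apply mul_le_mul_of_nonneg_left _ (by positivity)
  apply Real.exp_le_exp.mpr
  have h2 : (r : ℝ) * κ ^ 3 ≤ T * κ := by
    calc (r : ℝ) * κ ^ 3 = (r * κ ^ 2) * κ := by ring
      _ ≤ T * κ := mul_le_mul_of_nonneg_right hr h0
  have h3 : (r : ℝ) * κ ^ 3 * Fintype.card ι ≤ T * κ * Fintype.card ι :=
    mul_le_mul_of_nonneg_right h2 (Nat.cast_nonneg _)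
  nlinarith

/-- one level of the recursion -/
lemma level {κ : ℝ} (h0 : 0 ≤ κ) (h1 : κ ≤ 1 / 2) {X : ι → Ω → ℝ}
    (hX : ∀ j, Measurable (X j)) (hX1 : ∀ j x, |X j x| ≤ 1) {f D : Ω → ℝ} (hf : Measurable f)
    (hf1 : ∀ x, |f x| ≤ 1) (hD : Measurable D) {CD : ℝ} (hD1 : ∀ x, |D x| ≤ CD) (hmm : mm ≠ 0)
    {K T : ℝ} (hK : 0 < K)
    (H1 : ∀ (t : ℝ) (θ c : ι → ℝ), 0 ≤ t → t ≤ T →
      VV mm (GG X t θ) (fun x => ∑ j, c j * X j x) ≤ K * (∑ j, c j ^ 2) * ∫ x, GG X t θ x ∂mm)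
    {K' : ℝ} (hK' : K * Real.exp (4 * T * κ * Fintype.card ι) ≤ K')
    {q : ℝ} (hq : κ ^ 2 / (1 - κ ^ 2) * K' ≤ q) (hq1 : q < 1)
    {A B : ℝ} {r : ℕ} (hr : r * κ ^ 2 ≤ T)
    (hgood : ∀ a b : ι → ℕ, (∀ j, a j + b j = r + 1) →
      VV mm (PW κ X a b) f ≤ A * (∫ x, D x * PW κ X a b x ∂mm) + B * ∫ x, PW κ X a b x ∂mm)
    {a b : ι → ℕ} (hab : ∀ j, a j + b j = r) :
    VV mm (PW κ X a b) f ≤ A / (1 - q) * (∫ x, D x * PW κ X a b x ∂mm) +
      (B + κ ^ 2 / (1 - κ ^ 2) * (Fintype.card ι * (4 * (12 * κ * Fintype.card ι) +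
        (12 * κ * Fintype.card ι) ^ 2))) / (1 - q) * ∫ x, PW κ X a b x ∂mm := by
  classical
  obtain ⟨hw, hwp⟩ := PW_pos_meas h0 h1 hX hX1 a b
  have hpos := int_pos (mm := mm) hw hwp hmm
  have hk2 : κ ^ 2 ≤ 1 / 4 := by nlinarith
  set Q := κ ^ 2 / (1 - κ ^ 2) with hQ
  have hQ0 : 0 ≤ Q := div_nonneg (by positivity) (by linarith)
  set e := 12 * κ * (Fintype.card ι : ℝ) with he
  have he0 : 0 ≤ e := by positivity
  have hL := leaves_of_good hgood (Finset.univ.toList) a b (Finset.nodup_toList _)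
    (fun j _ => hab j) (fun j hj => absurd (Finset.mem_toList.mpr (Finset.mem_univ j)) hj)
  have hs := sweep h0 h1 hX hX1 hf hf1 hD hD1 (Finset.univ.toList) _ hw hpos hL
  rw [Finset.length_toList, Finset.card_univ, ← he, Finset.sum_map_toList] at hs
  -- Bessel
  have hGw := GG_wt hX hX1 (t := r * κ ^ 2) (by positivity) (fun j => κ * ((a j : ℝ) - b j))
  have hGpos := int_pos (mm := mm) hGw (fun x => Real.exp_pos _) hmm
  obtain ⟨c1, c2, hc1, hc2, hc12, hu, hl⟩ := PW_cmp2 (mm := mm) h0 h1 hX hX1 hr hab hmm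
  have hK'pos : 0 < K' := lt_of_lt_of_le (by positivity) hK'
  have hbes := bessel (mm := mm) hX hX1 hw hpos hf hf1 hK'pos (by
    intro c
    have hYm : Measurable (fun x => ∑ j, c j * X j x) :=
      Finset.measurable_sum _ fun j _ => (hX j).const_mul _
    have hYb : ∀ x, |∑ j, c j * X j x| ≤ ∑ j, |c j| := by
      intro x
      refine (Finset.abs_sum_le_sum_abs _ _).trans (Finset.sum_le_sum fun j _ => ?_)
      rw [abs_mul]
      exact mul_le_of_le_one_right (abs_nonneg _) (hX1 j x)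
    refine (VV_cmp hw hGw hpos hGpos hYm hYb hu).trans ?_
    have h3 := H1 (r * κ ^ 2) (fun j => κ * ((a j : ℝ) - b j)) c (by positivity) hr
    have h4 : c1 * (∫ x, GG X (r * κ ^ 2) (fun j => κ * ((a j : ℝ) - b j)) x ∂mm) ≤
        ∫ x, PW κ X a b x ∂mm := by
      rw [← integral_const_mul]
      exact integral_mono (hGw.int1.const_mul _) hw.int1 hl
    have hS : 0 ≤ ∑ j, c j ^ 2 := Finset.sum_nonneg fun j _ => sq_nonneg _
    set I := ∫ x, GG X (r * κ ^ 2) (fun j => κ * ((a j : ℝ) - b j)) x ∂mm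
    calc c2 * VV mm (GG X (r * κ ^ 2) (fun j => κ * ((a j : ℝ) - b j))) (fun x => ∑ j, c j * X j x)
        ≤ c2 * (K * (∑ j, c j ^ 2) * I) := mul_le_mul_of_nonneg_left h3 hc2.le
      _ ≤ (Real.exp (4 * T * κ * Fintype.card ι) * c1) * (K * (∑ j, c j ^ 2) * I) := by
          apply mul_le_mul_of_nonneg_right hc12 (by positivity)
      _ = (K * Real.exp (4 * T * κ * Fintype.card ι)) * (∑ j, c j ^ 2) * (c1 * I) := by ring
      _ ≤ K' * (∑ j, c j ^ 2) * ∫ x, PW κ X a b x ∂mm := by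
          apply mul_le_mul _ h4 (by positivity) (by positivity)
          exact mul_le_mul_of_nonneg_right hK' hS)
  set M := ∫ x, PW κ X a b x ∂mm with hM
  set w := PW κ X a b with hwdef
  have hVV := VV_nonneg (mm := mm) hw hpos hf hf1
  have hsum : ∑ j, (|CC mm w f (X j)| + e) ^ 2 ≤ (∑ j, CC mm w f (X j) ^ 2) +
      Fintype.card ι * (4 * e + e ^ 2) := by
    have : (Fintype.card ι : ℝ) * (4 * e + e ^ 2) = ∑ _j : ι, (4 * e + e ^ 2) := by
      rw [Finset.sum_const, Finset.card_univ, nsmul_eq_mul]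
    rw [this, ← Finset.sum_add_distrib]
    apply Finset.sum_le_sum
    intro j _
    have h5 := CC_le (mm := mm) hw hpos hf hf1 (hX j) (hX1 j)
    rw [← sq_abs (CC mm w f (X j))]
    nlinarith [abs_nonneg (CC mm w f (X j))]
  have h6 : Q * (M * ∑ j, (|CC mm w f (X j)| + e) ^ 2) ≤ q * VV mm w f +
      Q * (Fintype.card ι * (4 * e + e ^ 2)) * M := by
    have h7 := mul_le_mul_of_nonneg_left (mul_le_mul_of_nonneg_left hsum hpos.le) hQ0
    have h8 := mul_le_mul_of_nonneg_left hbes hQ0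
    have h9 : Q * (K' * VV mm w f) ≤ q * VV mm w f := by
      rw [← mul_assoc]; exact mul_le_mul_of_nonneg_right hq hVV
    rw [mul_add, mul_add] at h7
    have e9 : Q * (M * (Fintype.card ι * (4 * e + e ^ 2))) =
      Q * (Fintype.card ι * (4 * e + e ^ 2)) * M := by ring
    rw [e9] at h7
    linarith
  have h10 : 0 < 1 - q := by linarith
  rw [div_mul_eq_mul_div, div_mul_eq_mul_div, ← add_div, le_div_iff₀ h10]
  nlinarith

/-- the localisation theorem -/
theorem localise {X : ι → Ω → ℝ}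
    (hX : ∀ j, Measurable (X j)) (hX1 : ∀ j x, |X j x| ≤ 1) {f D : Ω → ℝ} (hf : Measurable f)
    (hf1 : ∀ x, |f x| ≤ 1) (hD : Measurable D) (hD0 : ∀ x, 0 ≤ D x) {CD : ℝ}
    (hD1 : ∀ x, |D x| ≤ CD)
    {K T β : ℝ} (hK : 0 < K) (hT : 0 < T) (hKT : 8 * (K * T) ≤ 1) (hβ : 0 ≤ β)
    (H1 : ∀ (t : ℝ) (θ c : ι → ℝ), 0 ≤ t → t ≤ T →
      VV mm (GG X t θ) (fun x => ∑ j, c j * X j x) ≤ K * (∑ j, c j ^ 2) * ∫ x, GG X t θ x ∂mm)
    (H2 : ∀ θ : ι → ℝ, VV mm (GG X T θ) f ≤ β * ∫ x, D x * GG X T θ x ∂mm) :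
    VV mm (fun _ => 1) f ≤ 3 * β * ∫ x, D x ∂mm := by
  classical
  by_cases hmm : mm = 0
  · subst hmm
    unfold VV
    simp
  set N : ℝ := (Fintype.card ι : ℝ) with hN
  have hN0 : 0 ≤ N := Nat.cast_nonneg _
  set M := ∫ _x, (1 : ℝ) ∂mm with hM
  have hM0 : 0 ≤ M := integral_nonneg fun _ => zero_le_one
  have hDI : 0 ≤ ∫ x, D x ∂mm := integral_nonneg hD0
  apply le_of_forall_pos_le_add
  intro δ hδ
  -- choice of the step
  set C0 := 4 / 3 * T * (N * (4 * (12 * N) + 12 * (12 * N) * N)) with hC0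
  have hC00 : 0 ≤ C0 := by positivity
  obtain ⟨κ0, hκ0, hκ0a, hκ0b, hκ0c⟩ : ∃ κ0 : ℝ, 0 < κ0 ∧ κ0 ≤ 1 / 2 ∧
      4 * T * κ0 * N ≤ 1 / 5 ∧ 2 * (C0 * κ0) * M ≤ δ := by
    refine ⟨min (1 / 2) (min (1 / (5 * (4 * T * N + 1))) (δ / (2 * C0 * M + 1))), ?_, ?_, ?_, ?_⟩
    · positivity
    · exact min_le_left _ _
    · have h2 : min (1 / 2) (min (1 / (5 * (4 * T * N + 1))) (δ / (2 * C0 * M + 1))) ≤
        1 / (5 * (4 * T * N + 1)) := (min_le_right _ _).trans (min_le_left _ _)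
      have h3 := mul_le_mul_of_nonneg_left h2 (by positivity : 0 ≤ 4 * T * N)
      have h4 : 4 * T * N * (1 / (5 * (4 * T * N + 1))) ≤ 1 / 5 := by
        rw [mul_one_div, div_le_div_iff₀ (by positivity) (by norm_num)]
        nlinarith [mul_nonneg hT.le hN0]
      linarith
    · have h2 : min (1 / 2) (min (1 / (5 * (4 * T * N + 1))) (δ / (2 * C0 * M + 1))) ≤
        δ / (2 * C0 * M + 1) := (min_le_right _ _).trans (min_le_right _ _)
      have h3 := mul_le_mul_of_nonneg_left h2 (by positivity : 0 ≤ 2 * C0 * M)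
      have h4 : 2 * C0 * M * (δ / (2 * C0 * M + 1)) ≤ δ := by
        rw [mul_div_assoc', div_le_iff₀ (by positivity)]
        nlinarith [mul_nonneg hC00 hM0]
      linarith
  obtain ⟨R, hR⟩ := exists_nat_gt (T / κ0 ^ 2)
  have hRpos : (0 : ℝ) < R := lt_of_le_of_lt (by positivity) hR
  set κ := Real.sqrt (T / R) with hκ
  have hκpos : 0 < κ := Real.sqrt_pos.mpr (by positivity)
  have hκ2 : κ ^ 2 = T / R := Real.sq_sqrt (by positivity)
  have hκle : κ ≤ κ0 := by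
    apply Real.sqrt_le_iff.mpr ⟨hκ0.le, ?_⟩
    rw [div_lt_iff₀ (by positivity)] at hR
    rw [div_le_iff₀ hRpos]
    linarith
  have hκh : κ ≤ 1 / 2 := hκle.trans hκ0a
  have hexp : Real.exp (4 * T * κ * N) ≤ 5 / 4 := by
    have h5 : 4 * T * κ * N ≤ 1 / 5 := by
      refine le_trans ?_ hκ0b
      gcongr
    have h6 := Real.add_one_le_exp (-(4 * T * κ * N))
    have h7 : 4 / 5 ≤ Real.exp (-(4 * T * κ * N)) := by linarith
    rw [Real.exp_neg] at h7
    have h8 := Real.exp_pos (4 * T * κ * N)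
    rw [le_inv_comm₀ (by norm_num) h8] at h7
    linarith
  set K' := 5 / 4 * K with hK'
  have hK'1 : K * Real.exp (4 * T * κ * N) ≤ K' := by
    rw [hK']; nlinarith
  set q := 1 / (4 * (R : ℝ)) with hq
  have hR1 : (1 : ℝ) ≤ R := by
    have : 0 < R := by exact_mod_cast hRpos
    exact_mod_cast this
  have hq0 : 0 < q := by positivity
  have hq1 : q ≤ 1 / 4 := by
    rw [hq, div_le_div_iff₀ (by positivity) (by norm_num)]
    linarith
  have hκ2' : κ ^ 2 ≤ 1 / 4 := by nlinarith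
  have hQ : κ ^ 2 / (1 - κ ^ 2) ≤ 4 / 3 * κ ^ 2 := by
    rw [div_le_iff₀ (by linarith)]
    nlinarith [sq_nonneg κ]
  have hQ0 : 0 ≤ κ ^ 2 / (1 - κ ^ 2) := div_nonneg (by positivity) (by linarith)
  have hqq : κ ^ 2 / (1 - κ ^ 2) * K' ≤ q := by
    calc κ ^ 2 / (1 - κ ^ 2) * K' ≤ 4 / 3 * κ ^ 2 * K' :=
          mul_le_mul_of_nonneg_right hQ (by positivity)
      _ = 5 / 3 * (K * T) / R := by rw [hκ2, hK']; ring
      _ ≤ q := by
          rw [hq, div_le_div_iff₀ hRpos (by positivity)]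
          nlinarith
  set E := κ ^ 2 / (1 - κ ^ 2) * (N * (4 * (12 * κ * N) + (12 * κ * N) ^ 2)) with hE
  have hE0 : 0 ≤ E := by positivity
  have hRE : R * E ≤ C0 * κ := by
    have h9 : (12 * κ * N) ^ 2 ≤ κ * (12 * (12 * N) * N) := by
      have : (12 * κ * N) ^ 2 = κ * κ * (12 * (12 * N) * N) := by ring
      rw [this]
      apply mul_le_mul_of_nonneg_right _ (by positivity)
      nlinarith
    calc R * E ≤ R * ((4 / 3 * κ ^ 2) * (N * (4 * (12 * κ * N) + κ * (12 * (12 * N) * N)))) := by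
          apply mul_le_mul_of_nonneg_left _ hRpos.le
          apply mul_le_mul hQ _ (by positivity) (by positivity)
          apply mul_le_mul_of_nonneg_left _ hN0
          linarith
      _ = C0 * κ := by
          rw [hκ2, hC0]
          field_simp
  -- the recursion
  have hrec : ∀ d : ℕ, d ≤ R → ∀ a b : ι → ℕ, (∀ j, a j + b j = R - d) →
      VV mm (PW κ X a b) f ≤ (5 / 4 * β / (1 - q) ^ d) * (∫ x, D x * PW κ X a b x ∂mm) +
        (d * E / (1 - q) ^ d) * ∫ x, PW κ X a b x ∂mm := by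
    intro d
    induction d with
    | zero =>
      intro _ a b hab
      simp only [Nat.sub_zero] at hab
      obtain ⟨hw, hwp⟩ := PW_pos_meas hκpos.le hκh hX hX1 a b
      have hpos := int_pos (mm := mm) hw hwp hmm
      have hT' : (R : ℝ) * κ ^ 2 = T := by rw [hκ2]; field_simp
      obtain ⟨c1, c2, hc1, hc2, hc12, hu, hl⟩ :=
        PW_cmp2 (mm := mm) hκpos.le hκh hX hX1 hT'.le hab hmm
      rw [hT'] at hu hl
      set θ : ι → ℝ := fun j => κ * ((a j : ℝ) - b j)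
      have hGw := GG_wt hX hX1 hT.le θ
      have hGpos := int_pos (mm := mm) hGw (fun x => Real.exp_pos _) hmm
      have h3 := VV_cmp hw hGw hpos hGpos hf hf1 hu
      have h4 := H2 θ
      have h5 : c1 * (∫ x, D x * GG X T θ x ∂mm) ≤ ∫ x, D x * PW κ X a b x ∂mm := by
        rw [← integral_const_mul]
        apply integral_mono ((hGw.int hD hD1).const_mul _) (hw.int hD hD1)
        intro x
        calc c1 * (D x * GG X T θ x) = D x * (c1 * GG X T θ x) := by ring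
          _ ≤ D x * PW κ X a b x := mul_le_mul_of_nonneg_left (hl x) (hD0 x)
      have hID : 0 ≤ ∫ x, D x * GG X T θ x ∂mm :=
        integral_nonneg fun x => mul_nonneg (hD0 x) (hGw.nonneg x)
      simp only [pow_zero, div_one, Nat.cast_zero, zero_mul, add_zero]
      calc VV mm (PW κ X a b) f ≤ c2 * VV mm (GG X T θ) f := h3
        _ ≤ c2 * (β * ∫ x, D x * GG X T θ x ∂mm) := mul_le_mul_of_nonneg_left h4 hc2.le
        _ ≤ (Real.exp (4 * T * κ * N) * c1) * (β * ∫ x, D x * GG X T θ x ∂mm) :=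
            mul_le_mul_of_nonneg_right hc12 (by positivity)
        _ ≤ (5 / 4 * c1) * (β * ∫ x, D x * GG X T θ x ∂mm) := by
            gcongr
        _ = 5 / 4 * β * (c1 * ∫ x, D x * GG X T θ x ∂mm) := by ring
        _ ≤ 5 / 4 * β * ∫ x, D x * PW κ X a b x ∂mm :=
            mul_le_mul_of_nonneg_left h5 (by positivity)
    | succ d ih =>
      intro hd a b hab
      have hd' : d ≤ R := by omega
      have h3 := ih hd'
      have hRd : R - d = (R - (d + 1)) + 1 := by omega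
      rw [hRd] at h3
      have hr : ((R - (d + 1) : ℕ) : ℝ) * κ ^ 2 ≤ T := by
        have h4 : ((R - (d + 1) : ℕ) : ℝ) ≤ R := by exact_mod_cast Nat.sub_le _ _
        calc ((R - (d + 1) : ℕ) : ℝ) * κ ^ 2 ≤ R * κ ^ 2 :=
              mul_le_mul_of_nonneg_right h4 (sq_nonneg _)
          _ = T := by rw [hκ2]; field_simp
      have h5 := level hκpos.le hκh hX hX1 hf hf1 hD hD1 hmm hK H1 hK'1 hqq (by linarith) hr h3 hab
      refine h5.trans ?_
      obtain ⟨hw, hwp⟩ := PW_pos_meas hκpos.le hκh hX hX1 a b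
      have hpos := int_pos (mm := mm) hw hwp hmm
      have hID : 0 ≤ ∫ x, D x * PW κ X a b x ∂mm :=
        integral_nonneg fun x => mul_nonneg (hD0 x) (hw.nonneg x)
      have h1q : 0 < 1 - q := by linarith
      apply add_le_add
      · apply mul_le_mul_of_nonneg_right _ hID
        rw [div_div, ← pow_succ]
      · apply mul_le_mul_of_nonneg_right _ hpos.le
        rw [← hN, ← hE, pow_succ, ← div_div]
        apply div_le_div_of_nonneg_right _ h1q.le
        rw [le_div_iff₀ (by positivity), add_mul, div_mul_cancel₀ _ (by positivity)]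
        push_cast
        have h6 : (1 - q) ^ d ≤ 1 := pow_le_one₀ h1q.le (by linarith)
        nlinarith
  have hfin := hrec R le_rfl (fun _ => 0) (fun _ => 0) (by intro j; simp)
  have hPW1 : PW κ X (fun _ => 0) (fun _ => 0) = fun _ => 1 := by
    funext x; simp [PW]
  rw [hPW1] at hfin
  simp only [mul_one] at hfin
  have hbern : 3 / 4 ≤ (1 - q) ^ R := by
    have := one_add_mul_le_pow (a := -q) (by linarith) R
    have h7 : (R : ℝ) * -q = -(1 / 4) := by rw [hq]; field_simp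
    rw [h7] at this
    have e : (1 + -q) ^ R = (1 - q) ^ R := by ring_nf
    rw [e] at this
    linarith
  have hb0 : 0 < (1 - q) ^ R := by linarith
  have h8 : 5 / 4 * β / (1 - q) ^ R ≤ 3 * β := by
    rw [div_le_iff₀ hb0]
    nlinarith
  have h9 : R * E / (1 - q) ^ R ≤ 2 * (C0 * κ) := by
    rw [div_le_iff₀ hb0]
    have : 0 ≤ C0 * κ := by positivity
    nlinarith
  have h10 := mul_le_mul_of_nonneg_right h8 hDI
  have h11 := mul_le_mul_of_nonneg_right h9 hM0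
  have h12 : 2 * (C0 * κ) * M ≤ δ := by
    refine le_trans ?_ hκ0c
    gcongr
  linarith

end Pool.Agent.Lib.MP_6d896a_gt.Few
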