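import Pool.Agent.Lib.MP_6d896a_gt.Few.LowB

/-!
Central sections of the cube: comparison of volumes of central sections, and a lower bound for the
second moments, with constants polynomial in the codimension.
-/

set_option autoImplicit false

namespace Pool.Agent.Lib.MP_6d896a_gt.Few

open MeasureTheory Real Filter Topology
open scoped ENNReal

variable {N m : ℕ}

lemma sec_inj {K : ℕ} {B : (Fin K → ℝ) →ₗ[ℝ] (Fin N → ℝ)}
    (h : ∀ z w, dot (B z) (B w) = dot z w) : Function.Injective B := by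
  rw [← LinearMap.ker_eq_bot, LinearMap.ker_eq_bot']
  intro z hz
  apply dot_self_eq_zero
  rw [← h z z, hz, dot_zero]

/-- the mass of a symmetric strip in the cube -/
lemma cube_strip (a : Fin N → ℝ) (ha : dot a a = 1) {r : ℝ} (hr : 0 ≤ r) :
    ∫ x, Set.indicator (Set.Icc (-r) r) (fun _ => (1 : ℝ)) (dot a x) * W 0 0 x ≤
      10 * r * ∫ x, W (0 : Fin N → ℝ) 0 x := by
  cases N with
  | zero =>
    exfalso
    simp [dot] at ha
  | succ m =>
    have h0 : Function.Injective (0 : (Fin 0 → ℝ) →ₗ[ℝ] (Fin (m + 1) → ℝ)) :=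
      fun x y _ => Subsingleton.elim x y
    obtain ⟨B, hB⟩ := exists_comp m (ext a (0 : (Fin 0 → ℝ) →ₗ[ℝ] (Fin (m + 1) → ℝ)))
      (ext_inj h0 ha (fun v => by simp [dot])) (by omega)
    have hBi : Function.Injective B := sec_inj hB.iso
    have hBa : ∀ z, dot a (B z) = 0 := by
      intro z
      have h1 := hB.orth z (Fin.cons 1 0)
      rw [ext_cons, one_smul, map_zero, add_zero, dot_comm] at h1
      exact h1
    have hE1 := ext_inj hBi ha hBa
    have hC : Cw (W (0 : Fin (m + 1) → ℝ) 0) := W_Cw 0 le_rfl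
    have hL : LogC (W (0 : Fin (m + 1) → ℝ) 0) := W_logC 0 le_rfl
    have h1 := Rb_base m B hBi a ha hBa
    obtain ⟨δ, hδ, hδK⟩ := comp_lin (ext a B) hE1
    have h2 := setInt_sl ha hBa hE1 hC (measurableSet_Icc (a := -r) (b := r))
    have h3 : ∫ s in Set.Icc (-r) r, sl B a (W 0 0) s ≤
        ∫ s in Set.Icc (-r) r, Is (W (0 : Fin (m + 1) → ℝ) 0) B := by
      apply setIntegral_mono_on (sl_int hE1 hC).integrableOn (integrableOn_const (by simp))
        measurableSet_Icc
      intro s _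
      have := even_le_zero (fun s => sl_nonneg hC s) (sl_logC (a := a) hBi hC hL)
        (fun s => sl_even W00_even _ _ s) s
      rwa [sl_zero] at this
    rw [setIntegral_const, Real.volume_real_Icc_of_le (by linarith), smul_eq_mul, h2] at h3
    have h4 := hδK (fun x => Set.indicator (Set.Icc (-r) r) (fun _ => (1 : ℝ)) (dot a x) *
      W 0 0 x)
    have h5 := hδK (fun x => W 0 0 x)
    rw [h4] at h3
    have h6 : Is (W (0 : Fin (m + 1) → ℝ) 0) (ext a B) = δ * ∫ x, W 0 0 x := h5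
    rw [h6] at h1
    have h7 : δ * ∫ x, Set.indicator (Set.Icc (-r) r) (fun _ => (1 : ℝ)) (dot a x) * W 0 0 x ≤
        δ * (10 * r * ∫ x, W (0 : Fin (m + 1) → ℝ) 0 x) := by
      have := mul_le_mul_of_nonneg_left h1 hr
      nlinarith
    exact le_of_mul_le_mul_left h7 hδ

/-- the level set of the slice function contains a segment of fixed length -/
lemma level_point {K : ℕ} {D : (Fin m → ℝ) →ₗ[ℝ] (Fin N → ℝ)}
    {B : (Fin K → ℝ) →ₗ[ℝ] (Fin N → ℝ)} (h : Comp D B) (za : Fin K → ℝ) (hza : dot za za = 1)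
    {r : ℝ} (hr : 0 ≤ r) (hr20 : r < 1 / 20) :
    slk D B (W 0 0) 0 / (4 * 4 ^ K) ≤ slk D B (W 0 0) (r • za) := by
  have hC : Cw (W (0 : Fin N → ℝ) 0) := W_Cw 0 le_rfl
  have hL : LogC (W (0 : Fin N → ℝ) 0) := W_logC 0 le_rfl
  set g := slk D B (W (0 : Fin N → ℝ) 0) with hg
  have hg0 : ∀ z, 0 ≤ g z := slk_nonneg hC
  have hgL : LogC g := slk_logC h hC hL
  have hgm : Measurable g := slk_meas hC
  have hgi : Integrable g := slk_int h hC
  have hge : ∀ z, g (-z) = g z := fun z => slk_even W00_even _ _ z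
  have hgpos : 0 < g 0 := by
    rw [hg, slk_zero]
    exact W_int_pos h.inj 0 le_rfl
  set c := g 0 / (4 * 4 ^ K) with hc
  have hc0 : 0 < c := by positivity
  set L := {z | c ≤ g z} with hLd
  have hmass : (∫ z, g z) / 2 ≤ ∫ z in L, g z := level_mass hg0 hgL hgm hgi
  obtain ⟨d, hd, hdt⟩ := slk_total h
  have hV : ∫ z, g z = d * ∫ x, W (0 : Fin N → ℝ) 0 x := hdt _ hC
  have hWpos : 0 < ∫ x, W (0 : Fin N → ℝ) 0 x := by
    have := W_int_pos (A := (LinearMap.id : (Fin N → ℝ) →ₗ[ℝ] (Fin N → ℝ)))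
      Function.injective_id 0 le_rfl
    simpa using this
  have hVpos : 0 < ∫ z, g z := by
    rw [hV]
    positivity
  have hconv : Convex ℝ L := level_convex hgL hc0
  have hLsymm : ∀ z ∈ L, -z ∈ L := by
    intro z hz
    show c ≤ g (-z)
    rw [hge]
    exact hz
  have hint : (interior L).Nonempty := by
    by_contra hcon
    have h1 : affineSpan ℝ L ≠ ⊤ := by
      intro htop
      exact hcon (hconv.interior_nonempty_iff_affineSpan_eq_top.mpr htop)
    have h2 : volume (affineSpan ℝ L : Set (Fin K → ℝ)) = 0 :=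
      Measure.addHaar_affineSubspace volume _ h1
    have h3 : volume L = 0 := measure_mono_null (subset_affineSpan ℝ L) h2
    have h4 : ∫ z in L, g z = 0 := setIntegral_measure_zero _ h3
    linarith
  by_contra hcon
  rw [not_le] at hcon
  have hnot : r • za ∉ interior L := by
    intro hmem
    have : r • za ∈ L := interior_subset hmem
    have h1 : c ≤ g (r • za) := this
    linarith
  obtain ⟨f, hf0, hf⟩ := geometric_hahn_banach_of_nonempty_interior_point hconv hnot hint
  set w0 : Fin K → ℝ := fun j => f (Pi.single j 1) with hw0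
  have hfx : ∀ x, f x = dot w0 x := by
    intro x
    have := LinearMap.pi_apply_eq_sum_univ (f : (Fin K → ℝ) →ₗ[ℝ] ℝ) x
    have e : f x = (f : (Fin K → ℝ) →ₗ[ℝ] ℝ) x := rfl
    rw [e, this]
    unfold dot
    apply Finset.sum_congr rfl
    intro j _
    rw [smul_eq_mul, mul_comm]
    congr 1
    show f _ = f _
    congr 1
    funext i
    simp [Pi.single_apply, eq_comm]
  have hw0ne : w0 ≠ 0 := by
    intro h0
    apply hf0
    ext1 x
    rw [hfx, h0]
    simp [dot]
  have hww : 0 < dot w0 w0 := by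
    rcases (dot_self_nonneg w0).eq_or_lt with h1 | h1
    · exact absurd (dot_self_eq_zero h1.symm) hw0ne
    · exact h1
  set q := Real.sqrt (dot w0 w0) with hq
  have hq0 : 0 < q := Real.sqrt_pos.mpr hww
  have hq2 : q ^ 2 = dot w0 w0 := Real.sq_sqrt hww.le
  set w := q⁻¹ • w0 with hw
  have hw1 : dot w w = 1 := by
    rw [hw, dot_smul, dot_smul_left, ← hq2]
    field_simp
  have hwL : ∀ z ∈ L, |dot w z| ≤ r := by
    have h1 : ∀ z ∈ L, dot w z ≤ r := by
      intro z hz
      have h2 := hf z hz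
      rw [hfx, hfx, dot_smul] at h2
      have h3 : dot w0 za ≤ q := by
        apply le_of_sq_le_sq _ hq0.le
        have := dot_cs w0 za
        rw [hza, mul_one, ← hq2] at this
        exact this
      have h4 : dot w0 z ≤ r * q := h2.trans (mul_le_mul_of_nonneg_left h3 hr)
      rw [hw, dot_smul_left, inv_mul_le_iff₀ hq0, mul_comm q r]
      exact h4
    intro z hz
    rw [abs_le]
    refine ⟨?_, h1 z hz⟩
    have h2 := h1 (-z) (hLsymm z hz)
    have h3 := dot_smul w z (-1)
    rw [neg_one_smul] at h3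
    linarith
  -- mass of the strip
  have hBw : dot (B w) (B w) = 1 := by rw [h.iso, hw1]
  have hstrip := cube_strip (B w) hBw hr
  have hCind : Cw (fun x => Set.indicator (Set.Icc (-r) r) (fun _ => (1 : ℝ)) (dot (B w) x) *
      W (0 : Fin N → ℝ) 0 x) := ind_Cw hC measurableSet_Icc
  have h5 := hdt _ hCind
  have h6 : ∫ z in L, g z ≤ ∫ z, slk D B (fun x =>
      Set.indicator (Set.Icc (-r) r) (fun _ => (1 : ℝ)) (dot (B w) x) *
      W (0 : Fin N → ℝ) 0 x) z := by
    have hLm : MeasurableSet L := measurableSet_le measurable_const hgm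
    rw [← integral_indicator hLm]
    apply integral_mono (hgi.indicator hLm) (slk_int h hCind)
    intro z
    show L.indicator g z ≤ ∫ v, Set.indicator (Set.Icc (-r) r) (fun _ => (1 : ℝ))
      (dot (B w) (B z + D v)) * W (0 : Fin N → ℝ) 0 (B z + D v)
    simp only [h.coord]
    rw [integral_const_mul]
    by_cases hz : z ∈ L
    · have hmem : dot w z ∈ Set.Icc (-r) r := abs_le.mp (hwL z hz)
      rw [Set.indicator_of_mem hz, Set.indicator_of_mem hmem, one_mul]
      rfl
    · rw [Set.indicator_of_notMem hz]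
      exact mul_nonneg (Set.indicator_nonneg (fun _ _ => zero_le_one) _)
        (integral_nonneg fun _ => hC.nonneg _)
  rw [h5] at h6
  have h7 : (∫ z, g z) / 2 ≤ 10 * r * ∫ z, g z := by
    calc (∫ z, g z) / 2 ≤ _ := hmass
      _ ≤ _ := h6
      _ ≤ d * (10 * r * ∫ x, W (0 : Fin N → ℝ) 0 x) := mul_le_mul_of_nonneg_left hstrip hd.le
      _ = 10 * r * ∫ z, g z := by rw [hV]; ring
  nlinarith

lemma Rb_poly (k m N : ℕ) (hN : N = m + 1 + k) :
    Rb (W (0 : Fin N → ℝ) 0) m (80 * ((k : ℝ) + 2)) := by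
  intro D hD a ha haD
  have hC : Cw (W (0 : Fin N → ℝ) 0) := W_Cw 0 le_rfl
  have hL : LogC (W (0 : Fin N → ℝ) 0) := W_logC 0 le_rfl
  obtain ⟨B, hB⟩ := exists_comp (k + 1) D hD (by omega)
  obtain ⟨za, hza, hza1⟩ := hB.surj_orth a haD
  rw [ha] at hza1
  have hE1 := ext_inj hD ha haD
  have h1 := level_point hB za hza1 (r := 1 / 40) (by norm_num) (by norm_num)
  set f := sl D a (W (0 : Fin N → ℝ) 0) with hf
  have hfg : ∀ t : ℝ, slk D B (W 0 0) (t • za) = f t := by
    intro t
    rw [slk_eq_Hs, map_smul, hza]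
    rfl
  have hf0 : ∀ s, 0 ≤ f s := fun s => sl_nonneg hC s
  have hfL : LogC f := sl_logC hD hC hL
  have hfE : ∀ s, f (-s) = f s := fun s => sl_even W00_even _ _ s
  have hfi : Integrable f := sl_int hE1 hC
  have hz : slk D B (W 0 0) 0 = f 0 := by
    have := hfg 0
    rwa [zero_smul] at this
  rw [hfg, hz] at h1
  have hfpos : 0 < f 0 := by
    rw [hf, sl_zero]
    exact W_int_pos hD 0 le_rfl
  set p : ℝ := 2 * ((k : ℝ) + 2) with hp
  have hp4 : 4 ≤ p := by
    have : (0 : ℝ) ≤ k := Nat.cast_nonneg k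
    rw [hp]; linarith
  have hp0 : 0 < p := by linarith
  -- f (1/(40 p)) ≥ f 0 / 2
  have h2 : f 0 / 2 ≤ f (1 / (40 * p)) := by
    have hl0 : 0 < 1 / p := by positivity
    have hl1 : 1 / p < 1 := by
      rw [div_lt_one hp0]; linarith
    have h3 := hfL 0 (1 / 40) (1 / p) hl0 hl1
    have e1 : (1 - 1 / p) • (0 : ℝ) + (1 / p) • (1 / 40 : ℝ) = 1 / (40 * p) := by
      simp only [smul_eq_mul]
      field_simp
      ring
    rw [e1] at h3
    refine le_trans ?_ h3
    have h4 : (f 0 / (4 * 4 ^ (k + 1))) ^ (1 / p) ≤ f (1 / 40) ^ (1 / p) :=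
      Real.rpow_le_rpow (by positivity) h1 hl0.le
    have h5 : (f 0 / (4 * 4 ^ (k + 1))) ^ (1 / p) = f 0 ^ (1 / p) / 2 := by
      rw [Real.div_rpow hfpos.le (by positivity)]
      congr 1
      have e2 : (4 : ℝ) * 4 ^ (k + 1) = 2 ^ p := by
        rw [hp]
        have e3 : (2 : ℝ) * ((k : ℝ) + 2) = ((2 * (k + 2) : ℕ) : ℝ) := by push_cast; ring
        rw [e3, Real.rpow_natCast, pow_mul]
        norm_num
        ring
      rw [e2, ← Real.rpow_mul (by norm_num)]
      rw [mul_one_div_cancel hp0.ne', Real.rpow_one]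
    rw [h5] at h4
    calc f 0 / 2 = f 0 ^ (1 - 1 / p) * (f 0 ^ (1 / p) / 2) := by
          rw [← mul_div_assoc, ← Real.rpow_add hfpos]
          congr 1
          have : 1 - 1 / p + 1 / p = 1 := by ring
          rw [this, Real.rpow_one]
      _ ≤ f 0 ^ (1 - 1 / p) * f (1 / 40) ^ (1 / p) :=
          mul_le_mul_of_nonneg_left h4 (Real.rpow_nonneg hfpos.le _)
  have h6 := two_mul_le hf0 hfL hfE hfi (1 / (40 * p))
  rw [abs_of_pos (by positivity : (0 : ℝ) < 1 / (40 * p))] at h6
  have h7 : Is (W (0 : Fin N → ℝ) 0) D = f 0 := sl_zero.symm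
  have h8 : Is (W (0 : Fin N → ℝ) 0) (ext a D) = ∫ s, f s := (sl_total hE1 hC).symm
  rw [h7, h8]
  have h9 : 1 / (40 * p) * f 0 ≤ ∫ s, f s := by
    refine le_trans ?_ h6
    have : 2 * (1 / (40 * p)) * (f 0 / 2) ≤ 2 * (1 / (40 * p)) * f (1 / (40 * p)) :=
      mul_le_mul_of_nonneg_left h2 (by positivity)
    linarith
  have h10 : f 0 ≤ 40 * p * ∫ s, f s := by
    have h11 := mul_le_mul_of_nonneg_left h9 (by positivity : (0 : ℝ) ≤ 40 * p)
    have e : 40 * p * (1 / (40 * p) * f 0) = f 0 := by field_simp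
    linarith
  calc f 0 ≤ 40 * p * ∫ s, f s := h10
    _ = _ := by rw [hp]; ring

/-- second moments on central sections of codimension `k` of the cube: lower bound -/
theorem Low_bound (k n : ℕ) (A : (Fin n → ℝ) →ₗ[ℝ] (Fin (n + k) → ℝ))
    (hA : Function.Injective A) (c : Fin n → ℝ) :
    (1 / (204800 * ((k : ℝ) + 2) ^ 2)) * (dot (A c) (A c)) * (∫ v, W 0 0 (A v)) ≤
      ∫ v, dot (A c) (A v) ^ 2 * W 0 0 (A v) := by
  have hC : Cw (W (0 : Fin (n + k) → ℝ) 0) := W_Cw 0 le_rfl
  have hL : LogC (W (0 : Fin (n + k) → ℝ) 0) := W_logC 0 le_rfl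
  rcases (show 0 ≤ dot (A c) (A c) from Finset.sum_nonneg fun i _ => mul_self_nonneg _).eq_or_lt
    with hz | hpos
  · rw [← hz, mul_zero, zero_mul]
    exact integral_nonneg fun v => mul_nonneg (sq_nonneg _) (W_nonneg _ _ _)
  cases n with
  | zero =>
    exfalso
    have : c = 0 := Subsingleton.elim _ _
    rw [this, map_zero, dot_zero] at hpos
    exact lt_irrefl _ hpos
  | succ m =>
    set r := Real.sqrt (dot (A c) (A c)) with hr
    have hr0 : 0 < r := Real.sqrt_pos.mpr hpos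
    have hr2 : r ^ 2 = dot (A c) (A c) := Real.sq_sqrt hpos.le
    set c' := r⁻¹ • c with hc'
    set a := A c' with ha
    have haa : dot a a = 1 := by
      rw [ha, hc', map_smul, dot_smul, dot_smul_left, ← hr2]
      field_simp
    -- the functional
    let ψ : (Fin (m + 1) → ℝ) →ₗ[ℝ] ℝ :=
      { toFun := fun v => dot a (A v)
        map_add' := fun x y => by rw [map_add, dot_add]
        map_smul' := fun s x => by rw [map_smul, dot_smul]; rfl }
    have hψ : ∀ v, ψ v = dot a (A v) := fun v => rfl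
    have hψc : ψ c' = 1 := haa
    have hrange : LinearMap.range ψ = ⊤ := by
      rw [LinearMap.range_eq_top]
      intro t
      exact ⟨t • c', by rw [map_smul, hψc]; simp⟩
    have hker : Module.finrank ℝ (LinearMap.ker ψ) = m := by
      have h1 := LinearMap.finrank_range_add_finrank_ker ψ
      rw [hrange, finrank_top, Module.finrank_self] at h1
      simp only [Module.finrank_fintype_fun_eq_card, Fintype.card_fin] at h1
      omega
    let eK : (Fin m → ℝ) ≃ₗ[ℝ] LinearMap.ker ψ :=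
      LinearEquiv.ofFinrankEq _ _ (by rw [hker]; simp)
    let B : (Fin m → ℝ) →ₗ[ℝ] (Fin (m + 1) → ℝ) := (LinearMap.ker ψ).subtype ∘ₗ eK.toLinearMap
    have hB : Function.Injective B := by
      intro x y hxy
      apply eK.injective
      exact Subtype.ext hxy
    have hBψ : ∀ v, dot a (A (B v)) = 0 := fun v => (eK v).2
    set T : (Fin (m + 1) → ℝ) →ₗ[ℝ] (Fin (m + 1) → ℝ) := ext c' B with hT
    have hAT : ∀ y, A (T y) = ext a (A ∘ₗ B) y := by
      intro y
      show A (y 0 • c' + B (Fin.tail y)) = y 0 • a + A (B (Fin.tail y))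
      rw [map_add, map_smul]
    have hAB : Function.Injective (A ∘ₗ B) := hA.comp hB
    have hE1 : Function.Injective (ext a (A ∘ₗ B)) := ext_inj hAB haa hBψ
    have hTi : Function.Injective T := by
      intro x y hxy
      apply hE1
      rw [← hAT, ← hAT, hxy]
    obtain ⟨δ, hδ, hδK⟩ := comp_lin T hTi
    have h1 := hδK (fun v => W 0 0 (A v))
    have h2 := hδK (fun v => dot (A c) (A v) ^ 2 * W 0 0 (A v))
    simp only [hAT] at h1 h2
    -- the one dimensional estimate
    obtain ⟨i2, h3⟩ := sq_slice hC hAB haa hBψ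
    have hRb := Rb_poly k m (m + 1 + k) rfl (A ∘ₗ B) hAB a haa hBψ
    have hmax : ∀ s, sl (A ∘ₗ B) a (W 0 0) s ≤
        (80 * ((k : ℝ) + 2)) * ∫ s, sl (A ∘ₗ B) a (W 0 0) s := by
      intro s
      refine (even_le_zero (fun s => sl_nonneg hC s) (sl_logC hAB hC hL)
        (fun s => sl_even W00_even _ _ s) s).trans ?_
      rw [sl_zero, sl_total hE1 hC]
      exact hRb
    have h4 := second_moment_ge (fun s => sl_nonneg hC s) (sl_int hE1 hC) i2
      (R := 80 * ((k : ℝ) + 2)) (by positivity) hmax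
    rw [h3, sl_total hE1 hC] at h4
    have h5 : ∀ x : Fin (m + 1 + k) → ℝ, dot (A c) x = r * dot a x := by
      intro x
      rw [ha, hc', map_smul, dot_smul_left, ← mul_assoc, mul_inv_cancel₀ hr0.ne', one_mul]
    have h6 : ∫ y, dot (A c) (ext a (A ∘ₗ B) y) ^ 2 * W 0 0 (ext a (A ∘ₗ B) y) =
        r ^ 2 * ∫ y, dot a (ext a (A ∘ₗ B) y) ^ 2 * W 0 0 (ext a (A ∘ₗ B) y) := by
      rw [← integral_const_mul]
      congr 1
      funext y
      rw [h5]
      ring
    have h7 : (1 / (204800 * ((k : ℝ) + 2) ^ 2)) * (dot (A c) (A c)) *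
        (∫ y, W 0 0 (ext a (A ∘ₗ B) y)) ≤
        ∫ y, dot (A c) (ext a (A ∘ₗ B) y) ^ 2 * W 0 0 (ext a (A ∘ₗ B) y) := by
      rw [h6, ← hr2]
      have e : (1 : ℝ) / (204800 * ((k : ℝ) + 2) ^ 2) = 1 / (32 * (80 * ((k : ℝ) + 2)) ^ 2) := by
        congr 1
        ring
      rw [e]
      have := mul_le_mul_of_nonneg_left h4 (sq_nonneg r)
      linarith
    rw [h1, h2] at h7
    have h8 : δ * ((1 / (204800 * ((k : ℝ) + 2) ^ 2)) * (dot (A c) (A c)) * ∫ v, W 0 0 (A v)) ≤
        δ * ∫ v, dot (A c) (A v) ^ 2 * W 0 0 (A v) := by linarith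
    exact le_of_mul_le_mul_left h8 hδ

end Pool.Agent.Lib.MP_6d896a_gt.Few
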