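import Mathlib
import Pool.Agent.Lib.MP_66505f_gt.PL

/-!
Sections of the cube: basic facts on slices and the Prekopa-Leindler inequality for real
functions.
-/

set_option autoImplicit false

namespace Pool.Agent.Lib.MP_6d896a_gt.Few

open MeasureTheory Real Filter Topology
open scoped ENNReal

/-- real valued Prekopa-Leindler -/
lemma pl_real {m : ℕ} {l : ℝ} (h0 : 0 < l) (h1 : l < 1) {f g h : (Fin m → ℝ) → ℝ}
    (hf : Integrable f) (hg : Integrable g) (hh : Integrable h)
    (hfm : Measurable f) (hgm : Measurable g) (hhm : Measurable h)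
    (hf0 : ∀ x, 0 ≤ f x) (hg0 : ∀ x, 0 ≤ g x) (hh0 : ∀ x, 0 ≤ h x)
    (H : ∀ x y, f x ^ (1 - l) * g y ^ l ≤ h ((1 - l) • x + l • y)) :
    (∫ x, f x) ^ (1 - l) * (∫ x, g x) ^ l ≤ ∫ x, h x := by
  have h1l : 0 < 1 - l := by linarith
  have key := Pool.Agent.Lib.MP_66505f_gt.pl h0 h1 m (fun x => ENNReal.ofReal (f x))
    (fun x => ENNReal.ofReal (g x)) (fun x => ENNReal.ofReal (h x)) hfm.ennreal_ofReal
    hgm.ennreal_ofReal hhm.ennreal_ofReal (by
      intro x y
      rw [ENNReal.ofReal_rpow_of_nonneg (hf0 x) h1l.le, ENNReal.ofReal_rpow_of_nonneg (hg0 y) h0.le,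
        ← ENNReal.ofReal_mul (Real.rpow_nonneg (hf0 x) _)]
      exact ENNReal.ofReal_le_ofReal (H x y))
  rw [← ofReal_integral_eq_lintegral_ofReal hf (ae_of_all _ hf0),
    ← ofReal_integral_eq_lintegral_ofReal hg (ae_of_all _ hg0),
    ← ofReal_integral_eq_lintegral_ofReal hh (ae_of_all _ hh0),
    ENNReal.ofReal_rpow_of_nonneg (integral_nonneg hf0) h1l.le,
    ENNReal.ofReal_rpow_of_nonneg (integral_nonneg hg0) h0.le,
    ← ENNReal.ofReal_mul (Real.rpow_nonneg (integral_nonneg hf0) _)] at key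
  exact (ENNReal.ofReal_le_ofReal_iff (integral_nonneg hh0)).mp key

/-- log-concavity of a nonnegative function -/
def LogC {E : Type*} [AddCommGroup E] [Module ℝ E] (f : E → ℝ) : Prop :=
  ∀ x y (l : ℝ), 0 < l → l < 1 → f x ^ (1 - l) * f y ^ l ≤ f ((1 - l) • x + l • y)

/-- the cube -/
def cube (N : ℕ) : Set (Fin N → ℝ) := {x | ∀ j, |x j| ≤ 1}

variable {N m : ℕ}

lemma cube_eq : cube N = Set.pi Set.univ (fun _ => Set.Icc (-1) 1) := by
  ext x
  simp only [cube, Set.mem_ofPred_eq, Set.mem_pi, Set.mem_univ, true_implies, Set.mem_Icc, abs_le]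

lemma cube_compact : IsCompact (cube N) := by
  rw [cube_eq]
  exact isCompact_univ_pi fun _ => isCompact_Icc

lemma cube_meas : MeasurableSet (cube N) := cube_compact.measurableSet

lemma cube_convex {x y : Fin N → ℝ} (hx : x ∈ cube N) (hy : y ∈ cube N) {l : ℝ} (h0 : 0 < l)
    (h1 : l < 1) : (1 - l) • x + l • y ∈ cube N := by
  intro j
  have := hx j
  have := hy j
  simp only [Pi.add_apply, Pi.smul_apply, smul_eq_mul]
  have h2 : |(1 - l) * x j + l * y j| ≤ (1 - l) * |x j| + l * |y j| := by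
    refine (abs_add_le _ _).trans ?_
    rw [abs_mul, abs_mul, abs_of_pos h0, abs_of_pos (by linarith : 0 < 1 - l)]
  nlinarith

/-- slices of the cube are compact -/
lemma slice_compact (A : (Fin m → ℝ) →ₗ[ℝ] (Fin N → ℝ)) (hA : Function.Injective A)
    (x0 : Fin N → ℝ) : IsCompact {v | x0 + A v ∈ cube N} := by
  have h1 : IsClosedEmbedding A := LinearMap.isClosedEmbedding_of_injective
    (LinearMap.ker_eq_bot.mpr hA)
  have h2 : IsCompact ((fun y => x0 + y) ⁻¹' (cube N)) :=
    (Homeomorph.addLeft x0).isCompact_preimage.mpr cube_compact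
  exact h1.isCompact_preimage h2

lemma slice_meas (A : (Fin m → ℝ) →ₗ[ℝ] (Fin N → ℝ)) (hA : Function.Injective A)
    (x0 : Fin N → ℝ) : MeasurableSet {v | x0 + A v ∈ cube N} :=
  (slice_compact A hA x0).measurableSet

lemma lin_cont (A : (Fin m → ℝ) →ₗ[ℝ] (Fin N → ℝ)) : Continuous A :=
  A.continuous_of_finiteDimensional

/-- functions supported on the cube and bounded there are integrable on slices -/
lemma slice_int (A : (Fin m → ℝ) →ₗ[ℝ] (Fin N → ℝ)) (hA : Function.Injective A)
    (x0 : Fin N → ℝ) {G : (Fin N → ℝ) → ℝ} (hG : Measurable G) {C : ℝ}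
    (hC : ∀ x ∈ cube N, |G x| ≤ C) :
    Integrable (fun v => Set.indicator (cube N) G (x0 + A v)) := by
  have e : (fun v => Set.indicator (cube N) G (x0 + A v)) =
      Set.indicator {v | x0 + A v ∈ cube N} (fun v => G (x0 + A v)) := by
    funext v
    simp only [Set.indicator, Set.mem_ofPred_eq]
  rw [e, integrable_indicator_iff (slice_meas A hA x0)]
  have hfin : volume {v | x0 + A v ∈ cube N} ≠ ∞ := (slice_compact A hA x0).measure_lt_top.ne
  refine Measure.integrableOn_of_bounded hfin ?_ (M := C) ?_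
  · exact (hG.comp (measurable_const.add (lin_cont A).measurable)).aestronglyMeasurable
  · rw [ae_restrict_iff' (slice_meas A hA x0)]
    exact ae_of_all _ fun v hv => hC _ hv

/-- the extended map -/
noncomputable def ext (a : Fin N → ℝ) (A : (Fin m → ℝ) →ₗ[ℝ] (Fin N → ℝ)) :
    (Fin (m + 1) → ℝ) →ₗ[ℝ] (Fin N → ℝ) where
  toFun y := y 0 • a + A (Fin.tail y)
  map_add' x y := by
    have : Fin.tail (x + y) = Fin.tail x + Fin.tail y := rfl
    rw [this, map_add, Pi.add_apply, add_smul]
    abel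
  map_smul' r x := by
    have : Fin.tail (r • x) = r • Fin.tail x := rfl
    rw [this, map_smul, Pi.smul_apply, smul_eq_mul, RingHom.id_apply, smul_add, mul_smul]

lemma ext_cons (a : Fin N → ℝ) (A : (Fin m → ℝ) →ₗ[ℝ] (Fin N → ℝ)) (s : ℝ) (v : Fin m → ℝ) :
    ext a A (Fin.cons s v) = s • a + A v := by
  simp [ext]

/-- the dot product -/
noncomputable def dot (c x : Fin N → ℝ) : ℝ := ∑ j, c j * x j

lemma dot_add (c x y : Fin N → ℝ) : dot c (x + y) = dot c x + dot c y := by
  simp only [dot, Pi.add_apply, mul_add, Finset.sum_add_distrib]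

lemma dot_smul (c x : Fin N → ℝ) (r : ℝ) : dot c (r • x) = r * dot c x := by
  simp only [dot, Pi.smul_apply, smul_eq_mul, Finset.mul_sum]
  exact Finset.sum_congr rfl fun j _ => by ring

lemma dot_comm (c x : Fin N → ℝ) : dot c x = dot x c := by
  simp only [dot]
  exact Finset.sum_congr rfl fun j _ => by ring

lemma dot_add_left (c d x : Fin N → ℝ) : dot (c + d) x = dot c x + dot d x := by
  rw [dot_comm, dot_add, dot_comm x c, dot_comm x d]

lemma dot_smul_left (c x : Fin N → ℝ) (r : ℝ) : dot (r • c) x = r * dot c x := by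
  rw [dot_comm, dot_smul, dot_comm]

lemma dot_zero (c : Fin N → ℝ) : dot c 0 = 0 := by simp [dot]

lemma dot_continuous (c : Fin N → ℝ) : Continuous (fun x => dot c x) := by
  unfold dot
  fun_prop

lemma dot_cs (c x : Fin N → ℝ) : dot c x ^ 2 ≤ dot c c * dot x x := by
  have := Finset.sum_mul_sq_le_sq_mul_sq Finset.univ c x
  simpa [dot, sq] using this

lemma dot_abs_cube (c : Fin N → ℝ) {x : Fin N → ℝ} (hx : x ∈ cube N) :
    |dot c x| ≤ ∑ j, |c j| := by
  unfold dot
  refine (Finset.abs_sum_le_sum_abs _ _).trans (Finset.sum_le_sum fun j _ => ?_)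
  rw [abs_mul]
  have := hx j
  have := abs_nonneg (c j)
  nlinarith

/-- a unit vector orthogonal to the range of a map of small rank -/
lemma exists_unit (A : (Fin m → ℝ) →ₗ[ℝ] (Fin N → ℝ)) (hmN : m < N) :
    ∃ a : Fin N → ℝ, dot a a = 1 ∧ ∀ v, dot a (A v) = 0 := by
  have hlt : LinearMap.range A < ⊤ := by
    rw [lt_top_iff_ne_top]
    intro htop
    have h1 := LinearMap.finrank_range_le A
    rw [htop, finrank_top] at h1
    simp at h1
    omega
  obtain ⟨φ, hφ, hle⟩ := Submodule.exists_le_ker_of_lt_top _ hlt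
  set b : Fin N → ℝ := fun j => φ (Pi.single j 1) with hb
  have hφx : ∀ x, φ x = dot b x := by
    intro x
    rw [LinearMap.pi_apply_eq_sum_univ φ x]
    unfold dot
    apply Finset.sum_congr rfl
    intro j _
    rw [smul_eq_mul, mul_comm]
    congr 2
    funext i
    simp [Pi.single_apply, eq_comm]
  have hb0 : b ≠ 0 := by
    intro h
    apply hφ
    ext x
    simp [hφx, h, dot]
  have hpos : 0 < dot b b := by
    unfold dot
    obtain ⟨j, hj⟩ := Function.ne_iff.mp hb0
    apply Finset.sum_pos' (fun i _ => mul_self_nonneg _)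
    exact ⟨j, Finset.mem_univ j, mul_self_pos.mpr hj⟩
  refine ⟨(Real.sqrt (dot b b))⁻¹ • b, ?_, ?_⟩
  · rw [dot_smul, dot_smul_left]
    have : Real.sqrt (dot b b) ≠ 0 := (Real.sqrt_pos.mpr hpos).ne'
    field_simp
    rw [Real.sq_sqrt hpos.le]
  · intro v
    have : A v ∈ LinearMap.ker φ := hle ⟨v, rfl⟩
    rw [dot_smul_left, ← hφx (A v), LinearMap.mem_ker.mp this, mul_zero]

lemma ext_inj {a : Fin N → ℝ} {A : (Fin m → ℝ) →ₗ[ℝ] (Fin N → ℝ)} (hA : Function.Injective A)
    (ha : dot a a = 1) (haA : ∀ v, dot a (A v) = 0) : Function.Injective (ext a A) := by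
  rw [← LinearMap.ker_eq_bot, LinearMap.ker_eq_bot']
  intro y hy
  have h1 : y 0 • a + A (Fin.tail y) = 0 := hy
  have h2 := congrArg (dot a) h1
  rw [dot_add, dot_smul, ha, haA, dot_zero, mul_one, add_zero] at h2
  rw [h2, zero_smul, zero_add] at h1
  have h3 : Fin.tail y = 0 := hA (by rw [h1, map_zero])
  funext i
  refine Fin.cases h2 (fun j => ?_) i
  exact congrFun h3 j

/-- the product weight -/
noncomputable def W (θ : Fin N → ℝ) (t : ℝ) : (Fin N → ℝ) → ℝ :=
  Set.indicator (cube N) (fun x => Real.exp (dot θ x - t / 2 * dot x x))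

lemma W_nonneg (θ : Fin N → ℝ) (t : ℝ) (x : Fin N → ℝ) : 0 ≤ W θ t x :=
  Set.indicator_nonneg (fun _ _ => (Real.exp_pos _).le) x

lemma W_shift (θ c : Fin N → ℝ) (t r : ℝ) (x : Fin N → ℝ) :
    Real.exp (r * dot c x) * W θ t x = W (θ + r • c) t x := by
  unfold W Set.indicator
  split_ifs with h
  · show Real.exp (r * dot c x) * Real.exp (dot θ x - t / 2 * dot x x) =
      Real.exp (dot (θ + r • c) x - t / 2 * dot x x)
    rw [← Real.exp_add, dot_add_left, dot_smul_left]
    congr 1
    ring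
  · simp

lemma dotself_continuous : Continuous (fun x : Fin N → ℝ => dot x x) := by
  unfold dot
  fun_prop

lemma W_meas (θ : Fin N → ℝ) (t : ℝ) : Measurable (W θ t) := by
  apply Measurable.indicator _ cube_meas
  have := dot_continuous θ
  have := dotself_continuous (N := N)
  have h : Continuous (fun x : Fin N → ℝ => Real.exp (dot θ x - t / 2 * dot x x)) := by fun_prop
  exact h.measurable

lemma dotself_convex (x y : Fin N → ℝ) {l : ℝ} (h0 : 0 < l) (h1 : l < 1) :
    dot ((1 - l) • x + l • y) ((1 - l) • x + l • y) ≤ (1 - l) * dot x x + l * dot y y := by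
  have hs : 0 ≤ dot (x - y) (x - y) := Finset.sum_nonneg fun i _ => mul_self_nonneg _
  have e1 : (1 - l) * dot x x + l * dot y y - dot ((1 - l) • x + l • y) ((1 - l) • x + l • y) =
      l * (1 - l) * dot (x - y) (x - y) := by
    unfold dot
    simp only [Finset.mul_sum]
    rw [← Finset.sum_add_distrib, ← Finset.sum_sub_distrib]
    apply Finset.sum_congr rfl
    intro j _
    simp only [Pi.add_apply, Pi.smul_apply, smul_eq_mul, Pi.sub_apply]
    ring
  have : 0 ≤ l * (1 - l) * dot (x - y) (x - y) := by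
    have : 0 < 1 - l := by linarith
    positivity
  linarith

lemma W_logC (θ : Fin N → ℝ) {t : ℝ} (ht : 0 ≤ t) : LogC (W θ t) := by
  intro x y l h0 h1
  have h1l : 0 < 1 - l := by linarith
  unfold W Set.indicator
  by_cases hx : x ∈ cube N
  · by_cases hy : y ∈ cube N
    · rw [if_pos hx, if_pos hy, if_pos (cube_convex hx hy h0 h1), ← Real.exp_mul, ← Real.exp_mul,
        ← Real.exp_add]
      apply Real.exp_le_exp.mpr
      rw [dot_add, dot_smul, dot_smul]
      have := dotself_convex x y h0 h1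
      nlinarith
    · rw [if_neg hy, Real.zero_rpow h0.ne', mul_zero]
      split_ifs
      · exact (Real.exp_pos _).le
      · exact le_rfl
  · rw [if_neg hx, Real.zero_rpow h1l.ne', zero_mul]
    split_ifs
    · exact (Real.exp_pos _).le
    · exact le_rfl

end Pool.Agent.Lib.MP_6d896a_gt.Few
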