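import Mathlib
import Pool.Agent.Lib.MP_6d896a_gt.Few.Sec1

/-!
Slice functions and one dimensional lemmas.
-/

set_option autoImplicit false

namespace Pool.Agent.Lib.MP_6d896a_gt.Few

open MeasureTheory Real Filter Topology
open scoped ENNReal

variable {N m : ℕ}

lemma int_cons_aux {φ : (Fin (m + 1) → ℝ) → ℝ} (hφ : Integrable φ) :
    Integrable (fun p : ℝ × (Fin m → ℝ) => φ (Fin.cons p.1 p.2)) := by
  have hmp := (volume_preserving_piFinSuccAbove (fun _ : Fin (m + 1) => ℝ) 0).symm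
  have h1 := (hmp.integrable_comp_emb (MeasurableEquiv.measurableEmbedding _)).mpr hφ
  have e : (φ ∘ (MeasurableEquiv.piFinSuccAbove (fun _ : Fin (m + 1) => ℝ) 0).symm) =
      fun p : ℝ × (Fin m → ℝ) => φ (Fin.cons p.1 p.2) := by
    funext p
    simp only [Function.comp, Pool.Agent.Lib.MP_66505f_gt.piFinSuccAbove_symm_eq]
  rw [e] at h1
  exact h1

lemma int_cons {φ : (Fin (m + 1) → ℝ) → ℝ} (hφ : Integrable φ) :
    ∫ y, φ y = ∫ s : ℝ, ∫ v : Fin m → ℝ, φ (Fin.cons s v) := by
  have hmp := (volume_preserving_piFinSuccAbove (fun _ : Fin (m + 1) => ℝ) 0).symm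
  have h1 := int_cons_aux hφ
  rw [← hmp.integral_comp (MeasurableEquiv.measurableEmbedding _) φ]
  simp only [Pool.Agent.Lib.MP_66505f_gt.piFinSuccAbove_symm_eq]
  exact integral_prod _ h1

lemma int_cons_int {φ : (Fin (m + 1) → ℝ) → ℝ} (hφ : Integrable φ) :
    Integrable (fun s : ℝ => ∫ v : Fin m → ℝ, φ (Fin.cons s v)) :=
  (int_cons_aux hφ).integral_prod_left

/-- bounded weights supported in the cube -/
structure Cw (Φ : (Fin N → ℝ) → ℝ) : Prop where
  meas : Measurable Φ
  nonneg : ∀ x, 0 ≤ Φ x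
  bdd : ∃ C, ∀ x, Φ x ≤ C
  supp : ∀ x, x ∉ cube N → Φ x = 0

lemma Cw.int {Φ : (Fin N → ℝ) → ℝ} (h : Cw Φ) (A : (Fin m → ℝ) →ₗ[ℝ] (Fin N → ℝ))
    (hA : Function.Injective A) (x0 : Fin N → ℝ) : Integrable (fun v => Φ (x0 + A v)) := by
  obtain ⟨C, hC⟩ := h.bdd
  have e : (fun v => Φ (x0 + A v)) = fun v => Set.indicator (cube N) Φ (x0 + A v) := by
    funext v
    by_cases hv : x0 + A v ∈ cube N
    · rw [Set.indicator_of_mem hv]
    · rw [Set.indicator_of_notMem hv, h.supp _ hv]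
  rw [e]
  exact slice_int A hA x0 h.meas (C := C) fun x _ => by
    rw [abs_of_nonneg (h.nonneg x)]; exact hC x

lemma Cw.int0 {Φ : (Fin N → ℝ) → ℝ} (h : Cw Φ) (A : (Fin m → ℝ) →ₗ[ℝ] (Fin N → ℝ))
    (hA : Function.Injective A) : Integrable (fun v => Φ (A v)) := by
  have := h.int A hA 0
  simpa using this

lemma Cw.mul {Φ : (Fin N → ℝ) → ℝ} (h : Cw Φ) {G : (Fin N → ℝ) → ℝ} (hG : Measurable G)
    (hG0 : ∀ x, 0 ≤ G x) {C : ℝ} (hC : ∀ x ∈ cube N, G x ≤ C) : Cw (fun x => G x * Φ x) := by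
  obtain ⟨C', hC'⟩ := h.bdd
  have hC'0 : 0 ≤ C' := (h.nonneg 0).trans (hC' 0)
  refine ⟨hG.mul h.meas, fun x => mul_nonneg (hG0 x) (h.nonneg x), ⟨max C 0 * C', fun x => ?_⟩,
    fun x hx => by rw [h.supp x hx, mul_zero]⟩
  by_cases hx : x ∈ cube N
  · exact mul_le_mul ((hC x hx).trans (le_max_left _ _)) (hC' x) (h.nonneg x) (le_max_right _ _)
  · rw [h.supp x hx, mul_zero]
    positivity

lemma W_Cw (θ : Fin N → ℝ) {t : ℝ} (ht : 0 ≤ t) : Cw (W θ t) := by
  refine ⟨W_meas θ t, W_nonneg θ t, ⟨Real.exp (∑ j, |θ j|), fun x => ?_⟩, fun x hx => ?_⟩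
  · unfold W Set.indicator
    split_ifs with h
    · apply Real.exp_le_exp.mpr
      have h1 := (abs_le.mp (dot_abs_cube θ h)).2
      have h2 : 0 ≤ dot x x := Finset.sum_nonneg fun i _ => mul_self_nonneg _
      have h3 : 0 ≤ t / 2 * dot x x := by positivity
      linarith
    · positivity
  · unfold W
    rw [Set.indicator_of_notMem hx]

lemma expW_Cw (θ c : Fin N → ℝ) {t : ℝ} (ht : 0 ≤ t) (r u : ℝ) :
    Cw (fun x => Real.exp (r * (dot c x - u)) * W θ t x) := by
  have hc := dot_continuous c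
  have hm : Measurable (fun x => Real.exp (r * (dot c x - u))) := by
    have : Continuous (fun x => Real.exp (r * (dot c x - u))) := by fun_prop
    exact this.measurable
  refine (W_Cw θ ht).mul hm (fun x => (Real.exp_pos _).le)
    (C := Real.exp (|r| * ((∑ j, |c j|) + |u|))) fun x hx => ?_
  apply Real.exp_le_exp.mpr
  refine (le_abs_self _).trans ?_
  rw [abs_mul]
  gcongr
  refine (abs_sub _ _).trans ?_
  gcongr
  exact dot_abs_cube c hx

lemma expW_logC (θ c : Fin N → ℝ) {t : ℝ} (ht : 0 ≤ t) (r u : ℝ) :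
    LogC (fun x => Real.exp (r * (dot c x - u)) * W θ t x) := by
  have e : (fun x => Real.exp (r * (dot c x - u)) * W θ t x) =
      fun x => Real.exp (-(r * u)) * W (θ + r • c) t x := by
    funext x
    rw [← W_shift, ← mul_assoc, ← Real.exp_add]
    congr 2
    ring
  rw [e]
  intro x y l h0 h1
  have := W_logC (θ + r • c) ht x y l h0 h1
  have h2 := W_nonneg (θ + r • c) t x
  have h3 := W_nonneg (θ + r • c) t y
  have hE := Real.exp_pos (-(r * u))
  show (Real.exp (-(r * u)) * W (θ + r • c) t x) ^ (1 - l) *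
    (Real.exp (-(r * u)) * W (θ + r • c) t y) ^ l ≤
    Real.exp (-(r * u)) * W (θ + r • c) t ((1 - l) • x + l • y)
  rw [Real.mul_rpow hE.le h2, Real.mul_rpow hE.le h3]
  calc Real.exp (-(r * u)) ^ (1 - l) * W (θ + r • c) t x ^ (1 - l) *
        (Real.exp (-(r * u)) ^ l * W (θ + r • c) t y ^ l)
      = (Real.exp (-(r * u)) ^ (1 - l) * Real.exp (-(r * u)) ^ l) *
        (W (θ + r • c) t x ^ (1 - l) * W (θ + r • c) t y ^ l) := by ring
    _ = Real.exp (-(r * u)) * (W (θ + r • c) t x ^ (1 - l) * W (θ + r • c) t y ^ l) := by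
        rw [← Real.rpow_add hE]
        norm_num
    _ ≤ _ := by gcongr

/-- slice function -/
noncomputable def sl (A : (Fin m → ℝ) →ₗ[ℝ] (Fin N → ℝ)) (a : Fin N → ℝ)
    (Φ : (Fin N → ℝ) → ℝ) (s : ℝ) : ℝ := ∫ v, Φ (s • a + A v)

section slice

variable {A : (Fin m → ℝ) →ₗ[ℝ] (Fin N → ℝ)} {a : Fin N → ℝ} {Φ : (Fin N → ℝ) → ℝ}

lemma sl_zero : sl A a Φ 0 = ∫ v, Φ (A v) := by
  unfold sl
  simp

lemma sl_nonneg (h : Cw Φ) (s : ℝ) : 0 ≤ sl A a Φ s := integral_nonneg fun _ => h.nonneg _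

/-- Prekopa-Leindler for three slices -/
lemma sl_pl (hA : Function.Injective A) {Φ1 Φ2 Φ3 : (Fin N → ℝ) → ℝ} (h1 : Cw Φ1) (h2 : Cw Φ2)
    (h3 : Cw Φ3) {l : ℝ} (hl0 : 0 < l) (hl1 : l < 1)
    (H : ∀ x y, Φ1 x ^ (1 - l) * Φ2 y ^ l ≤ Φ3 ((1 - l) • x + l • y)) (s r : ℝ) :
    sl A a Φ1 s ^ (1 - l) * sl A a Φ2 r ^ l ≤ sl A a Φ3 ((1 - l) * s + l * r) := by
  have hAc := lin_cont A
  have hm : ∀ (Ψ : (Fin N → ℝ) → ℝ), Cw Ψ → ∀ q : ℝ, Measurable (fun v => Ψ (q • a + A v)) := by
    intro Ψ hΨ q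
    exact hΨ.meas.comp (measurable_const.add hAc.measurable)
  refine pl_real hl0 hl1 (h1.int A hA _) (h2.int A hA _) (h3.int A hA _) (hm _ h1 _) (hm _ h2 _)
    (hm _ h3 _) (fun _ => h1.nonneg _) (fun _ => h2.nonneg _) (fun _ => h3.nonneg _) ?_
  intro v w
  have := H (s • a + A v) (r • a + A w)
  refine this.trans (le_of_eq ?_)
  congr 1
  rw [map_add, map_smul, map_smul]
  module

lemma sl_logC (hA : Function.Injective A) (h : Cw Φ) (hL : LogC Φ) : LogC (sl A a Φ) := by
  intro s r l h0 h1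
  exact sl_pl hA h h h h0 h1 (fun x y => hL x y l h0 h1) s r

lemma sl_meas (h : Cw Φ) : Measurable (sl A a Φ) := by
  have hAc := lin_cont A
  have hm : Measurable (fun p : ℝ × (Fin m → ℝ) => Φ (p.1 • a + A p.2)) := by
    apply h.meas.comp
    have : Continuous (fun p : ℝ × (Fin m → ℝ) => p.1 • a + A p.2) := by fun_prop
    exact this.measurable
  exact (hm.stronglyMeasurable.integral_prod_right').measurable

lemma sl_int (hA : Function.Injective (ext a A)) (h : Cw Φ) : Integrable (sl A a Φ) := by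
  have := int_cons_int (h.int0 (ext a A) hA)
  simp only [ext_cons] at this
  exact this

lemma sl_total (hA : Function.Injective (ext a A)) (h : Cw Φ) :
    ∫ s, sl A a Φ s = ∫ y, Φ (ext a A y) := by
  rw [int_cons (h.int0 (ext a A) hA)]
  simp only [ext_cons]
  rfl

lemma dot_slice (ha : dot a a = 1) (haA : ∀ v, dot a (A v) = 0) (s : ℝ) (v : Fin m → ℝ) :
    dot a (s • a + A v) = s := by
  rw [dot_add, dot_smul, ha, haA]
  ring

lemma sl_bdd (hA : Function.Injective A) (ha : dot a a = 1) (haA : ∀ v, dot a (A v) = 0)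
    (h : Cw Φ) : ∃ C, ∀ s, sl A a Φ s ≤ C := by
  obtain ⟨C, hC⟩ := h.bdd
  have hC0 : 0 ≤ C := (h.nonneg 0).trans (hC 0)
  set R := 1 + (∑ j, |a j|) * ‖a‖ with hR
  have h1 : IsClosedEmbedding A := LinearMap.isClosedEmbedding_of_injective
    (LinearMap.ker_eq_bot.mpr hA)
  have hK : IsCompact (A ⁻¹' Metric.closedBall 0 R) :=
    h1.isCompact_preimage (isCompact_closedBall _ _)
  refine ⟨∫ v, Set.indicator (A ⁻¹' Metric.closedBall 0 R) (fun _ => C) v, fun s => ?_⟩
  apply integral_mono_of_nonneg (ae_of_all _ fun v => h.nonneg _)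
  · rw [integrable_indicator_iff hK.measurableSet]
    exact integrableOn_const hK.measure_lt_top.ne
  · refine ae_of_all _ fun v => ?_
    show Φ (s • a + A v) ≤ _
    by_cases hx : s • a + A v ∈ cube N
    · have hs : |s| ≤ ∑ j, |a j| := by
        have := dot_abs_cube a hx
        rwa [dot_slice ha haA] at this
      have hxn : ‖s • a + A v‖ ≤ 1 := by
        rw [pi_norm_le_iff_of_nonneg zero_le_one]
        exact fun j => hx j
      have hv : v ∈ A ⁻¹' Metric.closedBall 0 R := by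
        rw [Set.mem_preimage, mem_closedBall_zero_iff]
        calc ‖A v‖ = ‖(s • a + A v) - s • a‖ := by congr 1; abel
          _ ≤ ‖s • a + A v‖ + ‖s • a‖ := norm_sub_le _ _
          _ ≤ 1 + (∑ j, |a j|) * ‖a‖ := by
              rw [norm_smul, Real.norm_eq_abs]
              gcongr
      rw [Set.indicator_of_mem hv]
      exact hC _
    · rw [h.supp _ hx]
      exact Set.indicator_nonneg (fun _ _ => hC0) v

lemma sl_shift (ha : dot a a = 1) (haA : ∀ v, dot a (A v) = 0) (θ : Fin N → ℝ) (t r s : ℝ) :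
    sl A a (W (θ + r • a) t) s = Real.exp (r * s) * sl A a (W θ t) s := by
  unfold sl
  rw [← integral_const_mul]
  apply integral_congr_ae (ae_of_all _ fun v => ?_)
  show W (θ + r • a) t (s • a + A v) = Real.exp (r * s) * W θ t (s • a + A v)
  rw [← W_shift, dot_slice ha haA]

lemma sl_pos (ha : dot a a = 1) (hA : Function.Injective A) (θ : Fin N → ℝ) {t : ℝ}
    (ht : 0 ≤ t) {s : ℝ} (hs : |s| < 1) : 0 < sl A a (W θ t) s := by
  unfold sl
  rw [integral_pos_iff_support_of_nonneg (fun v => W_nonneg θ t _)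
    ((W_Cw θ ht).int A hA _)]
  have hAc := lin_cont A
  have haj : ∀ j, |a j| ≤ 1 := by
    intro j
    have h1 : a j * a j ≤ dot a a :=
      Finset.single_le_sum (f := fun j => a j * a j) (fun i _ => mul_self_nonneg _)
        (Finset.mem_univ j)
    rw [ha] at h1
    rw [abs_le_one_iff_mul_self_le_one]
    exact h1
  have hU : IsOpen {v : Fin m → ℝ | ∀ j, |(s • a + A v) j| < 1} := by
    have : {v : Fin m → ℝ | ∀ j, |(s • a + A v) j| < 1} =
        ⋂ j, {v : Fin m → ℝ | |(s • a + A v) j| < 1} := by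
      ext v; simp
    rw [this]
    apply isOpen_iInter_of_finite
    intro j
    have hc : Continuous (fun v : Fin m → ℝ => |(s • a + A v) j|) := by
      have : Continuous (fun v : Fin m → ℝ => s • a + A v) := by fun_prop
      exact (continuous_apply j |>.comp this).abs
    exact isOpen_lt hc continuous_const
  have h0 : (0 : Fin m → ℝ) ∈ {v : Fin m → ℝ | ∀ j, |(s • a + A v) j| < 1} := by
    intro j
    simp only [map_zero, add_zero, Pi.smul_apply, smul_eq_mul, abs_mul]
    have := haj j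
    have := abs_nonneg s
    nlinarith
  refine lt_of_lt_of_le (hU.measure_pos volume ⟨0, h0⟩) (measure_mono ?_)
  intro v hv
  have hv' : s • a + A v ∈ cube N := fun j => (hv j).le
  simp only [Function.mem_support, W, Set.indicator_of_mem hv']
  exact (Real.exp_pos _).ne'

end slice

/-- a supporting line of a log-concave function on the line -/
lemma support_line {F : ℝ → ℝ} (hF : LogC F) (hF0 : ∀ s, 0 ≤ F s) (h0 : 0 < F 0) {s0 : ℝ}
    (hs0 : 0 < s0) (h1 : 0 < F s0) (h2 : 0 < F (-s0)) :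
    ∃ r : ℝ, ∀ s, Real.exp (r * s) * F s ≤ F 0 := by
  have key : ∀ y s : ℝ, 0 < y → 0 < s → 0 < F (-y) → 0 < F s →
      (Real.log (F (-y)) - Real.log (F 0)) / y ≤ (Real.log (F 0) - Real.log (F s)) / s := by
    intro y s hy hs hFy hFs
    have hsy : 0 < s + y := by linarith
    have hl0 : 0 < y / (s + y) := by positivity
    have hl1 : y / (s + y) < 1 := by rw [div_lt_one hsy]; linarith
    have h3 := hF (-y) s (y / (s + y)) hl0 hl1
    have e1 : (1 - y / (s + y)) • (-y) + (y / (s + y)) • s = 0 := by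
      simp only [smul_eq_mul]
      field_simp
      ring
    rw [e1] at h3
    have h4 := Real.log_le_log (by positivity) h3
    rw [Real.log_mul (by positivity) (by positivity), Real.log_rpow hFy, Real.log_rpow hFs] at h4
    have e2 : 1 - y / (s + y) = s / (s + y) := by field_simp; ring
    rw [e2] at h4
    have h5 : s * Real.log (F (-y)) + y * Real.log (F s) ≤ (s + y) * Real.log (F 0) := by
      have := mul_le_mul_of_nonneg_left h4 hsy.le
      calc s * Real.log (F (-y)) + y * Real.log (F s) =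
          (s + y) * (s / (s + y) * Real.log (F (-y)) + y / (s + y) * Real.log (F s)) := by
            field_simp
        _ ≤ _ := this
    rw [div_le_div_iff₀ hy hs]
    nlinarith
  set S : Set ℝ := {r | ∃ y, 0 < y ∧ 0 < F (-y) ∧ r = (Real.log (F (-y)) - Real.log (F 0)) / y}
    with hS
  have hne : S.Nonempty := ⟨_, s0, hs0, h2, rfl⟩
  have hbd : BddAbove S := by
    refine ⟨(Real.log (F 0) - Real.log (F s0)) / s0, ?_⟩
    rintro r ⟨y, hy, hFy, rfl⟩
    exact key y s0 hy hs0 hFy h1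
  refine ⟨sSup S, fun s => ?_⟩
  rcases (hF0 s).eq_or_lt with hz | hz
  · rw [← hz, mul_zero]
    exact h0.le
  rcases lt_trichotomy s 0 with hs | hs | hs
  · have h6 : (Real.log (F s) - Real.log (F 0)) / (-s) ≤ sSup S := by
      apply le_csSup hbd
      exact ⟨-s, by linarith, by rwa [neg_neg], by rw [neg_neg]⟩
    have h7 : Real.log (F s) - Real.log (F 0) ≤ sSup S * (-s) := by
      rwa [div_le_iff₀ (by linarith)] at h6
    calc Real.exp (sSup S * s) * F s = Real.exp (sSup S * s + Real.log (F s)) := by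
          rw [Real.exp_add, Real.exp_log hz]
      _ ≤ Real.exp (Real.log (F 0)) := Real.exp_le_exp.mpr (by linarith)
      _ = F 0 := Real.exp_log h0
  · rw [hs, mul_zero, Real.exp_zero, one_mul]
  · have h6 : sSup S ≤ (Real.log (F 0) - Real.log (F s)) / s := by
      apply csSup_le hne
      rintro r ⟨y, hy, hFy, rfl⟩
      exact key y s hy hs hFy hz
    have h7 : sSup S * s ≤ Real.log (F 0) - Real.log (F s) := by
      rwa [le_div_iff₀ hs] at h6
    calc Real.exp (sSup S * s) * F s = Real.exp (sSup S * s + Real.log (F s)) := by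
          rw [Real.exp_add, Real.exp_log hz]
      _ ≤ Real.exp (Real.log (F 0)) := Real.exp_le_exp.mpr (by linarith)
      _ = F 0 := Real.exp_log h0

end Pool.Agent.Lib.MP_6d896a_gt.Few
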