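import Mathlib
import Pool.Agent.Lib.MP_6d896a_gt.Few.Sec2
import Pool.Agent.Lib.MP_6d896a_gt.Channel

/-!
Exponential moments of linear functionals on sections: upper bound, by induction on the
codimension.
-/

set_option autoImplicit false

namespace Pool.Agent.Lib.MP_6d896a_gt.Few

open MeasureTheory Real Filter Topology
open scoped ENNReal

variable {N m : ℕ}

lemma logC_half {g : ℝ → ℝ} (hg0 : ∀ s, 0 ≤ g s) (hgL : LogC g) (x y : ℝ) :
    g x * g y ≤ g ((1 / 2) * x + (1 / 2) * y) ^ 2 := by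
  have h := hgL x y (1 / 2) (by norm_num) (by norm_num)
  have e : (1 : ℝ) - 1 / 2 = 1 / 2 := by norm_num
  rw [e, ← Real.sqrt_eq_rpow, ← Real.sqrt_eq_rpow] at h
  simp only [smul_eq_mul] at h
  have h2 := pow_le_pow_left₀ (by positivity) h 2
  rw [mul_pow, Real.sq_sqrt (hg0 x), Real.sq_sqrt (hg0 y)] at h2
  exact h2

lemma half_int {g : ℝ → ℝ} (hg : Integrable g) (hgm : Measurable g) (hg0 : ∀ s, 0 ≤ g s)
    (hgL : LogC g) {Cg : ℝ} (hgb : ∀ s, g s ≤ Cg) (y : ℝ) :
    g y * ∫ s, g s ≤ 2 * ∫ s, g s ^ 2 := by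
  have hg2 : Integrable (fun s => g s ^ 2) := by
    refine (hg.const_mul Cg).mono' (hgm.pow_const 2).aestronglyMeasurable (ae_of_all _ fun s => ?_)
    rw [Real.norm_eq_abs, abs_of_nonneg (sq_nonneg _), sq]
    exact mul_le_mul_of_nonneg_right (hgb s) (hg0 s)
  have hsub : Integrable (fun x => g ((1 / 2) * x + (1 / 2) * y) ^ 2) := by
    have h1 : Integrable (fun z => g (z + (1 / 2) * y) ^ 2) := hg2.comp_add_right _
    exact h1.comp_mul_left' (by norm_num)
  have e1 : ∫ x, g ((1 / 2) * x + (1 / 2) * y) ^ 2 = 2 * ∫ s, g s ^ 2 := by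
    rw [Measure.integral_comp_mul_left (fun z => g (z + (1 / 2) * y) ^ 2) (1 / 2),
      integral_add_right_eq_self (fun z => g z ^ 2)]
    norm_num
  rw [← e1, ← integral_const_mul]
  apply integral_mono (hg.const_mul _) hsub
  intro x
  show g y * g x ≤ _
  rw [mul_comm]
  exact logC_half hg0 hgL x y

lemma lemL {f g : ℝ → ℝ} (hf : Integrable f) (hg : Integrable g) (hgm : Measurable g)
    (hf0 : ∀ s, 0 ≤ f s) (hg0 : ∀ s, 0 ≤ g s) (hgL : LogC g) {Cg : ℝ} (hgb : ∀ s, g s ≤ Cg)
    (hfmax : ∀ s, f s ≤ f 0) (hZ : 0 < ∫ s, f s) (h1 : ∫ s, f s ≤ 2 * ∫ s, g s)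
    (h2 : ∀ B, MeasurableSet B → (∫ s in B, g s) ^ 2 ≤ 2 * (∫ s, f s) * ∫ s in B, f s) :
    g 0 ≤ 256 * f 0 := by
  set I := ∫ s, g s with hI
  set J := ∫ s, g s ^ 2 with hJ
  set Z := ∫ s, f s with hZd
  have hIpos : 0 < I := by linarith
  have hg2 : Integrable (fun s => g s ^ 2) := by
    refine (hg.const_mul Cg).mono' (hgm.pow_const 2).aestronglyMeasurable (ae_of_all _ fun s => ?_)
    rw [Real.norm_eq_abs, abs_of_nonneg (sq_nonneg _), sq]
    exact mul_le_mul_of_nonneg_right (hgb s) (hg0 s)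
  set G := 2 * J / I with hG
  have hGle : ∀ y, g y ≤ G := by
    intro y
    rw [hG, le_div_iff₀ hIpos]
    exact half_int hg hgm hg0 hgL hgb y
  have hG0 : 0 < G := by
    by_contra hcon
    push Not at hcon
    have : I ≤ 0 := by
      rw [hI]
      apply integral_nonpos
      intro s
      exact (hGle s).trans hcon
    linarith
  have hJG : J = G * I / 2 := by
    rw [hG]; field_simp
  set B : Set ℝ := {s | G / 4 ≤ g s} with hB
  have hBm : MeasurableSet B := measurableSet_le measurable_const hgm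
  -- mass of the level set
  have hmass : I / 4 ≤ ∫ s in B, g s := by
    have h3 : J ≤ G * (∫ s in B, g s) + G / 4 * I := by
      have e1 : J = (∫ s in B, g s ^ 2) + ∫ s in Bᶜ, g s ^ 2 := (integral_add_compl hBm hg2).symm
      have h4 : ∫ s in B, g s ^ 2 ≤ G * ∫ s in B, g s := by
        rw [← integral_const_mul]
        apply setIntegral_mono hg2.integrableOn (hg.const_mul _).integrableOn
        intro s
        show g s ^ 2 ≤ G * g s
        rw [sq]
        exact mul_le_mul_of_nonneg_right (hGle s) (hg0 s)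
      have h5 : ∫ s in Bᶜ, g s ^ 2 ≤ G / 4 * ∫ s in Bᶜ, g s := by
        rw [← integral_const_mul]
        apply setIntegral_mono_on hg2.integrableOn (hg.const_mul _).integrableOn hBm.compl
        intro s hs
        have hs' : g s < G / 4 := not_le.mp hs
        rw [sq]
        exact mul_le_mul_of_nonneg_right hs'.le (hg0 s)
      have h6 : ∫ s in Bᶜ, g s ≤ I := setIntegral_le_integral hg (ae_of_all _ hg0)
      have h7 : G / 4 * ∫ s in Bᶜ, g s ≤ G / 4 * I := by gcongr
      linarith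
    rw [hJG] at h3
    have h8 : G * (I / 4) ≤ G * ∫ s in B, g s := by linarith
    exact le_of_mul_le_mul_left h8 hG0
  -- volume of the level set
  have hvol : volume.real B ≤ 4 * I / G := by
    have h3 : G / 4 * volume.real B ≤ I := by
      have h4 := mul_meas_ge_le_integral_of_nonneg (μ := volume) (ae_of_all _ hg0) hg (G / 4)
      exact h4
    rw [le_div_iff₀ hG0]
    linarith
  have hBfin : volume B ≠ ∞ := by
    have h4 := hg.measure_ge_lt_top (μ := volume) (show 0 < G / 4 by positivity)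
    exact h4.ne
  have hfB : ∫ s in B, f s ≤ f 0 * (4 * I / G) := by
    calc ∫ s in B, f s ≤ ∫ s in B, f 0 := by
          apply setIntegral_mono hf.integrableOn (integrableOn_const hBfin)
          exact hfmax
      _ = f 0 * volume.real B := by
          rw [setIntegral_const, smul_eq_mul, mul_comm]
      _ ≤ _ := mul_le_mul_of_nonneg_left hvol (hf0 0)
  have h9 := h2 B hBm
  have h10 : (I / 4) ^ 2 ≤ 2 * Z * (f 0 * (4 * I / G)) := by
    calc (I / 4) ^ 2 ≤ (∫ s in B, g s) ^ 2 := pow_le_pow_left₀ (by positivity) hmass 2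
      _ ≤ 2 * Z * ∫ s in B, f s := h9
      _ ≤ _ := mul_le_mul_of_nonneg_left hfB (by positivity)
  have h11 : I ^ 2 * G ≤ 128 * Z * f 0 * I := by
    have h12 : (I / 4) ^ 2 * G ≤ 2 * Z * (f 0 * (4 * I / G)) * G :=
      mul_le_mul_of_nonneg_right h10 hG0.le
    have e3 : 2 * Z * (f 0 * (4 * I / G)) * G = 8 * Z * f 0 * I := by
      field_simp
      ring
    rw [e3] at h12
    nlinarith
  have h13 : I * G ≤ 128 * Z * f 0 := by
    have : I * (I * G) ≤ I * (128 * Z * f 0) := by nlinarith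
    exact le_of_mul_le_mul_left this hIpos
  have h14 : I * G ≤ I * (256 * f 0) := by
    have := hf0 0
    nlinarith
  exact (hGle 0).trans (le_of_mul_le_mul_left h14 hIpos)

/-- weighted Cauchy-Schwarz -/
lemma cs_w {α : Type*} [MeasurableSpace α] {μ : Measure α} {P g1 g2 : α → ℝ}
    (hP : ∀ x, 0 ≤ P x) (h1 : Integrable (fun x => g1 x ^ 2 * P x) μ)
    (h2 : Integrable (fun x => g2 x ^ 2 * P x) μ) (h3 : Integrable (fun x => g1 x * g2 x * P x) μ) :
    (∫ x, g1 x * g2 x * P x ∂μ) ^ 2 ≤ (∫ x, g1 x ^ 2 * P x ∂μ) * ∫ x, g2 x ^ 2 * P x ∂μ := by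
  have e1 : ∀ x, (g1 x * Real.sqrt (P x)) ^ 2 = g1 x ^ 2 * P x := fun x => by
    rw [mul_pow, Real.sq_sqrt (hP x)]
  have e2 : ∀ x, (g2 x * Real.sqrt (P x)) ^ 2 = g2 x ^ 2 * P x := fun x => by
    rw [mul_pow, Real.sq_sqrt (hP x)]
  have e3 : ∀ x, (g1 x * Real.sqrt (P x)) * (g2 x * Real.sqrt (P x)) = g1 x * g2 x * P x :=
    fun x => by
    calc (g1 x * Real.sqrt (P x)) * (g2 x * Real.sqrt (P x)) =
        g1 x * g2 x * (Real.sqrt (P x) * Real.sqrt (P x)) := by ring
      _ = _ := by rw [Real.mul_self_sqrt (hP x)]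
  have := cs_int (μ := μ) (f := fun x => g1 x * Real.sqrt (P x))
    (g := fun x => g2 x * Real.sqrt (P x)) (by simpa only [e1] using h1)
    (by simpa only [e2] using h2) (by simpa only [e3] using h3)
  simpa only [e1, e2, e3] using this

section slice

variable {A : (Fin m → ℝ) →ₗ[ℝ] (Fin N → ℝ)} {a : Fin N → ℝ} {Φ : (Fin N → ℝ) → ℝ}

lemma ind_Cw (h : Cw Φ) {B : Set ℝ} (hB : MeasurableSet B) :
    Cw (fun x => Set.indicator B (fun _ => (1 : ℝ)) (dot a x) * Φ x) := by
  apply h.mul (C := 1)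
  · exact (measurable_const.indicator hB).comp (dot_continuous a).measurable
  · intro x
    exact Set.indicator_nonneg (fun _ _ => zero_le_one) _
  · intro x _
    exact Set.indicator_le_self' (s := B) (f := fun _ : ℝ => (1 : ℝ)) (fun _ _ => zero_le_one) _

lemma setInt_sl (ha : dot a a = 1) (haA : ∀ v, dot a (A v) = 0)
    (hA : Function.Injective (ext a A)) (h : Cw Φ) {B : Set ℝ} (hB : MeasurableSet B) :
    ∫ s in B, sl A a Φ s =
      ∫ y, Set.indicator B (fun _ => (1 : ℝ)) (dot a (ext a A y)) * Φ (ext a A y) := by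
  rw [← sl_total hA (ind_Cw h hB), ← integral_indicator hB]
  apply integral_congr_ae (ae_of_all _ fun s => ?_)
  show B.indicator (fun s => sl A a Φ s) s =
    ∫ v, Set.indicator B (fun _ => (1 : ℝ)) (dot a (s • a + A v)) * Φ (s • a + A v)
  simp only [dot_slice ha haA]
  rw [integral_const_mul]
  by_cases hs : s ∈ B
  · rw [Set.indicator_of_mem hs, Set.indicator_of_mem hs, one_mul]
    rfl
  · rw [Set.indicator_of_notMem hs, Set.indicator_of_notMem hs, zero_mul]

lemma slice_cs (ha : dot a a = 1) (haA : ∀ v, dot a (A v) = 0)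
    (hA : Function.Injective (ext a A)) (θ c : Fin N → ℝ) {t : ℝ} (ht : 0 ≤ t) (r u : ℝ)
    {B : Set ℝ} (hB : MeasurableSet B) :
    (∫ s in B, sl A a (fun x => Real.exp (r * (dot c x - u)) * W θ t x) s) ^ 2 ≤
      (∫ s in B, sl A a (W θ t) s) *
        ∫ y, Real.exp (2 * r * (dot c (ext a A y) - u)) * W θ t (ext a A y) := by
  rw [setInt_sl ha haA hA (expW_Cw θ c ht r u) hB, setInt_sl ha haA hA (W_Cw θ ht) hB]
  have hsq : ∀ z : ℝ, Set.indicator B (fun _ => (1 : ℝ)) z ^ 2 =
      Set.indicator B (fun _ => (1 : ℝ)) z := by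
    intro z
    by_cases hz : z ∈ B
    · rw [Set.indicator_of_mem hz]; norm_num
    · rw [Set.indicator_of_notMem hz]; norm_num
  have hex : ∀ z : ℝ, Real.exp (r * z) ^ 2 = Real.exp (2 * r * z) := by
    intro z
    rw [← Real.exp_nat_mul]
    congr 1
    push_cast
    ring
  have key := cs_w (μ := (volume : Measure (Fin (m + 1) → ℝ)))
    (P := fun y => W θ t (ext a A y))
    (g1 := fun y => Set.indicator B (fun _ => (1 : ℝ)) (dot a (ext a A y)))
    (g2 := fun y => Real.exp (r * (dot c (ext a A y) - u))) (fun y => W_nonneg θ t _) ?_ ?_ ?_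
  · simp only [hsq, hex] at key
    refine le_trans (le_of_eq ?_) key
    congr 1
    apply integral_congr_ae (ae_of_all _ fun y => ?_)
    show _ * (_ * _) = _ * _ * _
    ring
  · simp only [hsq]
    exact (ind_Cw (a := a) (W_Cw θ ht) hB).int0 (ext a A) hA
  · simp only [hex]
    exact (expW_Cw θ c ht (2 * r) u).int0 (ext a A) hA
  · have := (ind_Cw (a := a) (expW_Cw θ c ht r u) hB).int0 (ext a A) hA
    refine this.congr (ae_of_all _ fun y => ?_)
    show _ * (_ * _) = _ * _ * _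
    ring

end slice

/-- uniform exponential moment bound for all tilted sections of dimension `m` -/
def Up (N m : ℕ) (δ : ℝ) : Prop :=
  ∀ (A : (Fin m → ℝ) →ₗ[ℝ] (Fin N → ℝ)), Function.Injective A →
    ∀ (θ c : Fin N → ℝ) (t : ℝ), 0 ≤ t → dot c c ≤ 1 → ∃ u : ℝ,
      (∫ v, Real.exp (δ * (dot c (A v) - u)) * W θ t (A v)) ≤ 2 * ∫ v, W θ t (A v) ∧
      (∫ v, Real.exp (-δ * (dot c (A v) - u)) * W θ t (A v)) ≤ 2 * ∫ v, W θ t (A v)

lemma W_int_pos {A : (Fin m → ℝ) →ₗ[ℝ] (Fin N → ℝ)} (hA : Function.Injective A)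
    (θ : Fin N → ℝ) {t : ℝ} (ht : 0 ≤ t) : 0 < ∫ v, W θ t (A v) := by
  rw [integral_pos_iff_support_of_nonneg (fun v => W_nonneg θ t _)
    ((W_Cw θ ht).int0 A hA)]
  have hAc := lin_cont A
  have hU : IsOpen {v : Fin m → ℝ | ∀ j, |(A v) j| < 1} := by
    have : {v : Fin m → ℝ | ∀ j, |(A v) j| < 1} = ⋂ j, {v : Fin m → ℝ | |(A v) j| < 1} := by
      ext v; simp
    rw [this]
    apply isOpen_iInter_of_finite
    intro j
    have hc : Continuous (fun v : Fin m → ℝ => |(A v) j|) :=
      (continuous_apply j |>.comp hAc).abs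
    exact isOpen_lt hc continuous_const
  have h0 : (0 : Fin m → ℝ) ∈ {v : Fin m → ℝ | ∀ j, |(A v) j| < 1} := by
    intro j
    simp
  refine lt_of_lt_of_le (hU.measure_pos volume ⟨0, h0⟩) (measure_mono ?_)
  intro v hv
  have hv' : A v ∈ cube N := fun j => (hv j).le
  simp only [Function.mem_support, W, Set.indicator_of_mem hv']
  exact (Real.exp_pos _).ne'

/-- half of the moment bound: lower bound of the tilted mass -/
lemma low_mass {A : (Fin m → ℝ) →ₗ[ℝ] (Fin N → ℝ)} (hA : Function.Injective A)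
    (θ c : Fin N → ℝ) {t : ℝ} (ht : 0 ≤ t) (r u : ℝ)
    (h : (∫ v, Real.exp (-(2 * r) * (dot c (A v) - u)) * W θ t (A v)) ≤ 2 * ∫ v, W θ t (A v)) :
    ∫ v, W θ t (A v) ≤ 2 * ∫ v, Real.exp (r * (dot c (A v) - u)) * W θ t (A v) := by
  set Z := ∫ v, W θ t (A v) with hZ
  have hZ0 : 0 < Z := W_int_pos hA θ ht
  set p := ∫ v, Real.exp (r * (dot c (A v) - u)) * W θ t (A v) with hp
  set q := ∫ v, Real.exp (-r * (dot c (A v) - u)) * W θ t (A v) with hq
  have hq0 : 0 ≤ q := integral_nonneg fun v => mul_nonneg (Real.exp_pos _).le (W_nonneg _ _ _)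
  have hp0 : 0 ≤ p := integral_nonneg fun v => mul_nonneg (Real.exp_pos _).le (W_nonneg _ _ _)
  have hex : ∀ (k z : ℝ), Real.exp (k / 2 * z) ^ 2 = Real.exp (k * z) := by
    intro k z
    rw [← Real.exp_nat_mul]
    congr 1
    push_cast
    ring
  have i0 : ∀ k : ℝ, Integrable (fun v => Real.exp (k * (dot c (A v) - u)) * W θ t (A v)) :=
    fun k => (expW_Cw θ c ht k u).int0 A hA
  have hone : ∀ v, Real.exp (r / 2 * (dot c (A v) - u)) * Real.exp (-r / 2 * (dot c (A v) - u)) *
      W θ t (A v) = W θ t (A v) := by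
    intro v
    rw [← Real.exp_add]
    have : r / 2 * (dot c (A v) - u) + -r / 2 * (dot c (A v) - u) = 0 := by ring
    rw [this, Real.exp_zero, one_mul]
  have h1 : Z ^ 2 ≤ p * q := by
    have key := cs_w (μ := (volume : Measure (Fin m → ℝ))) (P := fun v => W θ t (A v))
      (g1 := fun v => Real.exp (r / 2 * (dot c (A v) - u)))
      (g2 := fun v => Real.exp (-r / 2 * (dot c (A v) - u))) (fun v => W_nonneg θ t _)
      (by simp only [hex]; exact i0 r) (by simp only [hex]; exact i0 (-r))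
      (by simp only [hone]; exact (W_Cw θ ht).int0 A hA)
    simp only [hone, hex] at key
    exact key
  have h2 : q ^ 2 ≤ 2 * Z ^ 2 := by
    have key := cs_w (μ := (volume : Measure (Fin m → ℝ))) (P := fun v => W θ t (A v))
      (g1 := fun _ => 1)
      (g2 := fun v => Real.exp (-r * (dot c (A v) - u))) (fun v => W_nonneg θ t _)
      (by simp only [one_pow, one_mul]; exact (W_Cw θ ht).int0 A hA)
      (by
        have : ∀ z : ℝ, Real.exp (-r * z) ^ 2 = Real.exp (-(2 * r) * z) := by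
          intro z
          rw [← Real.exp_nat_mul]
          congr 1
          push_cast
          ring
        simp only [this]; exact i0 _)
      (by simp only [one_mul]; exact i0 (-r))
    have e2 : ∀ z : ℝ, Real.exp (-r * z) ^ 2 = Real.exp (-(2 * r) * z) := by
      intro z
      rw [← Real.exp_nat_mul]
      congr 1
      push_cast
      ring
    simp only [one_pow, one_mul, e2] at key
    calc q ^ 2 ≤ Z * _ := key
      _ ≤ Z * (2 * Z) := mul_le_mul_of_nonneg_left h hZ0.le
      _ = _ := by ring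
  have h3 : q ≤ 2 * Z := by
    by_contra hcon
    push Not at hcon
    nlinarith
  have h4 : Z ^ 2 ≤ p * (2 * Z) := h1.trans (mul_le_mul_of_nonneg_left h3 hp0)
  have h5 : Z * Z ≤ Z * (2 * p) := by nlinarith
  exact le_of_mul_le_mul_left h5 hZ0

lemma exp_eighth (x : ℝ) : Real.exp (x / 8) ≤ 7 / 4 + Real.exp x / 1024 := by
  set z := Real.exp (x / 8) with hz
  have hz0 : 0 < z := Real.exp_pos _
  have e : Real.exp x = z ^ 8 := by
    rw [hz, ← Real.exp_nat_mul]
    congr 1
    push_cast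
    ring
  rw [e]
  have h1 : 0 ≤ (z - 2) ^ 2 * (z ^ 6 + 4 * z ^ 5 + 12 * z ^ 4 + 32 * z ^ 3 + 80 * z ^ 2 +
      192 * z + 448) := by positivity
  nlinarith [h1]

theorem Up_step {δ : ℝ} (hmN : m < N) (h : Up N (m + 1) δ) : Up N m (δ / 16) := by
  intro A hA θ0 c t ht hc
  obtain ⟨a, ha, haA⟩ := exists_unit A hmN
  have hE := ext_inj hA ha haA
  -- centre by a tilt in the direction a
  have hpos : ∀ s : ℝ, |s| < 1 → 0 < sl A a (W θ0 t) s := fun s hs => sl_pos ha hA θ0 ht hs
  obtain ⟨r, hr⟩ := support_line (sl_logC hA (W_Cw θ0 ht) (W_logC θ0 ht))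
    (fun s => sl_nonneg (W_Cw θ0 ht) s) (hpos 0 (by norm_num)) (s0 := 1 / 2) (by norm_num)
    (hpos _ (by rw [abs_of_pos] <;> norm_num))
    (hpos _ (by rw [abs_neg, abs_of_pos] <;> norm_num))
  set θ := θ0 + r • a with hθ
  have hWA : ∀ v, W θ t (A v) = W θ0 t (A v) := by
    intro v
    rw [hθ, ← W_shift, haA, mul_zero, Real.exp_zero, one_mul]
  obtain ⟨u, hu1, hu2⟩ := h (ext a A) hE θ c t ht hc
  have hmax : ∀ s, sl A a (W θ t) s ≤ sl A a (W θ t) 0 := by
    intro s
    rw [hθ, sl_shift ha haA, sl_shift ha haA, mul_zero, Real.exp_zero, one_mul]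
    exact hr s
  have hZ : 0 < ∫ s, sl A a (W θ t) s := by
    rw [sl_total hE (W_Cw θ ht)]
    exact W_int_pos hE θ ht
  -- the main estimate for both signs
  have main : ∀ σ : ℝ, (∫ y, Real.exp (σ * δ * (dot c (ext a A y) - u)) * W θ t (ext a A y)) ≤
      2 * ∫ y, W θ t (ext a A y) →
      (∫ y, Real.exp (-(σ * δ) * (dot c (ext a A y) - u)) * W θ t (ext a A y)) ≤
      2 * ∫ y, W θ t (ext a A y) →
      (∫ v, Real.exp (σ * (δ / 16) * (dot c (A v) - u)) * W θ0 t (A v)) ≤
        2 * ∫ v, W θ0 t (A v) := by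
    intro σ h1 h2
    set ρ := σ * δ / 2 with hρ
    have e2 : 2 * ρ = σ * δ := by rw [hρ]; ring
    have hgC := expW_Cw θ c ht ρ u
    obtain ⟨Cg, hCg⟩ := sl_bdd hA ha haA hgC
    have hL := lemL (f := sl A a (W θ t))
      (g := sl A a (fun x => Real.exp (ρ * (dot c x - u)) * W θ t x))
      (sl_int hE (W_Cw θ ht)) (sl_int hE hgC) (sl_meas hgC)
      (fun s => sl_nonneg (W_Cw θ ht) s) (fun s => sl_nonneg hgC s)
      (sl_logC hA hgC (expW_logC θ c ht ρ u)) hCg hmax hZ
      (by
        rw [sl_total hE (W_Cw θ ht), sl_total hE hgC]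
        apply low_mass hE θ c ht ρ u
        rw [e2]
        exact h2)
      (by
        intro B hB
        refine (slice_cs ha haA hE θ c ht ρ u hB).trans ?_
        rw [e2, sl_total hE (W_Cw θ ht)]
        have hb0 : 0 ≤ ∫ s in B, sl A a (W θ t) s :=
          integral_nonneg fun s => sl_nonneg (W_Cw θ ht) s
        calc _ ≤ (∫ s in B, sl A a (W θ t) s) * (2 * ∫ y, W θ t (ext a A y)) :=
              mul_le_mul_of_nonneg_left h1 hb0
          _ = _ := by ring)
    rw [sl_zero, sl_zero] at hL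
    simp only [hWA] at hL
    have i1 : Integrable (fun v => Real.exp (ρ * (dot c (A v) - u)) * W θ0 t (A v)) :=
      (expW_Cw θ0 c ht ρ u).int0 A hA
    have i2 : Integrable (fun v => W θ0 t (A v)) := (W_Cw θ0 ht).int0 A hA
    calc (∫ v, Real.exp (σ * (δ / 16) * (dot c (A v) - u)) * W θ0 t (A v))
        ≤ ∫ v, (7 / 4 * W θ0 t (A v) +
            1 / 1024 * (Real.exp (ρ * (dot c (A v) - u)) * W θ0 t (A v))) := by
          apply integral_mono ((expW_Cw θ0 c ht (σ * (δ / 16)) u).int0 A hA)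
            ((i2.const_mul _).add (i1.const_mul _))
          intro v
          have h3 := exp_eighth (ρ * (dot c (A v) - u))
          have e3 : σ * (δ / 16) * (dot c (A v) - u) = ρ * (dot c (A v) - u) / 8 := by
            rw [hρ]; ring
          show Real.exp (σ * (δ / 16) * (dot c (A v) - u)) * W θ0 t (A v) ≤
            7 / 4 * W θ0 t (A v) +
            1 / 1024 * (Real.exp (ρ * (dot c (A v) - u)) * W θ0 t (A v))
          rw [e3]
          have h4 := W_nonneg θ0 t (A v)
          nlinarith [mul_le_mul_of_nonneg_right h3 h4]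
      _ = 7 / 4 * (∫ v, W θ0 t (A v)) +
            1 / 1024 * ∫ v, Real.exp (ρ * (dot c (A v) - u)) * W θ0 t (A v) := by
          rw [integral_add (i2.const_mul _) (i1.const_mul _), integral_const_mul,
            integral_const_mul]
      _ ≤ 2 * ∫ v, W θ0 t (A v) := by linarith
  refine ⟨u, ?_, ?_⟩
  · have := main 1 (by rw [one_mul]; exact hu1) (by rw [one_mul]; exact hu2)
    rw [one_mul] at this
    exact this
  · have := main (-1) (by rw [neg_one_mul]; exact hu2) (by rw [neg_one_mul, neg_neg]; exact hu1)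
    rw [neg_one_mul] at this
    exact this

end Pool.Agent.Lib.MP_6d896a_gt.Few
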