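import Mathlib
import Pool.Agent.Lib.MP_6d896a_gt.Few.Sec3

/-!
Central sections of the cube: comparison of volumes of central sections, and a lower bound for the
second moments.
-/

set_option autoImplicit false

namespace Pool.Agent.Lib.MP_6d896a_gt.Few

open MeasureTheory Real Filter Topology
open scoped ENNReal

/-! ### even log-concave functions on the line -/

lemma even_le_zero {f : ℝ → ℝ} (h0 : ∀ s, 0 ≤ f s) (hL : LogC f) (hE : ∀ s, f (-s) = f s)
    (s : ℝ) : f s ≤ f 0 := by
  have h := logC_half h0 hL s (-s)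
  have e : (1 / 2 : ℝ) * s + 1 / 2 * (-s) = 0 := by ring
  rw [e, hE, ← sq] at h
  exact le_of_sq_le_sq h (h0 0)

lemma even_mono {f : ℝ → ℝ} (h0 : ∀ s, 0 ≤ f s) (hL : LogC f) (hE : ∀ s, f (-s) = f s)
    {s t : ℝ} (hst : |t| ≤ |s|) : f s ≤ f t := by
  rcases hst.eq_or_lt with h | h
  · rcases abs_eq_abs.mp h with h | h
    · rw [h]
    · rw [h, hE]
  have hs : s ≠ 0 := by
    intro hs
    rw [hs, abs_zero] at h
    exact absurd h (not_lt.mpr (abs_nonneg t))
  rcases (h0 s).eq_or_lt with hz | hz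
  · rw [← hz]
    exact h0 t
  have hq : |t / s| < 1 := by
    rw [abs_div, div_lt_one (abs_pos.mpr hs)]
    exact h
  have hq' := abs_lt.mp hq
  have h1 := hL s (-s) ((1 - t / s) / 2) (by linarith [hq'.2]) (by linarith [hq'.1])
  rw [hE, ← Real.rpow_add hz] at h1
  have e1 : 1 - (1 - t / s) / 2 + (1 - t / s) / 2 = 1 := by ring
  have e2 : (1 - (1 - t / s) / 2) • s + ((1 - t / s) / 2) • (-s) = t := by
    simp only [smul_eq_mul]
    field_simp
    ring
  rw [e1, e2, Real.rpow_one] at h1
  exact h1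

lemma two_mul_le {f : ℝ → ℝ} (h0 : ∀ s, 0 ≤ f s) (hL : LogC f) (hE : ∀ s, f (-s) = f s)
    (hf : Integrable f) (s : ℝ) : 2 * |s| * f s ≤ ∫ x, f x := by
  have h1 : ∫ x in Set.Icc (-|s|) |s|, f s ≤ ∫ x in Set.Icc (-|s|) |s|, f x := by
    apply setIntegral_mono_on (integrableOn_const (by simp)) hf.integrableOn
      measurableSet_Icc
    intro x hx
    exact even_mono h0 hL hE (abs_le.mpr ⟨hx.1, hx.2⟩)
  have h2 : ∫ x in Set.Icc (-|s|) |s|, f x ≤ ∫ x, f x :=
    setIntegral_le_integral hf (ae_of_all _ h0)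
  rw [setIntegral_const, smul_eq_mul] at h1
  have h3 : volume.real (Set.Icc (-|s|) |s|) = 2 * |s| := by
    rw [Real.volume_real_Icc_of_le (by linarith [abs_nonneg s])]
    ring
  rw [h3] at h1
  exact h1.trans h2

/-- bounded functions with bounded support are integrable -/
lemma int_bdd {f : ℝ → ℝ} (hf : Measurable f) {C K : ℝ} (hC : ∀ s, |f s| ≤ C)
    (hK : ∀ s, K < |s| → f s = 0) : Integrable f := by
  have h1 : IntegrableOn f (Set.Icc (-K) K) :=
    Measure.integrableOn_of_bounded (M := C) (by simp) hf.aestronglyMeasurable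
      (ae_of_all _ fun s => hC s)
  apply h1.integrable_of_forall_notMem_eq_zero
  intro s hs
  apply hK
  by_contra hcon
  apply hs
  rw [not_lt, abs_le] at hcon
  exact hcon

/-- the second moment of an even log-concave function -/
lemma second_moment_le {f : ℝ → ℝ} (h0 : ∀ s, 0 ≤ f s) (hL : LogC f) (hE : ∀ s, f (-s) = f s)
    (hm : Measurable f) {C K : ℝ} (hC : ∀ s, f s ≤ C) (hK : ∀ s, K < |s| → f s = 0) :
    f 0 ^ 2 * ∫ s, s ^ 2 * f s ≤ 8 * (∫ s, f s) ^ 3 := by
  have hC0 : 0 ≤ C := (h0 0).trans (hC 0)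
  have hK' : 0 ≤ |K| := abs_nonneg K
  have hfi : Integrable f := int_bdd hm (C := C) (K := K)
    (fun s => by rw [abs_of_nonneg (h0 s)]; exact hC s) hK
  -- generic integrability
  have gen : ∀ (w : ℝ → ℝ), Measurable w → (∀ s, 0 ≤ w s) → (∀ s, |s| ≤ |K| → w s ≤ w |K|) →
      Integrable (fun s => w s * f s) := by
    intro w hw hw0 hwK
    refine int_bdd (hw.mul hm) (C := w |K| * C) (K := K) (fun s => ?_) (fun s hs => ?_)
    · rw [abs_of_nonneg (mul_nonneg (hw0 s) (h0 s))]
      by_cases hs : K < |s|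
      · rw [hK s hs, mul_zero]
        exact mul_nonneg (hw0 _) hC0
      · exact mul_le_mul (hwK s ((not_lt.mp hs).trans (le_abs_self K))) (hC s) (h0 s) (hw0 _)
    · rw [hK s hs, mul_zero]
  have i1 : Integrable (fun s => |s| * f s) := gen (fun s => |s|) measurable_abs
    (fun s => abs_nonneg s) (fun s hs => by rw [abs_abs]; exact hs)
  have i2 : Integrable (fun s => s ^ 2 * f s) := gen (fun s => s ^ 2) (by fun_prop)
    (fun s => sq_nonneg s) (fun s hs => by rw [sq_abs, ← sq_abs s, ← sq_abs K]; gcongr)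
  set I := ∫ s, f s with hI
  have hI0 : 0 ≤ I := integral_nonneg h0
  have hb : ∀ s, |s| * f s ≤ I / 2 := by
    intro s
    have := two_mul_le h0 hL hE hfi s
    linarith
  have hh : ∀ s, f 0 * f (2 * s) ≤ f s ^ 2 := by
    intro s
    have := logC_half h0 hL (2 * s) 0
    have e : (1 / 2 : ℝ) * (2 * s) + 1 / 2 * 0 = s := by ring
    rw [e] at this
    linarith
  have s1 : ∫ s, |s| * f s = 2 * ∫ s, |2 * s| * f (2 * s) := by
    rw [Measure.integral_comp_mul_left (fun z => |z| * f z) 2]
    norm_num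
    ring
  have s2 : ∫ s, s ^ 2 * f s = 2 * ∫ s, (2 * s) ^ 2 * f (2 * s) := by
    rw [Measure.integral_comp_mul_left (fun z => z ^ 2 * f z) 2]
    norm_num
    ring
  have j1 : f 0 * ∫ s, |s| * f s ≤ 2 * I ^ 2 := by
    have h1 : f 0 * ∫ s, |2 * s| * f (2 * s) ≤ I * I := by
      rw [← integral_const_mul, hI, ← integral_const_mul]
      apply integral_mono
      · exact ((i1.comp_mul_left' (R := 2) (by norm_num)).const_mul _)
      · exact hfi.const_mul _
      · intro s
        show f 0 * (|2 * s| * f (2 * s)) ≤ I * f s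
        rw [abs_mul, abs_of_pos (by norm_num : (0 : ℝ) < 2)]
        calc f 0 * (2 * |s| * f (2 * s)) = 2 * |s| * (f 0 * f (2 * s)) := by ring
          _ ≤ 2 * |s| * (f s ^ 2) := by
              apply mul_le_mul_of_nonneg_left (hh s)
              positivity
          _ = 2 * (|s| * f s) * f s := by ring
          _ ≤ 2 * (I / 2) * f s := by
              apply mul_le_mul_of_nonneg_right _ (h0 s)
              linarith [hb s]
          _ = I * f s := by ring
    rw [s1]
    nlinarith
  have j2 : f 0 * ∫ s, s ^ 2 * f s ≤ 4 * I * ∫ s, |s| * f s := by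
    have h1 : f 0 * ∫ s, (2 * s) ^ 2 * f (2 * s) ≤ 2 * I * ∫ s, |s| * f s := by
      rw [← integral_const_mul, ← integral_const_mul]
      apply integral_mono
      · exact ((i2.comp_mul_left' (R := 2) (by norm_num)).const_mul _)
      · exact i1.const_mul _
      · intro s
        show f 0 * ((2 * s) ^ 2 * f (2 * s)) ≤ 2 * I * (|s| * f s)
        calc f 0 * ((2 * s) ^ 2 * f (2 * s)) = 4 * |s| ^ 2 * (f 0 * f (2 * s)) := by
              rw [sq_abs]; ring
          _ ≤ 4 * |s| ^ 2 * (f s ^ 2) := by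
              apply mul_le_mul_of_nonneg_left (hh s)
              positivity
          _ = 4 * (|s| * f s) * (|s| * f s) := by ring
          _ ≤ 4 * (I / 2) * (|s| * f s) := by
              apply mul_le_mul_of_nonneg_right _ (mul_nonneg (abs_nonneg s) (h0 s))
              linarith [hb s]
          _ = 2 * I * (|s| * f s) := by ring
    rw [s2]
    nlinarith
  calc f 0 ^ 2 * ∫ s, s ^ 2 * f s = f 0 * (f 0 * ∫ s, s ^ 2 * f s) := by ring
    _ ≤ f 0 * (4 * I * ∫ s, |s| * f s) := mul_le_mul_of_nonneg_left j2 (h0 0)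
    _ = 4 * I * (f 0 * ∫ s, |s| * f s) := by ring
    _ ≤ 4 * I * (2 * I ^ 2) := mul_le_mul_of_nonneg_left j1 (by positivity)
    _ = 8 * I ^ 3 := by ring

/-- lower bound of the second moment of a bounded function -/
lemma second_moment_ge {f : ℝ → ℝ} (h0 : ∀ s, 0 ≤ f s) (hf : Integrable f)
    (hf2 : Integrable (fun s => s ^ 2 * f s)) {R : ℝ} (hR : 0 < R)
    (hmax : ∀ s, f s ≤ R * ∫ s, f s) :
    (1 / (32 * R ^ 2)) * ∫ s, f s ≤ ∫ s, s ^ 2 * f s := by
  set I := ∫ s, f s with hI
  have hI0 : 0 ≤ I := integral_nonneg h0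
  set r := 1 / (4 * R) with hr
  have hr0 : 0 < r := by positivity
  -- s^2 f ≥ r^2 (f - (R I) 1_{|s| ≤ r})
  have hind : Integrable (Set.indicator (Set.Icc (-r) r) (fun _ : ℝ => R * I)) := by
    rw [integrable_indicator_iff measurableSet_Icc]
    exact integrableOn_const (by simp)
  have h1 : ∫ s, r ^ 2 * (f s - Set.indicator (Set.Icc (-r) r) (fun _ : ℝ => R * I) s) ≤
      ∫ s, s ^ 2 * f s := by
    apply integral_mono ((hf.sub hind).const_mul _) hf2
    intro s
    show r ^ 2 * (f s - Set.indicator (Set.Icc (-r) r) (fun _ : ℝ => R * I) s) ≤ s ^ 2 * f s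
    by_cases hs : s ∈ Set.Icc (-r) r
    · rw [Set.indicator_of_mem hs]
      have h2 : f s - R * I ≤ 0 := by linarith [hmax s]
      have h3 : r ^ 2 * (f s - R * I) ≤ 0 := mul_nonpos_of_nonneg_of_nonpos (sq_nonneg r) h2
      have h4 : 0 ≤ s ^ 2 * f s := mul_nonneg (sq_nonneg s) (h0 s)
      linarith
    · rw [Set.indicator_of_notMem hs, sub_zero]
      apply mul_le_mul_of_nonneg_right _ (h0 s)
      have h2 : r < |s| := by
        by_contra hcon
        apply hs
        rw [not_lt, abs_le] at hcon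
        exact hcon
      rw [← sq_abs s]
      gcongr
  rw [integral_const_mul, integral_sub hf hind, integral_indicator measurableSet_Icc,
    setIntegral_const, Real.volume_real_Icc_of_le (by linarith), smul_eq_mul] at h1
  have h2 : r ^ 2 * (I - (r - -r) * (R * I)) = 1 / (32 * R ^ 2) * I := by
    rw [hr]
    field_simp
    ring
  linarith [h2]

end Pool.Agent.Lib.MP_6d896a_gt.Few
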