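import Mathlib
import Pool.Agent.Lib.MP_6d896a_gt.Few.Sec3

/-!
Slices over the orthogonal complement of a subspace, of arbitrary dimension.
-/

set_option autoImplicit false

namespace Pool.Agent.Lib.MP_6d896a_gt.Few

open MeasureTheory Real Filter Topology
open scoped ENNReal

variable {N m k : ℕ}

/-- `B` is an isometric parametrisation of the orthogonal complement of the range of `A` -/
structure Comp (A : (Fin m → ℝ) →ₗ[ℝ] (Fin N → ℝ)) (B : (Fin k → ℝ) →ₗ[ℝ] (Fin N → ℝ)) : Prop where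
  inj : Function.Injective A
  iso : ∀ z w, dot (B z) (B w) = dot z w
  orth : ∀ z v, dot (B z) (A v) = 0
  dim : k + m = N

/-- the slice function -/
noncomputable def slk (A : (Fin m → ℝ) →ₗ[ℝ] (Fin N → ℝ)) (B : (Fin k → ℝ) →ₗ[ℝ] (Fin N → ℝ))
    (Φ : (Fin N → ℝ) → ℝ) (z : Fin k → ℝ) : ℝ := ∫ v, Φ (B z + A v)

lemma ext_apply (a : Fin N → ℝ) (A : (Fin m → ℝ) →ₗ[ℝ] (Fin N → ℝ)) (y : Fin (m + 1) → ℝ) :
    ext a A y = y 0 • a + A (Fin.tail y) := by
  conv_lhs => rw [← Fin.cons_self_tail y]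
  rw [ext_cons]

lemma exists_comp : ∀ (k : ℕ) {m : ℕ} (A : (Fin m → ℝ) →ₗ[ℝ] (Fin N → ℝ)) (_ : Function.Injective A)
    (_ : k + m = N), ∃ B : (Fin k → ℝ) →ₗ[ℝ] (Fin N → ℝ), Comp A B := by
  intro k
  induction k with
  | zero =>
    intro m A hA h
    refine ⟨0, hA, ?_, ?_, h⟩
    · intro z w
      simp [dot]
    · intro z v
      simp [dot]
  | succ k ih =>
    intro m A hA h
    obtain ⟨a, ha, haA⟩ := exists_unit A (by omega)
    obtain ⟨B, hB⟩ := ih (ext a A) (ext_inj hA ha haA) (by omega)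
    have h1 : ∀ z, dot (B z) a = 0 := by
      intro z
      have := hB.orth z (Fin.cons 1 0)
      rwa [ext_cons, one_smul, map_zero, add_zero] at this
    have h2 : ∀ z v, dot (B z) (A v) = 0 := by
      intro z v
      have := hB.orth z (Fin.cons 0 v)
      rwa [ext_cons, zero_smul, zero_add] at this
    refine ⟨ext a B, hA, ?_, ?_, h⟩
    · intro z w
      rw [ext_apply, ext_apply, dot_add, dot_add_left, dot_add_left, dot_smul, dot_smul,
        dot_smul_left, dot_smul_left, ha, h1, dot_comm a, h1, hB.iso]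
      unfold dot
      rw [Fin.sum_univ_succ]
      simp only [Fin.tail]
      ring
    · intro z v
      rw [ext_apply, dot_add_left, dot_smul_left, haA, h2]
      ring

section comp

variable {A : (Fin m → ℝ) →ₗ[ℝ] (Fin N → ℝ)} {B : (Fin k → ℝ) →ₗ[ℝ] (Fin N → ℝ)}
  {Φ : (Fin N → ℝ) → ℝ}

lemma Comp.coord (h : Comp A B) (w z : Fin k → ℝ) (v : Fin m → ℝ) :
    dot (B w) (B z + A v) = dot w z := by
  rw [dot_add, h.iso, h.orth, add_zero]

lemma dot_self_nonneg (x : Fin N → ℝ) : 0 ≤ dot x x :=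
  Finset.sum_nonneg fun _ _ => mul_self_nonneg _

lemma dot_self_eq_zero {x : Fin N → ℝ} (h : dot x x = 0) : x = 0 := by
  unfold dot at h
  rw [Finset.sum_eq_zero_iff_of_nonneg (fun i _ => mul_self_nonneg _)] at h
  funext i
  exact mul_self_eq_zero.mp (h i (Finset.mem_univ i))

/-- the combined map -/
noncomputable def pr (A : (Fin m → ℝ) →ₗ[ℝ] (Fin N → ℝ)) (B : (Fin k → ℝ) →ₗ[ℝ] (Fin N → ℝ)) :
    ((Fin k → ℝ) × (Fin m → ℝ)) →ₗ[ℝ] (Fin N → ℝ) :=
  B.coprod A

lemma pr_apply (z : Fin k → ℝ) (v : Fin m → ℝ) : pr A B (z, v) = B z + A v := by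
  simp [pr]

lemma Comp.pr_inj (h : Comp A B) : Function.Injective (pr A B) := by
  rw [← LinearMap.ker_eq_bot, LinearMap.ker_eq_bot']
  rintro ⟨z, v⟩ hz
  rw [pr_apply] at hz
  have h1 : dot z z = 0 := by
    rw [← h.coord z z v, hz, dot_zero]
  have h2 : z = 0 := dot_self_eq_zero h1
  subst h2
  rw [map_zero, zero_add] at hz
  have h3 : v = 0 := h.inj (by rw [hz, map_zero])
  rw [h3]
  rfl

/-- the combined map as an equivalence -/
noncomputable def Comp.eqv (h : Comp A B) : ((Fin k → ℝ) × (Fin m → ℝ)) ≃L[ℝ] (Fin N → ℝ) :=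
  (LinearEquiv.ofInjectiveOfFinrankEq (pr A B) h.pr_inj (by
    simp [Module.finrank_prod, h.dim])).toContinuousLinearEquiv

lemma Comp.eqv_apply (h : Comp A B) (z : Fin k → ℝ) (v : Fin m → ℝ) :
    h.eqv (z, v) = B z + A v := by
  rw [← pr_apply]
  rfl

/-- every vector orthogonal to the range of `A` is in the range of `B` -/
lemma Comp.surj_orth (h : Comp A B) (a : Fin N → ℝ) (ha : ∀ v, dot a (A v) = 0) :
    ∃ z, B z = a ∧ dot z z = dot a a := by
  obtain ⟨⟨z, v⟩, hz⟩ := h.eqv.surjective a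
  rw [h.eqv_apply] at hz
  have h1 : dot (A v) (A v) = 0 := by
    have h2 := ha v
    rw [← hz, dot_add_left, h.orth, zero_add] at h2
    exact h2
  have h2 : A v = 0 := dot_self_eq_zero h1
  rw [h2, add_zero] at hz
  refine ⟨z, hz, ?_⟩
  rw [← h.iso, hz]

lemma slk_zero : slk A B Φ 0 = ∫ v, Φ (A v) := by
  simp [slk]

lemma slk_nonneg (hΦ : Cw Φ) (z : Fin k → ℝ) : 0 ≤ slk A B Φ z :=
  integral_nonneg fun _ => hΦ.nonneg _

/-- Prekopa-Leindler for three slices -/
lemma slk_pl (hA : Function.Injective A) {Φ1 Φ2 Φ3 : (Fin N → ℝ) → ℝ} (h1 : Cw Φ1) (h2 : Cw Φ2)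
    (h3 : Cw Φ3) {l : ℝ} (hl0 : 0 < l) (hl1 : l < 1)
    (H : ∀ x y, Φ1 x ^ (1 - l) * Φ2 y ^ l ≤ Φ3 ((1 - l) • x + l • y)) (s r : Fin k → ℝ) :
    slk A B Φ1 s ^ (1 - l) * slk A B Φ2 r ^ l ≤ slk A B Φ3 ((1 - l) • s + l • r) := by
  have hAc := lin_cont A
  have hm : ∀ (Ψ : (Fin N → ℝ) → ℝ), Cw Ψ → ∀ q : Fin k → ℝ,
      Measurable (fun v => Ψ (B q + A v)) := by
    intro Ψ hΨ q
    exact hΨ.meas.comp (measurable_const.add hAc.measurable)
  refine pl_real hl0 hl1 (h1.int A hA _) (h2.int A hA _) (h3.int A hA _) (hm _ h1 _) (hm _ h2 _)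
    (hm _ h3 _) (fun _ => h1.nonneg _) (fun _ => h2.nonneg _) (fun _ => h3.nonneg _) ?_
  intro v w
  have := H (B s + A v) (B r + A w)
  refine this.trans (le_of_eq ?_)
  congr 1
  rw [map_add, map_smul, map_smul, map_add, map_smul, map_smul]
  module

lemma slk_logC (h : Comp A B) (hΦ : Cw Φ) (hL : LogC Φ) : LogC (slk A B Φ) := by
  intro s r l h0 h1
  exact slk_pl h.inj hΦ hΦ hΦ h0 h1 (fun x y => hL x y l h0 h1) s r

lemma pair_meas (hΦ : Measurable Φ) :
    Measurable (fun p : (Fin k → ℝ) × (Fin m → ℝ) => Φ (B p.1 + A p.2)) := by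
  have hAc := lin_cont A
  have hBc := lin_cont B
  apply hΦ.comp
  have : Continuous (fun p : (Fin k → ℝ) × (Fin m → ℝ) => B p.1 + A p.2) := by fun_prop
  exact this.measurable

lemma slk_meas (hΦ : Cw Φ) : Measurable (slk A B Φ) :=
  ((pair_meas hΦ.meas).stronglyMeasurable.integral_prod_right').measurable

lemma pair_total (h : Comp A B) : ∃ d : ℝ, 0 < d ∧
    (∀ Φ : (Fin N → ℝ) → ℝ, Integrable Φ →
      Integrable (fun p : (Fin k → ℝ) × (Fin m → ℝ) => Φ (B p.1 + A p.2))) ∧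
    ∀ Φ : (Fin N → ℝ) → ℝ,
    ∫ p : (Fin k → ℝ) × (Fin m → ℝ), Φ (B p.1 + A p.2) = d * ∫ x, Φ x := by
  have hv : (volume : Measure ((Fin k → ℝ) × (Fin m → ℝ))).IsAddHaarMeasure :=
    Measure.prod.instIsAddHaarMeasure volume volume
  set e := h.eqv with he
  set μ : Measure (Fin N → ℝ) := Measure.map e volume with hμ
  have hHaar : μ.IsAddHaarMeasure := e.isAddHaarMeasure_map volume
  have h1 : μ = Measure.addHaarScalarFactor μ volume • volume :=
    Measure.isAddLeftInvariant_eq_smul μ volume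
  have h2 : 0 < Measure.addHaarScalarFactor μ volume :=
    Measure.addHaarScalarFactor_pos_of_isAddHaarMeasure μ volume
  set d := Measure.addHaarScalarFactor μ volume with hd
  have hemb : MeasurableEmbedding e := e.toHomeomorph.measurableEmbedding
  refine ⟨d, h2, ?_, ?_⟩
  · intro Φ hΦ
    have h3 : Integrable Φ μ := by
      rw [h1]
      exact hΦ.smul_measure_nnreal
    have h4 := (hemb.integrable_map_iff).mp h3
    refine h4.congr (ae_of_all _ fun p => ?_)
    show Φ (e (p.1, p.2)) = _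
    rw [he, h.eqv_apply]
  · intro Φ
    have h3 : ∫ x, Φ x ∂μ = ∫ p, Φ (e p) := hemb.integral_map Φ
    have h4 : ∫ x, Φ x ∂μ = d * ∫ x, Φ x := by
      rw [h1, integral_smul_nnreal_measure]
      rfl
    rw [← h4, h3]
    apply integral_congr_ae (ae_of_all _ fun p => ?_)
    show _ = Φ (e (p.1, p.2))
    rw [he, h.eqv_apply]

lemma Cw.intN (hΦ : Cw Φ) : Integrable Φ := by
  have := hΦ.int0 (LinearMap.id : (Fin N → ℝ) →ₗ[ℝ] (Fin N → ℝ)) (fun _ _ h => h)
  simpa using this

lemma slk_int (h : Comp A B) (hΦ : Cw Φ) : Integrable (slk A B Φ) := by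
  obtain ⟨d, _, h2, _⟩ := pair_total h
  exact (h2 Φ hΦ.intN).integral_prod_left

/-- total integral; the factor does not depend on the function -/
lemma slk_total (h : Comp A B) : ∃ d : ℝ, 0 < d ∧ ∀ Φ : (Fin N → ℝ) → ℝ, Cw Φ →
    ∫ z, slk A B Φ z = d * ∫ x, Φ x := by
  obtain ⟨d, h1, h2, h3⟩ := pair_total h
  refine ⟨d, h1, fun Φ hΦ => ?_⟩
  rw [← h3 Φ]
  exact (integral_prod _ (h2 Φ hΦ.intN)).symm

lemma cube_dot {x : Fin N → ℝ} (hx : x ∈ cube N) : dot x x ≤ N := by
  unfold dot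
  calc ∑ j, x j * x j ≤ ∑ _j : Fin N, (1 : ℝ) := by
        apply Finset.sum_le_sum
        intro j _
        have := abs_le.mp (hx j)
        nlinarith
    _ = N := by simp

/-- bounded support: the slice vanishes for `dot z z > N` -/
lemma slk_supp (h : Comp A B) (hΦ : Cw Φ) (z : Fin k → ℝ) (hz : (N : ℝ) < dot z z) :
    slk A B Φ z = 0 := by
  unfold slk
  have : ∀ v, Φ (B z + A v) = 0 := by
    intro v
    apply hΦ.supp
    intro hcon
    have h1 := cube_dot hcon
    have h2 : dot (B z + A v) (B z + A v) = dot z z + dot (A v) (A v) := by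
      rw [dot_add, dot_add_left, dot_add_left, h.iso, h.orth, dot_comm (A v), h.orth]
      ring
    have h3 := dot_self_nonneg (A v)
    linarith
  simp [this]

lemma slk_bdd (h : Comp A B) (hΦ : Cw Φ) : ∃ C, ∀ z, slk A B Φ z ≤ C := by
  obtain ⟨C, hC⟩ := hΦ.bdd
  have hC0 : 0 ≤ C := (hΦ.nonneg 0).trans (hC 0)
  have h1 : IsClosedEmbedding A := LinearMap.isClosedEmbedding_of_injective
    (LinearMap.ker_eq_bot.mpr h.inj)
  have hK : IsCompact (A ⁻¹' {x | dot x x ≤ N}) := by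
    apply h1.isCompact_preimage
    apply Metric.isCompact_of_isClosed_isBounded
    · exact isClosed_le dotself_continuous continuous_const
    · rw [isBounded_iff_forall_norm_le]
      refine ⟨N + 1, fun x hx => ?_⟩
      rw [pi_norm_le_iff_of_nonneg (by positivity)]
      intro j
      have h2 : x j * x j ≤ dot x x :=
        Finset.single_le_sum (f := fun j => x j * x j) (fun i _ => mul_self_nonneg _)
          (Finset.mem_univ j)
      have h3 : dot x x ≤ N := hx
      rw [Real.norm_eq_abs, abs_le]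
      constructor <;> nlinarith
  refine ⟨∫ v, Set.indicator (A ⁻¹' {x | dot x x ≤ N}) (fun _ => C) v, fun z => ?_⟩
  apply integral_mono_of_nonneg (ae_of_all _ fun v => hΦ.nonneg _)
  · rw [integrable_indicator_iff hK.measurableSet]
    exact integrableOn_const hK.measure_lt_top.ne
  · refine ae_of_all _ fun v => ?_
    show Φ (B z + A v) ≤ _
    by_cases hx : B z + A v ∈ cube N
    · have h2 : dot (B z + A v) (B z + A v) = dot z z + dot (A v) (A v) := by
        rw [dot_add, dot_add_left, dot_add_left, h.iso, h.orth, dot_comm (A v), h.orth]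
        ring
      have hv : v ∈ A ⁻¹' {x | dot x x ≤ N} := by
        show dot (A v) (A v) ≤ N
        have := cube_dot hx
        have := dot_self_nonneg z
        linarith
      rw [Set.indicator_of_mem hv]
      exact hC _
    · rw [hΦ.supp _ hx]
      exact Set.indicator_nonneg (fun _ _ => hC0) v

end comp

end Pool.Agent.Lib.MP_6d896a_gt.Few
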