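import Pool.Agent.Lib.MP_6d896a_gt.Few.LowA
import Pool.Agent.Lib.MP_6d896a_gt.Few.SecK

/-!
Central sections: even log-concave weights, level sets, second moments of the cube.
-/

set_option autoImplicit false

namespace Pool.Agent.Lib.MP_6d896a_gt.Few

open MeasureTheory Real Filter Topology
open scoped ENNReal

variable {N m : ℕ}

/-! ### slices of an even weight -/

/-- the integral over a section -/
noncomputable def Is (Φ : (Fin N → ℝ) → ℝ) (A : (Fin m → ℝ) →ₗ[ℝ] (Fin N → ℝ)) : ℝ :=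
  ∫ v, Φ (A v)

/-- the integral over a translated section -/
noncomputable def Hs (Φ : (Fin N → ℝ) → ℝ) (A : (Fin m → ℝ) →ₗ[ℝ] (Fin N → ℝ))
    (x : Fin N → ℝ) : ℝ := ∫ v, Φ (x + A v)

lemma sl_eq_Hs (Φ : (Fin N → ℝ) → ℝ) (A : (Fin m → ℝ) →ₗ[ℝ] (Fin N → ℝ)) (a : Fin N → ℝ)
    (s : ℝ) : sl A a Φ s = Hs Φ A (s • a) := rfl

lemma Hs_even {Φ : (Fin N → ℝ) → ℝ} (hE : ∀ x, Φ (-x) = Φ x)
    (A : (Fin m → ℝ) →ₗ[ℝ] (Fin N → ℝ)) (x : Fin N → ℝ) : Hs Φ A (-x) = Hs Φ A x := by
  unfold Hs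
  rw [← integral_neg_eq_self (fun v => Φ (x + A v))]
  apply integral_congr_ae (ae_of_all _ fun v => ?_)
  show Φ (-x + A v) = Φ (x + A (-v))
  rw [← hE, map_neg]
  congr 1
  abel

lemma sl_even {Φ : (Fin N → ℝ) → ℝ} (hE : ∀ x, Φ (-x) = Φ x)
    (A : (Fin m → ℝ) →ₗ[ℝ] (Fin N → ℝ)) (a : Fin N → ℝ) (s : ℝ) :
    sl A a Φ (-s) = sl A a Φ s := by
  rw [sl_eq_Hs, sl_eq_Hs, neg_smul, Hs_even hE]

lemma slk_eq_Hs {k : ℕ} (Φ : (Fin N → ℝ) → ℝ) (A : (Fin m → ℝ) →ₗ[ℝ] (Fin N → ℝ))
    (B : (Fin k → ℝ) →ₗ[ℝ] (Fin N → ℝ)) (z : Fin k → ℝ) : slk A B Φ z = Hs Φ A (B z) := rfl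

lemma slk_even {k : ℕ} {Φ : (Fin N → ℝ) → ℝ} (hE : ∀ x, Φ (-x) = Φ x)
    (A : (Fin m → ℝ) →ₗ[ℝ] (Fin N → ℝ)) (B : (Fin k → ℝ) →ₗ[ℝ] (Fin N → ℝ)) (z : Fin k → ℝ) :
    slk A B Φ (-z) = slk A B Φ z := by
  rw [slk_eq_Hs, slk_eq_Hs, map_neg, Hs_even hE]

/-- comparison of a section with the sections of one more dimension -/
def Rb (Φ : (Fin N → ℝ) → ℝ) (m : ℕ) (R : ℝ) : Prop :=
  ∀ A : (Fin m → ℝ) →ₗ[ℝ] (Fin N → ℝ), Function.Injective A → ∀ a : Fin N → ℝ, dot a a = 1 →
    (∀ v, dot a (A v) = 0) → Is Φ A ≤ R * Is Φ (ext a A)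

/-! ### level sets of even log-concave functions -/

section level

variable {K : ℕ} {g : (Fin K → ℝ) → ℝ}

lemma vec_half (hg0 : ∀ z, 0 ≤ g z) (hL : LogC g) (x y : Fin K → ℝ) :
    g x * g y ≤ g ((1 / 2 : ℝ) • x + (1 / 2 : ℝ) • y) ^ 2 := by
  have h := hL x y (1 / 2) (by norm_num) (by norm_num)
  have e : (1 : ℝ) - 1 / 2 = 1 / 2 := by norm_num
  rw [e, ← Real.sqrt_eq_rpow, ← Real.sqrt_eq_rpow] at h
  have h2 := pow_le_pow_left₀ (by positivity) h 2
  rwa [mul_pow, Real.sq_sqrt (hg0 x), Real.sq_sqrt (hg0 y)] at h2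

lemma level_convex (hL : LogC g) {c : ℝ} (hc : 0 < c) : Convex ℝ {z | c ≤ g z} := by
  intro x hx y hy a b ha hb hab
  have hx' : c ≤ g x := hx
  have hy' : c ≤ g y := hy
  rcases hb.eq_or_lt with h | h
  · rw [← h, zero_smul, add_zero]
    have : a = 1 := by linarith
    rw [this, one_smul]
    exact hx
  rcases ha.eq_or_lt with h' | h'
  · rw [← h', zero_smul, zero_add]
    have : b = 1 := by linarith
    rw [this, one_smul]
    exact hy
  have h1 := hL x y b h (by linarith)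
  have ea : 1 - b = a := by linarith
  rw [ea] at h1
  show c ≤ g (a • x + b • y)
  refine le_trans ?_ h1
  calc c = c ^ a * c ^ b := by rw [← Real.rpow_add hc, hab, Real.rpow_one]
    _ ≤ g x ^ a * g y ^ b := by
        apply mul_le_mul (Real.rpow_le_rpow hc.le hx' ha) (Real.rpow_le_rpow hc.le hy' hb)
          (Real.rpow_nonneg hc.le _) (Real.rpow_nonneg (hc.le.trans hx') _)

/-- half of the mass is in the level set -/
lemma level_mass (hg0 : ∀ z, 0 ≤ g z) (hL : LogC g) (hm : Measurable g) (hi : Integrable g) :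
    (∫ z, g z) / 2 ≤ ∫ z in {z | g 0 / (4 * 4 ^ K) ≤ g z}, g z := by
  set L := {z | g 0 / (4 * 4 ^ K) ≤ g z} with hLdef
  set V := ∫ z, g z with hV
  have hLm : MeasurableSet L := measurableSet_le measurable_const hm
  have h1 : V = (∫ z in L, g z) + ∫ z in Lᶜ, g z := (integral_add_compl hLm hi).symm
  have hhalf : Integrable (fun z => g ((1 / 2 : ℝ) • z)) :=
    hi.comp_smul (by norm_num)
  have h2 : ∫ z in Lᶜ, g z ≤ ∫ z in Lᶜ, 1 / (2 * 2 ^ K) * g ((1 / 2 : ℝ) • z) := by
    apply setIntegral_mono_on hi.integrableOn (hhalf.const_mul _).integrableOn hLm.compl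
    intro z hz
    have hz' : g z < g 0 / (4 * 4 ^ K) := not_le.mp hz
    have h3 := vec_half hg0 hL z 0
    rw [smul_zero, add_zero] at h3
    apply le_of_sq_le_sq _ (mul_nonneg (by positivity) (hg0 _))
    rw [mul_pow]
    calc g z ^ 2 = g z * g z := by ring
      _ ≤ g z * (g 0 / (4 * 4 ^ K)) := mul_le_mul_of_nonneg_left hz'.le (hg0 z)
      _ = (1 / (2 * 2 ^ K)) ^ 2 * (g z * g 0) := by
          have e : ((4 : ℝ)) ^ K = (2 ^ K) ^ 2 := by
            rw [← pow_mul, mul_comm, pow_mul]; norm_num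
          rw [e]
          field_simp
          ring
      _ ≤ (1 / (2 * 2 ^ K)) ^ 2 * g ((1 / 2 : ℝ) • z) ^ 2 :=
          mul_le_mul_of_nonneg_left h3 (sq_nonneg _)
  have h4 : ∫ z in Lᶜ, 1 / (2 * 2 ^ K) * g ((1 / 2 : ℝ) • z) ≤
      ∫ z, 1 / (2 * 2 ^ K) * g ((1 / 2 : ℝ) • z) :=
    setIntegral_le_integral (hhalf.const_mul _)
      (ae_of_all _ fun z => mul_nonneg (by positivity) (hg0 _))
  have h5 : ∫ z, 1 / (2 * 2 ^ K) * g ((1 / 2 : ℝ) • z) = V / 2 := by
    rw [integral_const_mul, Measure.integral_comp_smul volume g (1 / 2)]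
    simp only [Module.finrank_fintype_fun_eq_card, Fintype.card_fin, smul_eq_mul]
    rw [← hV, abs_of_pos (by positivity)]
    rw [one_div_pow]
    field_simp
  linarith

end level

/-! ### second moments of the cube -/

lemma comp_lin {n : ℕ} (T : (Fin n → ℝ) →ₗ[ℝ] (Fin n → ℝ)) (hT : Function.Injective T) :
    ∃ δ : ℝ, 0 < δ ∧ ∀ K : (Fin n → ℝ) → ℝ, ∫ y, K (T y) = δ * ∫ x, K x := by
  have hdet : LinearMap.det T ≠ 0 := by
    intro h0
    have h1 := LinearMap.bot_lt_ker_of_det_eq_zero h0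
    rw [LinearMap.ker_eq_bot.mpr hT] at h1
    exact lt_irrefl _ h1
  refine ⟨|(LinearMap.det T)⁻¹|, abs_pos.mpr (inv_ne_zero hdet), fun K => ?_⟩
  have h1 : IsClosedEmbedding T := LinearMap.isClosedEmbedding_of_injective
    (LinearMap.ker_eq_bot.mpr hT)
  rw [← h1.measurableEmbedding.integral_map (μ := volume) K,
    Real.map_linearMap_volume_pi_eq_smul_volume_pi hdet, integral_smul_measure,
    ENNReal.toReal_ofReal (abs_nonneg _), smul_eq_mul]

/-- the indicator of `[-1,1]` -/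
noncomputable def ind1 (x : ℝ) : ℝ := Set.indicator (Set.Icc (-1) 1) (fun _ => (1 : ℝ)) x

lemma W00_apply (x : Fin N → ℝ) : W (0 : Fin N → ℝ) 0 x = ∏ k, ind1 (x k) := by
  unfold W ind1
  by_cases hx : x ∈ cube N
  · rw [Set.indicator_of_mem hx]
    have h1 : ∀ k, Set.indicator (Set.Icc (-1) 1) (fun _ => (1 : ℝ)) (x k) = 1 := by
      intro k
      rw [Set.indicator_of_mem]
      exact abs_le.mp (hx k)
    simp [h1, dot]
  · rw [Set.indicator_of_notMem hx]
    have h1 : ∃ k, ¬ |x k| ≤ 1 := by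
      by_contra hcon
      push Not at hcon
      exact hx hcon
    obtain ⟨k, hk⟩ := h1
    symm
    apply Finset.prod_eq_zero (Finset.mem_univ k)
    rw [Set.indicator_of_notMem]
    intro h2
    exact hk (abs_le.mpr h2)

lemma int_ind1 : ∫ x, ind1 x = 2 := by
  unfold ind1
  rw [integral_indicator measurableSet_Icc, setIntegral_const, Real.volume_real_Icc_of_le
    (by norm_num)]
  norm_num

lemma int_x_ind1 : ∫ x, x * ind1 x = 0 := by
  have h : ∫ x, x * ind1 x = - ∫ x, x * ind1 x := by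
    refine (integral_neg_eq_self (fun x => x * ind1 x) volume).symm.trans ?_
    rw [← integral_neg]
    congr 1
    funext x
    show -x * ind1 (-x) = -(x * ind1 x)
    have : ind1 (-x) = ind1 x := by
      unfold ind1
      by_cases hx : x ∈ Set.Icc (-1 : ℝ) 1
      · rw [Set.indicator_of_mem hx, Set.indicator_of_mem]
        exact ⟨by linarith [hx.2], by linarith [hx.1]⟩
      · rw [Set.indicator_of_notMem hx, Set.indicator_of_notMem]
        intro hx'
        exact hx ⟨by linarith [hx'.2], by linarith [hx'.1]⟩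
    rw [this]
    ring
  linarith

lemma int_x2_ind1 : ∫ x, x * x * ind1 x = 2 / 3 := by
  have e : (fun x => x * x * ind1 x) = Set.indicator (Set.Icc (-1) 1) (fun x => x ^ 2) := by
    funext x
    unfold ind1
    by_cases hx : x ∈ Set.Icc (-1 : ℝ) 1
    · rw [Set.indicator_of_mem hx, Set.indicator_of_mem hx]; ring
    · rw [Set.indicator_of_notMem hx, Set.indicator_of_notMem hx, mul_zero]
  rw [e, integral_indicator measurableSet_Icc, integral_Icc_eq_integral_Ioc,
    ← intervalIntegral.integral_of_le (by norm_num), integral_pow]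
  norm_num

lemma cube_moment (i j : Fin N) : ∫ x : Fin N → ℝ, x i * x j * W 0 0 x =
    if i = j then 1 / 3 * ∫ x : Fin N → ℝ, W 0 0 x else 0 := by
  have e0 : ∫ x : Fin N → ℝ, W 0 0 x = ∏ _k : Fin N, ∫ x, ind1 x := by
    rw [← integral_fintype_prod_volume_eq_prod]
    simp only [W00_apply]
  have e1 : ∫ x : Fin N → ℝ, x i * x j * W 0 0 x =
      ∏ k : Fin N, ∫ x, (if k = i then x else 1) * (if k = j then x else 1) * ind1 x := by
    rw [← integral_fintype_prod_volume_eq_prod]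
    congr 1
    funext x
    rw [W00_apply, Finset.prod_mul_distrib, Finset.prod_mul_distrib]
    simp
  rw [e0, e1]
  by_cases hij : i = j
  · subst hij
    rw [if_pos rfl, ← Finset.mul_prod_erase Finset.univ _ (Finset.mem_univ i),
      ← Finset.mul_prod_erase Finset.univ (fun _ => ∫ x, ind1 x) (Finset.mem_univ i)]
    have h1 : ∫ x, (if i = i then x else 1) * (if i = i then x else 1) * ind1 x = 2 / 3 := by
      simp only [if_true]
      exact int_x2_ind1
    have h2 : ∀ k ∈ Finset.univ.erase i,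
        ∫ x, (if k = i then x else 1) * (if k = i then x else 1) * ind1 x = ∫ x, ind1 x := by
      intro k hk
      have : k ≠ i := Finset.ne_of_mem_erase hk
      simp [this]
    rw [h1, Finset.prod_congr rfl h2, int_ind1]
    ring
  · rw [if_neg hij]
    apply Finset.prod_eq_zero (Finset.mem_univ i)
    have h1 : ∫ x, (if i = i then x else 1) * (if i = j then x else 1) * ind1 x
        = ∫ x, x * ind1 x := by
      simp [hij]
    rw [h1, int_x_ind1]

lemma cube_second (a : Fin N → ℝ) : ∫ x : Fin N → ℝ, dot a x ^ 2 * W 0 0 x =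
    1 / 3 * dot a a * ∫ x : Fin N → ℝ, W 0 0 x := by
  have hint : ∀ i j : Fin N, Integrable (fun x : Fin N → ℝ => x i * x j * W 0 0 x) := by
    intro i j
    have h1 := slice_int (m := N) (N := N) LinearMap.id Function.injective_id 0
      (G := fun x => x i * x j) (C := 1) (by fun_prop) (by
        intro x hx
        rw [abs_mul]
        have := hx i
        have := hx j
        have := abs_nonneg (x i)
        have := abs_nonneg (x j)
        nlinarith)
    refine h1.congr (ae_of_all _ fun x => ?_)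
    simp only [LinearMap.id_apply, zero_add]
    unfold W
    by_cases hx : x ∈ cube N
    · rw [Set.indicator_of_mem hx, Set.indicator_of_mem hx]
      simp [dot]
    · rw [Set.indicator_of_notMem hx, Set.indicator_of_notMem hx, mul_zero]
  have e : ∀ x : Fin N → ℝ, dot a x ^ 2 * W 0 0 x =
      ∑ i, ∑ j, a i * a j * (x i * x j * W 0 0 x) := by
    intro x
    rw [sq]
    unfold dot
    rw [Finset.sum_mul_sum, Finset.sum_mul]
    refine Finset.sum_congr rfl fun i _ => ?_
    rw [Finset.sum_mul]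
    exact Finset.sum_congr rfl fun j _ => by ring
  simp only [e]
  rw [integral_finsetSum _ (fun i _ => integrable_finsetSum _
    (fun j _ => (hint i j).const_mul _))]
  have h2 : ∀ i : Fin N, ∫ x : Fin N → ℝ, ∑ j, a i * a j * (x i * x j * W 0 0 x) =
      1 / 3 * (a i * a i) * ∫ x : Fin N → ℝ, W 0 0 x := by
    intro i
    rw [integral_finsetSum _ (fun j _ => (hint i j).const_mul _)]
    have h3 : ∀ j : Fin N, ∫ x : Fin N → ℝ, a i * a j * (x i * x j * W 0 0 x) =
        if i = j then 1 / 3 * (a i * a j) * ∫ x : Fin N → ℝ, W 0 0 x else 0 := by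
      intro j
      rw [integral_const_mul, cube_moment]
      split_ifs
      · ring
      · ring
    simp only [h3]
    rw [Finset.sum_ite_eq]
    simp
  simp only [h2]
  rw [← Finset.sum_mul, ← Finset.mul_sum]
  rfl

lemma W00_even (x : Fin N → ℝ) : W (0 : Fin N → ℝ) 0 (-x) = W (0 : Fin N → ℝ) 0 x := by
  have hc : -x ∈ cube N ↔ x ∈ cube N := by
    unfold cube
    simp
  unfold W
  by_cases hx : x ∈ cube N
  · rw [Set.indicator_of_mem hx, Set.indicator_of_mem (hc.mpr hx)]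
    simp [dot]
  · rw [Set.indicator_of_notMem hx, Set.indicator_of_notMem (fun h => hx (hc.mp h))]

/-- second moment in the direction `a` over a section containing `a` -/
lemma sq_slice {Φ : (Fin N → ℝ) → ℝ} (h : Cw Φ) {a : Fin N → ℝ}
    {A : (Fin m → ℝ) →ₗ[ℝ] (Fin N → ℝ)} (hA : Function.Injective A) (ha : dot a a = 1)
    (haA : ∀ v, dot a (A v) = 0) :
    Integrable (fun s => s ^ 2 * sl A a Φ s) ∧
    ∫ s, s ^ 2 * sl A a Φ s = ∫ y, dot a (ext a A y) ^ 2 * Φ (ext a A y) := by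
  have hE1 := ext_inj hA ha haA
  have hC : Cw (fun x => dot a x ^ 2 * Φ x) := by
    refine h.mul (G := fun x => dot a x ^ 2) ?_ (fun x => sq_nonneg _)
      (C := (∑ j, |a j|) ^ 2) ?_
    · have := dot_continuous a
      exact (this.pow 2).measurable
    · intro x hx
      show dot a x ^ 2 ≤ _
      rw [← sq_abs]
      have := dot_abs_cube a hx
      have := abs_nonneg (dot a x)
      gcongr
  have e : ∀ s, sl A a (fun x => dot a x ^ 2 * Φ x) s = s ^ 2 * sl A a Φ s := by
    intro s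
    unfold sl
    rw [← integral_const_mul]
    congr 1
    funext v
    show dot a (s • a + A v) ^ 2 * Φ (s • a + A v) = _
    rw [dot_slice ha haA]
  have h1 := sl_int hE1 hC
  have h2 := sl_total hE1 hC
  constructor
  · refine h1.congr (ae_of_all _ fun s => ?_)
    exact e s
  · rw [← h2]
    congr 1
    funext s
    exact (e s).symm

lemma Rb_base (m : ℕ) : Rb (W (0 : Fin (m + 1) → ℝ) 0) m 5 := by
  intro A hA a ha haA
  have hE1 := ext_inj hA ha haA
  have hC : Cw (W (0 : Fin (m + 1) → ℝ) 0) := W_Cw 0 le_rfl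
  have hL : LogC (W (0 : Fin (m + 1) → ℝ) 0) := W_logC 0 le_rfl
  obtain ⟨C, hCb⟩ := sl_bdd hA ha haA hC
  have h1 := second_moment_le (f := sl A a (W 0 0)) (fun s => sl_nonneg hC s)
    (sl_logC hA hC hL) (fun s => sl_even W00_even _ _ s) (sl_meas hC) hCb
    (K := ∑ j, |a j|) (by
      intro s hs
      have hz : ∀ v, W (0 : Fin (m + 1) → ℝ) 0 (s • a + A v) = 0 := by
        intro v
        apply hC.supp
        intro hx
        have := dot_abs_cube a hx
        rw [dot_slice ha haA] at this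
        linarith
      unfold sl
      simp [hz])
  obtain ⟨-, h2⟩ := sq_slice hC hA ha haA
  rw [h2, sl_zero, sl_total hE1 hC] at h1
  obtain ⟨δ, hδ, hδK⟩ := comp_lin (ext a A) hE1
  have h3 : ∫ y, dot a (ext a A y) ^ 2 * W 0 0 (ext a A y) =
      1 / 3 * ∫ y, W 0 0 (ext a A y) := by
    rw [hδK (fun x => dot a x ^ 2 * W 0 0 x), hδK (fun x => W 0 0 x), cube_second, ha]
    ring
  rw [h3] at h1
  set q := Is (W (0 : Fin (m + 1) → ℝ) 0) A with hq
  set I := Is (W (0 : Fin (m + 1) → ℝ) 0) (ext a A) with hI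
  have hI0 : 0 < I := W_int_pos hE1 0 le_rfl
  have hq0 : 0 < q := W_int_pos hA 0 le_rfl
  have h4 : q ^ 2 * (1 / 3 * I) ≤ 8 * I ^ 3 := h1
  have h5 : I * q ^ 2 ≤ I * (24 * I ^ 2) := by nlinarith
  have h6 : q ^ 2 ≤ 24 * I ^ 2 := le_of_mul_le_mul_left h5 hI0
  by_contra hcon
  rw [not_le] at hcon
  nlinarith

end Pool.Agent.Lib.MP_6d896a_gt.Few
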