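import Mathlib
import Pool.Agent.Lib.MP_6d896a_gt.Softplus

/-!
Softplus potentials with shifts satisfy the hypotheses of the chain.
-/

set_option autoImplicit false

namespace Pool.Agent.Lib.MP_6d896a_gt.Few

open MeasureTheory ProbabilityTheory Real
open scoped ENNReal

section pot

variable {E : Type*} [NormedAddCommGroup E] [InnerProductSpace ℝ E] [FiniteDimensional ℝ E]
  [MeasurableSpace E] [BorelSpace E] {K : Type*} [Fintype K]

/-- softplus potential -/
noncomputable def VsS (kap : ℝ) (y b : E) (c : K → ℝ) (u : K → E) (τ : K → ℝ) (x : E) : ℝ :=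
  kap / 2 * ‖x - y‖ ^ 2 + inner ℝ b x + ∑ k, c k * sp (inner ℝ (u k) x - τ k)

/-- its gradient -/
noncomputable def DsS (kap : ℝ) (y b : E) (c : K → ℝ) (u : K → E) (τ : K → ℝ) (x : E) : E :=
  kap • (x - y) + b + ∑ k, (c k * Real.sigmoid (inner ℝ (u k) x - τ k)) • u k

theorem soft_potS {kap : ℝ} (hk : 0 < kap) (y b : E) {c : K → ℝ} (hc : ∀ k, 0 ≤ c k)
    (u : K → E) (τ : K → ℝ) :
    Pot (VsS kap y b c u τ) (DsS kap y b c u τ) kap (kap + ∑ k, c k * ‖u k‖ ^ 2)
      (∑ k, c k * ‖u k‖ ^ 3) := by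
  have hS : 0 ≤ ∑ k, c k * ‖u k‖ ^ 2 :=
    Finset.sum_nonneg fun k _ => mul_nonneg (hc k) (by positivity)
  -- difference of gradients
  have hdiff : ∀ x x' : E, ∃ w : K → ℝ, (∀ k, 0 ≤ w k) ∧ (∀ k, w k ≤ c k) ∧
      DsS kap y b c u τ x - DsS kap y b c u τ x' = kap • (x - x') +
        ∑ k, (w k * inner ℝ (u k) (x - x')) • u k := by
    intro x x'
    choose s hs0 hs1 hs using fun k => sig_slope (inner ℝ (u k) x - τ k) (inner ℝ (u k) x' - τ k)
    refine ⟨fun k => c k * s k, fun k => mul_nonneg (hc k) (hs0 k),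
      fun k => mul_le_of_le_one_right (hc k) (hs1 k), ?_⟩
    unfold DsS
    have e : kap • (x - y) + b + ∑ k, (c k * Real.sigmoid (inner ℝ (u k) x - τ k)) • u k -
        (kap • (x' - y) + b + ∑ k, (c k * Real.sigmoid (inner ℝ (u k) x' - τ k)) • u k) =
        kap • (x - x') + (∑ k, (c k * Real.sigmoid (inner ℝ (u k) x - τ k)) • u k -
          ∑ k, (c k * Real.sigmoid (inner ℝ (u k) x' - τ k)) • u k) := by
      rw [smul_sub, smul_sub, smul_sub]
      abel
    rw [e, ← Finset.sum_sub_distrib]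
    congr 1
    apply Finset.sum_congr rfl
    intro k _
    rw [← sub_smul, ← mul_sub, hs k, inner_sub_right]
    congr 1
    ring
  have hMv : ∀ (w : K → ℝ), (∀ k, 0 ≤ w k) → (∀ k, w k ≤ c k) → ∀ v : E,
      ‖∑ k, (w k * inner ℝ (u k) v) • u k‖ ^ 2 ≤
        (∑ k, c k * ‖u k‖ ^ 2) * ∑ k, w k * (inner ℝ (u k) v) ^ 2 := by
    intro w hw0 hw1 v
    have h1 : ‖∑ k, (w k * inner ℝ (u k) v) • u k‖ ≤
        ∑ k, (Real.sqrt (w k) * ‖u k‖) * (Real.sqrt (w k) * |inner ℝ (u k) v|) := by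
      refine (norm_sum_le _ _).trans (Finset.sum_le_sum fun k _ => ?_)
      rw [norm_smul, Real.norm_eq_abs, abs_mul, abs_of_nonneg (hw0 k)]
      have : Real.sqrt (w k) * Real.sqrt (w k) = w k := Real.mul_self_sqrt (hw0 k)
      apply le_of_eq
      calc w k * |inner ℝ (u k) v| * ‖u k‖ = (Real.sqrt (w k) * Real.sqrt (w k)) *
            |inner ℝ (u k) v| * ‖u k‖ := by rw [this]
        _ = _ := by ring
    have h2 := Finset.sum_mul_sq_le_sq_mul_sq Finset.univ (fun k => Real.sqrt (w k) * ‖u k‖)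
      (fun k => Real.sqrt (w k) * |inner ℝ (u k) v|)
    have h3 : ∑ k, (Real.sqrt (w k) * ‖u k‖) ^ 2 ≤ ∑ k, c k * ‖u k‖ ^ 2 := by
      apply Finset.sum_le_sum
      intro k _
      rw [mul_pow, Real.sq_sqrt (hw0 k)]
      exact mul_le_mul_of_nonneg_right (hw1 k) (by positivity)
    have h4 : ∑ k, (Real.sqrt (w k) * |inner ℝ (u k) v|) ^ 2 = ∑ k, w k * (inner ℝ (u k) v) ^ 2 := by
      apply Finset.sum_congr rfl
      intro k _
      rw [mul_pow, Real.sq_sqrt (hw0 k), sq_abs]
    rw [h4] at h2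
    have h5 : 0 ≤ ∑ k, w k * (inner ℝ (u k) v) ^ 2 :=
      Finset.sum_nonneg fun k _ => mul_nonneg (hw0 k) (by positivity)
    calc _ ≤ (∑ k, (Real.sqrt (w k) * ‖u k‖) * (Real.sqrt (w k) * |inner ℝ (u k) v|)) ^ 2 :=
          pow_le_pow_left₀ (norm_nonneg _) h1 2
      _ ≤ _ := h2
      _ ≤ _ := mul_le_mul_of_nonneg_right h3 h5
  refine ⟨hk, by positivity, ?_, ?_, ?_, ?_, ?_, ?_, ?_⟩
  · exact Finset.sum_nonneg fun k _ => mul_nonneg (hc k) (by positivity)
  · unfold VsS
    have := sp_continuous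
    fun_prop
  · unfold DsS
    apply ContDiff.add
    · apply ContDiff.add
      · exact (contDiff_id.sub contDiff_const).const_smul kap
      · exact contDiff_const
    · apply ContDiff.sum
      intro k _
      apply ContDiff.smul _ contDiff_const
      apply ContDiff.mul contDiff_const
      have h1 : ContDiff ℝ 1 Real.sigmoid := contDiff_sigmoid.of_le (by exact le_top)
      have h2 : ContDiff ℝ 1 (fun x => (inner ℝ (u k) x : ℝ) - τ k) :=
        ((innerSL ℝ (u k)).contDiff).sub contDiff_const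
      exact h1.comp h2
  · intro x x'
    have e : VsS kap y b c u τ x' - VsS kap y b c u τ x -
        (1 / 2) * inner ℝ (DsS kap y b c u τ x + DsS kap y b c u τ x') (x' - x) =
        ∑ k, c k * (sp (inner ℝ (u k) x' - τ k) - sp (inner ℝ (u k) x - τ k) -
          (1 / 2) * ((Real.sigmoid (inner ℝ (u k) x - τ k) + Real.sigmoid (inner ℝ (u k) x' - τ k)) *
            (inner ℝ (u k) x' - inner ℝ (u k) x))) := by
      have hq : ‖x' - y‖ ^ 2 - ‖x - y‖ ^ 2 = inner ℝ ((x - y) + (x' - y)) (x' - x) := by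
        have h1 : x' - x = (x' - y) - (x - y) := by abel
        rw [h1]
        generalize x - y = p
        generalize x' - y = q
        rw [inner_add_left, inner_sub_right, inner_sub_right, real_inner_self_eq_norm_sq,
          real_inner_self_eq_norm_sq, real_inner_comm q p]
        ring
      have hD : DsS kap y b c u τ x + DsS kap y b c u τ x' = kap • ((x - y) + (x' - y)) + (2 : ℝ) • b +
          ∑ k, (c k * (Real.sigmoid (inner ℝ (u k) x - τ k) + Real.sigmoid (inner ℝ (u k) x' - τ k))) • u k := by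
        unfold DsS
        rw [smul_add, two_smul]
        have : ∑ k, (c k * (Real.sigmoid (inner ℝ (u k) x - τ k) +
            Real.sigmoid (inner ℝ (u k) x' - τ k))) • u k =
            ∑ k, (c k * Real.sigmoid (inner ℝ (u k) x - τ k)) • u k +
            ∑ k, (c k * Real.sigmoid (inner ℝ (u k) x' - τ k)) • u k := by
          rw [← Finset.sum_add_distrib]
          apply Finset.sum_congr rfl
          intro k _
          rw [← add_smul, mul_add]
        rw [this]
        abel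
      rw [hD, inner_add_left, inner_add_left, inner_smul_left, inner_smul_left, sum_inner]
      simp only [inner_smul_left, conj_trivial]
      unfold VsS
      have h2 : ∑ k, c k * (sp (inner ℝ (u k) x' - τ k) - sp (inner ℝ (u k) x - τ k) -
          (1 / 2) * ((Real.sigmoid (inner ℝ (u k) x - τ k) + Real.sigmoid (inner ℝ (u k) x' - τ k)) *
            (inner ℝ (u k) x' - inner ℝ (u k) x))) =
          ∑ k, c k * sp (inner ℝ (u k) x' - τ k) - ∑ k, c k * sp (inner ℝ (u k) x - τ k) -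
          (1 / 2) * ∑ k, c k * (Real.sigmoid (inner ℝ (u k) x - τ k) +
            Real.sigmoid (inner ℝ (u k) x' - τ k)) * inner ℝ (u k) (x' - x) := by
        rw [Finset.mul_sum, ← Finset.sum_sub_distrib, ← Finset.sum_sub_distrib]
        apply Finset.sum_congr rfl
        intro k _
        rw [inner_sub_right]
        ring
      rw [h2, ← hq, inner_sub_right b]
      ring
    rw [e]
    refine (Finset.abs_sum_le_sum_abs _ _).trans ?_
    rw [Finset.sum_mul]
    apply Finset.sum_le_sum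
    intro k _
    rw [abs_mul, abs_of_nonneg (hc k), mul_assoc]
    apply mul_le_mul_of_nonneg_left _ (hc k)
    have hst := sp_trap (inner ℝ (u k) x - τ k) (inner ℝ (u k) x' - τ k)
    rw [sub_sub_sub_cancel_right] at hst
    refine hst.trans ?_
    rw [← mul_pow, ← inner_sub_right]
    exact pow_le_pow_left₀ (abs_nonneg _) (abs_real_inner_le_norm _ _) 3
  · intro x x'
    obtain ⟨w, hw0, hw1, hw⟩ := hdiff x x'
    rw [hw]
    refine (norm_add_le _ _).trans ?_
    rw [norm_smul, Real.norm_eq_abs, abs_of_pos hk, add_mul]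
    apply add_le_add_right
    refine (norm_sum_le _ _).trans ?_
    rw [Finset.sum_mul]
    apply Finset.sum_le_sum
    intro k _
    rw [norm_smul, Real.norm_eq_abs, abs_mul, abs_of_nonneg (hw0 k)]
    calc w k * |inner ℝ (u k) (x - x')| * ‖u k‖ ≤ c k * (‖u k‖ * ‖x - x'‖) * ‖u k‖ := by
          gcongr
          · exact hc k
          · exact hw1 k
          · exact abs_real_inner_le_norm _ _
      _ = _ := by ring
  · intro h hh h1 x x'
    obtain ⟨w, hw0, hw1, hw⟩ := hdiff x x'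
    set v := x - x' with hv
    set Mv := ∑ k, (w k * inner ℝ (u k) v) • u k with hMvdef
    set S := ∑ k, c k * ‖u k‖ ^ 2 with hSdef
    have hb1 := hMv w hw0 hw1 v
    rw [← hMvdef] at hb1
    have hin : inner ℝ v Mv = ∑ k, w k * (inner ℝ (u k) v) ^ 2 := by
      rw [hMvdef, inner_sum]
      apply Finset.sum_congr rfl
      intro k _
      rw [inner_smul_right, real_inner_comm]
      ring
    have hin0 : 0 ≤ inner ℝ v Mv := by
      rw [hin]
      exact Finset.sum_nonneg fun k _ => mul_nonneg (hw0 k) (by positivity)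
    rw [← hin] at hb1
    have ha : 0 ≤ 1 - kap * h := by nlinarith
    have hhS : h * S ≤ 1 - kap * h := by nlinarith
    have e : (x - h • DsS kap y b c u τ x) - (x' - h • DsS kap y b c u τ x') =
        (1 - kap * h) • v - h • Mv := by
      have : (x - h • DsS kap y b c u τ x) - (x' - h • DsS kap y b c u τ x') =
        v - h • (DsS kap y b c u τ x - DsS kap y b c u τ x') := by
        rw [hv, smul_sub]; abel
      rw [this, hw, smul_add, smul_smul, sub_smul, one_smul, mul_comm kap h]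
      abel
    rw [e]
    apply abs_le_of_sq_le_sq' _ (by positivity) |>.2
    rw [norm_sub_sq_real, norm_smul, norm_smul, inner_smul_left, inner_smul_right, mul_pow, mul_pow,
      mul_pow, Real.norm_eq_abs, Real.norm_eq_abs, sq_abs, sq_abs, conj_trivial]
    have h5 : h ^ 2 * ‖Mv‖ ^ 2 ≤ h ^ 2 * (S * inner ℝ v Mv) :=
      mul_le_mul_of_nonneg_left hb1 (by positivity)
    have h6 : h ^ 2 * (S * inner ℝ v Mv) ≤ h * (1 - kap * h) * inner ℝ v Mv := by
      have : h ^ 2 * (S * inner ℝ v Mv) = h * (h * S) * inner ℝ v Mv := by ring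
      rw [this]
      apply mul_le_mul_of_nonneg_right _ hin0
      exact mul_le_mul_of_nonneg_left hhS hh
    have h7 : 0 ≤ h * (1 - kap * h) * inner ℝ v Mv := by positivity
    nlinarith
  · -- moments
    have hb : ∀ x : E, Real.exp (-VsS kap y b c u τ x) * (1 + ‖x‖) ^ 4 ≤
        (Real.exp (kap / 2 * ‖y‖ ^ 2 + 4 * ‖b‖ ^ 2 / kap) * (8 + 16 / (kap / 16) ^ 2)) *
          Real.exp (-(kap / 8) * ‖x‖ ^ 2) := by
      intro x
      have h1 : 0 ≤ ∑ k, c k * sp (inner ℝ (u k) x - τ k) :=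
        Finset.sum_nonneg fun k _ => mul_nonneg (hc k) (sp_nonneg _)
      have h2 : ‖x‖ ^ 2 / 2 - ‖y‖ ^ 2 ≤ ‖x - y‖ ^ 2 := by
        have h3 : ‖x‖ ≤ ‖x - y‖ + ‖y‖ := by
          have := norm_add_le (x - y) y
          rwa [sub_add_cancel] at this
        have h4 : ‖x‖ ^ 2 ≤ (‖x - y‖ + ‖y‖) ^ 2 := pow_le_pow_left₀ (norm_nonneg _) h3 2
        nlinarith [sq_nonneg (‖x - y‖ - ‖y‖)]
      have h3 : -(‖b‖ * ‖x‖) ≤ inner ℝ b x := by
        have := abs_real_inner_le_norm b x
        exact (abs_le.mp this).1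
      have h4 : ‖b‖ * ‖x‖ ≤ kap / 16 * ‖x‖ ^ 2 + 4 * ‖b‖ ^ 2 / kap := by
        have : kap / 16 * ‖x‖ ^ 2 + 4 * ‖b‖ ^ 2 / kap - ‖b‖ * ‖x‖ =
          (kap / 4 * ‖x‖ - 2 * ‖b‖) ^ 2 / kap := by
          field_simp
          ring
        have h5 : 0 ≤ (kap / 4 * ‖x‖ - 2 * ‖b‖) ^ 2 / kap := by positivity
        linarith
      have h5 : -VsS kap y b c u τ x ≤ (kap / 2 * ‖y‖ ^ 2 + 4 * ‖b‖ ^ 2 / kap) -
          kap / 4 * ‖x‖ ^ 2 + kap / 16 * ‖x‖ ^ 2 := by
        unfold VsS
        nlinarith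
      have h6 := growth_bound (s := kap / 16) (r := ‖x‖) (by positivity) (norm_nonneg _)
      calc Real.exp (-VsS kap y b c u τ x) * (1 + ‖x‖) ^ 4
          ≤ Real.exp ((kap / 2 * ‖y‖ ^ 2 + 4 * ‖b‖ ^ 2 / kap) -
            kap / 4 * ‖x‖ ^ 2 + kap / 16 * ‖x‖ ^ 2) *
            ((8 + 16 / (kap / 16) ^ 2) * Real.exp (kap / 16 * ‖x‖ ^ 2)) :=
            mul_le_mul (Real.exp_le_exp.mpr h5) h6 (by positivity) (Real.exp_pos _).le
        _ = _ := by
            rw [show (kap / 2 * ‖y‖ ^ 2 + 4 * ‖b‖ ^ 2 / kap) -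
              kap / 4 * ‖x‖ ^ 2 + kap / 16 * ‖x‖ ^ 2 = (kap / 2 * ‖y‖ ^ 2 + 4 * ‖b‖ ^ 2 / kap) +
              (-(kap / 8) * ‖x‖ ^ 2 - kap / 16 * ‖x‖ ^ 2) by ring, Real.exp_add, Real.exp_sub]
            have := Real.exp_pos (kap / 16 * ‖x‖ ^ 2)
            field_simp
    have hint : Integrable (fun x : E =>
        (Real.exp (kap / 2 * ‖y‖ ^ 2 + 4 * ‖b‖ ^ 2 / kap) * (8 + 16 / (kap / 16) ^ 2)) *
          Real.exp (-(kap / 8) * ‖x‖ ^ 2)) :=
      (gexp_integrable (by positivity : 0 < kap / 8)).const_mul _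
    refine lt_of_le_of_lt (lintegral_mono fun x => ENNReal.ofReal_le_ofReal (hb x)) ?_
    exact hint.lintegral_lt_top

end pot

end Pool.Agent.Lib.MP_6d896a_gt.Few
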