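import Mathlib
import Pool.Agent.Lib.MP_6d896a_gt.Posterior
import Pool.Agent.Lib.MP_6d896a_gt.Few.SoftShift

/-!
`L^1` Poincare inequality for a Gaussian measure restricted to a polytope.
-/

set_option autoImplicit false

namespace Pool.Agent.Lib.MP_6d896a_gt.Few

open MeasureTheory ProbabilityTheory Real Filter Topology
open scoped ENNReal

variable {n : ℕ} {K : Type*} [Fintype K]

/-- a polytope -/
def PP (u : K → EuclideanSpace ℝ (Fin n)) : Set (EuclideanSpace ℝ (Fin n)) := {x | ∀ k, (inner ℝ (u k) x : ℝ) ≤ 1}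

/-- smooth penalisation -/
noncomputable def SP (u : K → EuclideanSpace ℝ (Fin n)) (β : ℝ) (x : EuclideanSpace ℝ (Fin n)) : ℝ :=
  ∏ k, (1 + Real.exp (β * ((inner ℝ (u k) x : ℝ) - 1)))⁻¹

/-- the indicator -/
noncomputable def WP (u : K → EuclideanSpace ℝ (Fin n)) (x : EuclideanSpace ℝ (Fin n)) : ℝ := Set.indicator (PP u) (fun _ => 1) x

omit [Fintype K] in
lemma PP_closed (u : K → EuclideanSpace ℝ (Fin n)) : IsClosed (PP u) := by
  have : PP u = ⋂ k, {x : EuclideanSpace ℝ (Fin n) | (inner ℝ (u k) x : ℝ) ≤ 1} := by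
    ext x; simp [PP]
  rw [this]
  exact isClosed_iInter fun k => isClosed_le (continuous_const.inner continuous_id) continuous_const

omit [Fintype K] in
lemma WP_nonneg (u : K → EuclideanSpace ℝ (Fin n)) (x : EuclideanSpace ℝ (Fin n)) : 0 ≤ WP u x :=
  Set.indicator_nonneg (fun _ _ => zero_le_one) x

omit [Fintype K] in
lemma WP_le (u : K → EuclideanSpace ℝ (Fin n)) (x : EuclideanSpace ℝ (Fin n)) : WP u x ≤ 1 :=
  Set.indicator_le_self' (s := PP u) (f := fun _ : EuclideanSpace ℝ (Fin n) => (1 : ℝ)) (fun _ _ => zero_le_one) x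

omit [Fintype K] in
lemma WP_measurable (u : K → EuclideanSpace ℝ (Fin n)) : Measurable (WP u) :=
  measurable_const.indicator (PP_closed u).measurableSet

lemma SP_pos (u : K → EuclideanSpace ℝ (Fin n)) (β : ℝ) (x : EuclideanSpace ℝ (Fin n)) : 0 < SP u β x :=
  Finset.prod_pos fun k _ => by positivity

lemma SP_le (u : K → EuclideanSpace ℝ (Fin n)) (β : ℝ) (x : EuclideanSpace ℝ (Fin n)) : SP u β x ≤ 1 := by
  apply Finset.prod_le_one
  · intro k _; positivity
  · intro k _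
    apply inv_le_one_of_one_le₀
    have := Real.exp_pos (β * ((inner ℝ (u k) x : ℝ) - 1))
    linarith

lemma SP_continuous (u : K → EuclideanSpace ℝ (Fin n)) (β : ℝ) : Continuous (SP u β) := by
  unfold SP
  apply continuous_finsetProd
  intro k _
  apply Continuous.inv₀
  · fun_prop
  · intro x; positivity

lemma exp_neg_VsS (u : K → EuclideanSpace ℝ (Fin n)) (kap : ℝ) (y : EuclideanSpace ℝ (Fin n)) (β : ℝ) (x : EuclideanSpace ℝ (Fin n)) :
    Real.exp (-VsS kap y 0 (fun _ => 1) (fun k => β • u k) (fun _ => β) x) =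
      Real.exp (-(kap / 2) * ‖x - y‖ ^ 2) * SP u β x := by
  unfold VsS SP
  have e4 : ∀ t : ℝ, Real.exp (-sp t) = (1 + Real.exp t)⁻¹ := by
    intro t
    unfold sp
    rw [← Real.log_inv, Real.exp_log (by positivity)]
  rw [inner_zero_left, add_zero, neg_add, Real.exp_add, ← Finset.sum_neg_distrib, Real.exp_sum]
  congr 1
  · congr 1; ring
  · apply Finset.prod_congr rfl
    intro k _
    rw [one_mul, e4, inner_smul_left, conj_trivial]
    congr 3
    ring

lemma hyper_null (u : EuclideanSpace ℝ (Fin n)) : ∀ᵐ x ∂(volume : Measure (EuclideanSpace ℝ (Fin n))), (inner ℝ u x : ℝ) ≠ 1 := by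
  by_cases hu : u = 0
  · subst hu
    apply ae_of_all
    intro x
    rw [inner_zero_left]
    norm_num
  let s : AffineSubspace ℝ (EuclideanSpace ℝ (Fin n)) :=
    { carrier := {x | (inner ℝ u x : ℝ) = 1}
      smul_vsub_vadd_mem' := by
        intro c p1 p2 p3 h1 h2 h3
        simp only [Set.mem_ofPred_eq] at *
        rw [vsub_eq_sub, vadd_eq_add, inner_add_right, inner_smul_right, inner_sub_right, h1, h2, h3]
        ring }
  have hs : s ≠ ⊤ := by
    intro h
    have h1 : (0 : EuclideanSpace ℝ (Fin n)) ∈ s := by rw [h]; trivial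
    have h2 : (inner ℝ u (0 : EuclideanSpace ℝ (Fin n)) : ℝ) = 1 := h1
    rw [inner_zero_right] at h2
    norm_num at h2
  have h3 := Measure.addHaar_affineSubspace (volume : Measure (EuclideanSpace ℝ (Fin n))) s hs
  exact measure_eq_zero_iff_ae_notMem.mp h3

lemma SP_tendsto (u : K → EuclideanSpace ℝ (Fin n)) {x : EuclideanSpace ℝ (Fin n)} (hx : ∀ k, (inner ℝ (u k) x : ℝ) ≠ 1) :
    Tendsto (fun k : ℕ => SP u (k : ℝ) x) atTop (𝓝 (WP u x)) := by
  classical
  have hfac : ∀ p : K, Tendsto (fun k : ℕ => (1 + Real.exp ((k : ℝ) * ((inner ℝ (u p) x : ℝ) - 1)))⁻¹)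
      atTop (𝓝 (if (inner ℝ (u p) x : ℝ) ≤ 1 then 1 else 0)) := by
    intro p
    rcases lt_or_gt_of_ne (hx p) with h | h
    · rw [if_pos h.le]
      have h1 : Tendsto (fun k : ℕ => (k : ℝ) * ((inner ℝ (u p) x : ℝ) - 1)) atTop atBot :=
        tendsto_natCast_atTop_atTop.atTop_mul_const_of_neg (by linarith)
      have h2 := (Real.tendsto_exp_atBot.comp h1).const_add 1
      rw [add_zero] at h2
      have h3 := h2.inv₀ one_ne_zero
      rw [inv_one] at h3
      exact h3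
    · rw [if_neg (not_le.mpr h)]
      have h1 : Tendsto (fun k : ℕ => (k : ℝ) * ((inner ℝ (u p) x : ℝ) - 1)) atTop atTop :=
        tendsto_natCast_atTop_atTop.atTop_mul_const (by linarith)
      have h2 : Tendsto (fun k : ℕ => 1 + Real.exp ((k : ℝ) * ((inner ℝ (u p) x : ℝ) - 1)))
          atTop atTop := tendsto_atTop_add_const_left _ _ (Real.tendsto_exp_atTop.comp h1)
      exact tendsto_inv_atTop_zero.comp h2
  have hprod : Tendsto (fun k : ℕ => SP u (k : ℝ) x) atTop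
      (𝓝 (∏ p : K, if (inner ℝ (u p) x : ℝ) ≤ 1 then 1 else (0 : ℝ))) := by
    unfold SP
    apply tendsto_finsetProd
    intro p _
    exact hfac p
  have hval : (∏ p : K, if (inner ℝ (u p) x : ℝ) ≤ 1 then 1 else (0 : ℝ)) = WP u x := by
    unfold WP
    rw [Set.indicator_apply]
    by_cases hxC : x ∈ PP u
    · rw [if_pos hxC]
      apply Finset.prod_eq_one
      intro p _
      rw [if_pos (hxC p)]
    · rw [if_neg hxC]
      have : ∃ i, ¬ (inner ℝ (u i) x : ℝ) ≤ 1 := by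
        by_contra hcon
        push Not at hcon
        exact hxC fun i => hcon i
      obtain ⟨i, hlt⟩ := this
      apply Finset.prod_eq_zero (Finset.mem_univ i)
      rw [if_neg hlt]
  rwa [hval] at hprod

/-- convergence of weighted integrals -/
lemma int_tendstoP (u : K → EuclideanSpace ℝ (Fin n)) {s : ℝ} (hs : 0 < s) (y : EuclideanSpace ℝ (Fin n))
    (F : ℕ → EuclideanSpace ℝ (Fin n) → ℝ) (F0 : EuclideanSpace ℝ (Fin n) → ℝ) (C : ℝ)
    (hFm : ∀ k, AEStronglyMeasurable (F k) volume)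
    (hF : ∀ k x, |F k x| ≤ C) (hlim : ∀ x, Tendsto (fun k => F k x) atTop (𝓝 (F0 x))) :
    Tendsto (fun k : ℕ => ∫ x, F k x * (Real.exp (-s * ‖x - y‖ ^ 2) * SP u (k : ℝ) x))
      atTop (𝓝 (∫ x, F0 x * (Real.exp (-s * ‖x - y‖ ^ 2) * WP u x))) := by
  apply tendsto_integral_of_dominated_convergence
    (fun x => C * Real.exp (-s * ‖x - y‖ ^ 2))
  · intro k
    apply (hFm k).mul
    have h2 := SP_continuous u (k : ℝ)
    have : Continuous (fun x : EuclideanSpace ℝ (Fin n) => Real.exp (-s * ‖x - y‖ ^ 2) * SP u (k : ℝ) x) := by fun_prop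
    exact this.aestronglyMeasurable
  · apply Integrable.const_mul
    exact (gexp_integrable hs).comp_sub_right y
  · intro k
    apply ae_of_all
    intro x
    have h3 := SP_pos u (k : ℝ) x
    have h4 := SP_le u (k : ℝ) x
    have h5 := Real.exp_pos (-s * ‖x - y‖ ^ 2)
    rw [Real.norm_eq_abs, abs_mul, abs_of_pos (by positivity :
      0 < Real.exp (-s * ‖x - y‖ ^ 2) * SP u (k : ℝ) x)]
    apply mul_le_mul (hF k x) _ (by positivity) (le_trans (abs_nonneg _) (hF k x))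
    calc Real.exp (-s * ‖x - y‖ ^ 2) * SP u (k : ℝ) x
        ≤ Real.exp (-s * ‖x - y‖ ^ 2) * 1 := by gcongr
      _ = _ := by ring
  · have hall : ∀ᵐ x ∂(volume : Measure (EuclideanSpace ℝ (Fin n))), ∀ k, (inner ℝ (u k) x : ℝ) ≠ 1 := by
      rw [ae_all_iff]
      exact fun k => hyper_null (u k)
    filter_upwards [hall] with x hx
    have h1 := (SP_tendsto u hx).const_mul (Real.exp (-s * ‖x - y‖ ^ 2))
    exact (hlim x).mul h1

/-- the `L^1` Poincare inequality for a Gaussian restricted to a polytope -/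
theorem post_L1P (u : K → EuclideanSpace ℝ (Fin n)) {kap : ℝ} (hk : 0 < kap)
    (y : EuclideanSpace ℝ (Fin n)) {g : EuclideanSpace ℝ (Fin n) → ℝ} {l l2 : ℝ} (hl : 0 ≤ l)
    (hl2 : 0 ≤ l2) (hg : ContDiff ℝ 1 g) (hg1 : ∀ x, |g x| ≤ 1)
    (hgl : ∀ x y, |g x - g y| ≤ l * ‖x - y‖)
    (hg2 : ∀ x y, ‖fderiv ℝ g x - fderiv ℝ g y‖ ≤ l2 * ‖x - y‖) :
    ∫ x, (∫ x', |g x' - g x| * (Real.exp (-(kap / 2) * ‖x' - y‖ ^ 2) * WP u x')) *
        (Real.exp (-(kap / 2) * ‖x - y‖ ^ 2) * WP u x) ≤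
      π / 2 * Real.sqrt (1 / kap) * ((∫ x, Real.exp (-(kap / 2) * ‖x - y‖ ^ 2) * WP u x) *
        ∫ x, ‖fderiv ℝ g x‖ * (Real.exp (-(kap / 2) * ‖x - y‖ ^ 2) * WP u x)) := by
  have hs : 0 < kap / 2 := by positivity
  have hbd : ∀ x, ‖fderiv ℝ g x‖ ≤ l := by
    intro x
    have : LipschitzWith (Real.toNNReal l) g := by
      apply LipschitzWith.of_dist_le_mul
      intro a b
      rw [Real.dist_eq, dist_eq_norm, Real.coe_toNNReal l hl]
      exact hgl a b
    have h4 := norm_fderiv_le_of_lipschitz ℝ (x₀ := x) this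
    rwa [Real.coe_toNNReal l hl] at h4
  have hgc := hg.continuous
  have hfc : Continuous (fun x => ‖fderiv ℝ g x‖) := (hg.continuous_fderiv (by norm_num)).norm
  have habs : ∀ x x', |(|g x' - g x|)| ≤ 2 := by
    intro x x'
    rw [abs_abs]
    have h1 := abs_le.mp (hg1 x)
    have h2 := abs_le.mp (hg1 x')
    rw [abs_le]
    constructor <;> linarith
  -- the inequality for each k
  have hkey : ∀ k : ℕ, ∫ x, (∫ x', |g x' - g x| * (Real.exp (-(kap / 2) * ‖x' - y‖ ^ 2) *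
        SP u (k : ℝ) x')) * (Real.exp (-(kap / 2) * ‖x - y‖ ^ 2) * SP u (k : ℝ) x) ≤
      π / 2 * Real.sqrt (1 / kap) *
      ((∫ x, 1 * (Real.exp (-(kap / 2) * ‖x - y‖ ^ 2) * SP u (k : ℝ) x)) *
        ∫ x, ‖fderiv ℝ g x‖ * (Real.exp (-(kap / 2) * ‖x - y‖ ^ 2) * SP u (k : ℝ) x)) := by
    intro k
    have hP := soft_potS hk y (0 : EuclideanSpace ℝ (Fin n)) (c := fun _ : K => (1 : ℝ)) (fun _ => zero_le_one)
      (fun j => (k : ℝ) • u j) (fun _ => (k : ℝ))
    set V := VsS kap y (0 : EuclideanSpace ℝ (Fin n)) (fun _ : K => (1 : ℝ)) (fun j => (k : ℝ) • u j) (fun _ => (k : ℝ))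
      with hV
    have h1 := pot_L1 hP hl hl2 hg hgl hg2
    rw [tgtN_integral hP, tgtN_integral hP] at h1
    simp only [tgtN_integral hP] at h1
    have hfin := tgt_finite hP
    have hZ : 0 < (tgt V).real Set.univ := by
      rw [measureReal_def]
      exact ENNReal.toReal_pos (tgt_univ_pos hP) (measure_ne_top _ _)
    set Z := (tgt V).real Set.univ with hZdef
    rw [integral_const_mul] at h1
    have h2 := mul_le_mul_of_nonneg_left h1 (by positivity : 0 ≤ Z ^ 2)
    have e1 : Z ^ 2 * (Z⁻¹ * (Z⁻¹ * ∫ x, ∫ y, |g y - g x| ∂(tgt V) ∂(tgt V))) =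
      ∫ x, ∫ y, |g y - g x| ∂(tgt V) ∂(tgt V) := by
      field_simp
    have e2 : Z ^ 2 * (π / 2 * Real.sqrt (1 / kap) * (Z⁻¹ * ∫ x, ‖fderiv ℝ g x‖ ∂(tgt V))) =
      π / 2 * Real.sqrt (1 / kap) * (Z * ∫ x, ‖fderiv ℝ g x‖ ∂(tgt V)) := by
      field_simp
    rw [e1, e2] at h2
    have e3 : Z = ∫ x, 1 ∂(tgt V) := by simp [hZdef]
    rw [e3, integral_tgt hP.cV, integral_tgt hP.cV, integral_tgt hP.cV] at h2
    simp only [integral_tgt hP.cV] at h2
    simp only [hV, exp_neg_VsS] at h2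
    exact h2
  -- limits
  have L1 := int_tendstoP u hs y (fun _ _ => 1) (fun _ => 1) 1
    (fun k => aestronglyMeasurable_const) (by simp) (fun x => tendsto_const_nhds)
  have L2 := int_tendstoP u hs y (fun _ x => ‖fderiv ℝ g x‖) (fun x => ‖fderiv ℝ g x‖) l
    (fun k => hfc.aestronglyMeasurable) (fun k x => by rw [abs_norm]; exact hbd x)
    (fun x => tendsto_const_nhds)
  have Lin : ∀ x, Tendsto (fun k : ℕ => ∫ x', |g x' - g x| *
      (Real.exp (-(kap / 2) * ‖x' - y‖ ^ 2) * SP u (k : ℝ) x')) atTop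
      (𝓝 (∫ x', |g x' - g x| * (Real.exp (-(kap / 2) * ‖x' - y‖ ^ 2) * WP u x'))) := by
    intro x
    exact int_tendstoP u hs y (fun _ x' => |g x' - g x|) (fun x' => |g x' - g x|) 2
      (fun k => (hgc.sub continuous_const).abs.aestronglyMeasurable) (fun k x' => habs x x')
      (fun x => tendsto_const_nhds)
  have hI0 : Integrable (fun x' : EuclideanSpace ℝ (Fin n) =>
      Real.exp (-(kap / 2) * ‖x' - y‖ ^ 2)) := (gexp_integrable hs).comp_sub_right y
  have L3 := int_tendstoP u hs y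
    (fun k x => ∫ x', |g x' - g x| *
      (Real.exp (-(kap / 2) * ‖x' - y‖ ^ 2) * SP u (k : ℝ) x'))
    (fun x => ∫ x', |g x' - g x| * (Real.exp (-(kap / 2) * ‖x' - y‖ ^ 2) * WP u x'))
    (∫ x' : EuclideanSpace ℝ (Fin n), 2 * Real.exp (-(kap / 2) * ‖x' - y‖ ^ 2))
    (fun k => by
      have h2 := SP_continuous u (k : ℝ)
      have hc : Continuous (fun p : EuclideanSpace ℝ (Fin n) × EuclideanSpace ℝ (Fin n) =>
        |g p.2 - g p.1| * (Real.exp (-(kap / 2) * ‖p.2 - y‖ ^ 2) * SP u (k : ℝ) p.2)) := by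
        fun_prop
      exact (hc.stronglyMeasurable.integral_prod_right').aestronglyMeasurable)
    (fun k x => by
      rw [← Real.norm_eq_abs]
      refine norm_integral_le_of_norm_le (hI0.const_mul 2) (ae_of_all _ fun x' => ?_)
      have h3 := SP_pos u (k : ℝ) x'
      have h4 := SP_le u (k : ℝ) x'
      have h5 := Real.exp_pos (-(kap / 2) * ‖x' - y‖ ^ 2)
      rw [Real.norm_eq_abs, abs_mul, abs_of_pos (by positivity :
        0 < Real.exp (-(kap / 2) * ‖x' - y‖ ^ 2) * SP u (k : ℝ) x')]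
      apply mul_le_mul (habs x x') _ (by positivity) (by norm_num)
      calc Real.exp (-(kap / 2) * ‖x' - y‖ ^ 2) * SP u (k : ℝ) x'
          ≤ Real.exp (-(kap / 2) * ‖x' - y‖ ^ 2) * 1 := by gcongr
        _ = _ := by ring)
    Lin
  have hlim := le_of_tendsto_of_tendsto' L3
    ((L1.mul L2).const_mul (π / 2 * Real.sqrt (1 / kap))) hkey
  simpa only [one_mul] using hlim

end Pool.Agent.Lib.MP_6d896a_gt.Few
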