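import Mathlib
import Pool.Agent.Lib.MP_6d896a_gt.Few.Sec3

/-!
Exponential moments on the full cube, and the conclusion for all sections.
-/

set_option autoImplicit false

namespace Pool.Agent.Lib.MP_6d896a_gt.Few

open MeasureTheory Real Filter Topology ProbabilityTheory
open scoped ENNReal NNReal

variable {N m : ℕ}

/-- the one dimensional weight -/
noncomputable def P1 (θ t : ℝ) : ℝ → ℝ :=
  Set.indicator (Set.Icc (-1) 1) (fun y => Real.exp (θ * y - t / 2 * (y * y)))

lemma P1_nonneg (θ t y : ℝ) : 0 ≤ P1 θ t y :=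
  Set.indicator_nonneg (fun _ _ => (Real.exp_pos _).le) y

lemma P1_meas (θ t : ℝ) : Measurable (P1 θ t) := by
  apply Measurable.indicator _ measurableSet_Icc
  fun_prop

lemma P1_int (θ t : ℝ) : Integrable (P1 θ t) := by
  have h : Continuous (fun y : ℝ => Real.exp (θ * y - t / 2 * (y * y))) := by fun_prop
  exact (h.integrableOn_Icc).integrable_indicator measurableSet_Icc

lemma P1_pos (θ t : ℝ) : 0 < ∫ y, P1 θ t y := by
  rw [integral_pos_iff_support_of_nonneg (P1_nonneg θ t) (P1_int θ t)]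
  have h : Set.Icc (-1 : ℝ) 1 ⊆ Function.support (P1 θ t) := by
    intro y hy
    simp only [Function.mem_support, P1, Set.indicator_of_mem hy]
    exact (Real.exp_pos _).ne'
  refine lt_of_lt_of_le ?_ (measure_mono h)
  rw [Real.volume_Icc]
  norm_num

/-- Hoeffding's lemma for the one dimensional weight -/
lemma P1_hoeffding (θ t : ℝ) : ∃ u : ℝ, ∀ r : ℝ,
    ∫ y, Real.exp (r * (y - u)) * P1 θ t y ≤ Real.exp (r ^ 2 / 2) * ∫ y, P1 θ t y := by
  set I := ∫ y, P1 θ t y with hI
  have hIpos : 0 < I := P1_pos θ t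
  set ν : Measure ℝ := volume.withDensity (fun y => ENNReal.ofReal (P1 θ t y / I)) with hν
  have hm : Measurable (fun y => P1 θ t y / I) := (P1_meas θ t).div_const I
  have hprob : IsProbabilityMeasure ν := by
    constructor
    rw [hν, withDensity_apply _ MeasurableSet.univ, Measure.restrict_univ,
      ← ofReal_integral_eq_lintegral_ofReal ((P1_int θ t).div_const I)
        (ae_of_all _ fun y => div_nonneg (P1_nonneg θ t y) hIpos.le)]
    rw [integral_div, ← hI, div_self hIpos.ne']
    simp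
  have hae : ∀ᵐ y ∂ν, (fun y : ℝ => y) y ∈ Set.Icc (-1 : ℝ) 1 := by
    rw [hν, ae_withDensity_iff (by fun_prop)]
    refine ae_of_all _ fun y hy => ?_
    by_contra hcon
    apply hy
    have hcon' : y ∉ Set.Icc (-1 : ℝ) 1 := hcon
    simp [P1, Set.indicator_of_notMem hcon']
  have hsub := hasSubgaussianMGF_of_mem_Icc (μ := ν) (X := fun y : ℝ => y) (a := -1) (b := 1)
    (by fun_prop) hae
  refine ⟨∫ y, y ∂ν, fun r => ?_⟩
  have h1 := hsub.mgf_le r
  unfold mgf at h1
  have e1 : ∫ y, Real.exp (r * (y - ∫ z, z ∂ν)) ∂ν =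
      ∫ y, (P1 θ t y / I) * Real.exp (r * (y - ∫ z, z ∂ν)) := by
    conv_lhs => rw [hν]
    rw [integral_withDensity_eq_integral_toReal_smul (by fun_prop)
      (ae_of_all _ fun y => ENNReal.ofReal_lt_top)]
    apply integral_congr_ae (ae_of_all _ fun y => ?_)
    show (ENNReal.ofReal (P1 θ t y / I)).toReal • _ = _
    rw [ENNReal.toReal_ofReal (div_nonneg (P1_nonneg θ t y) hIpos.le), smul_eq_mul]
  have e2 : ((((‖(1 : ℝ) - (-1)‖₊ / 2) ^ 2 : ℝ≥0)) : ℝ) = 1 := by
    push_cast
    rw [Real.norm_eq_abs]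
    norm_num
  rw [e2] at h1
  have h2 : ∫ y, (P1 θ t y / I) * Real.exp (r * (y - ∫ z, z ∂ν)) ≤ Real.exp (r ^ 2 / 2) := by
    rw [← e1]
    calc _ ≤ Real.exp (1 * r ^ 2 / 2) := h1
      _ = _ := by rw [one_mul]
  have e3 : ∫ y, Real.exp (r * (y - ∫ z, z ∂ν)) * P1 θ t y =
      I * ∫ y, (P1 θ t y / I) * Real.exp (r * (y - ∫ z, z ∂ν)) := by
    rw [← integral_const_mul]
    apply integral_congr_ae (ae_of_all _ fun y => ?_)
    show _ = I * (P1 θ t y / I * _)
    field_simp
  rw [e3, mul_comm]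
  exact mul_le_mul_of_nonneg_right h2 hIpos.le

lemma W_prod (θ : Fin N → ℝ) (t : ℝ) (x : Fin N → ℝ) : W θ t x = ∏ j, P1 (θ j) t (x j) := by
  unfold W P1
  by_cases hx : x ∈ cube N
  · rw [Set.indicator_of_mem hx]
    have : ∀ j, Set.indicator (Set.Icc (-1 : ℝ) 1)
        (fun y => Real.exp (θ j * y - t / 2 * (y * y))) (x j) =
        Real.exp (θ j * x j - t / 2 * (x j * x j)) := fun j =>
      Set.indicator_of_mem (Set.mem_Icc.mpr (abs_le.mp (hx j))) _
    simp only [this]
    rw [← Real.exp_sum, dot, dot, Finset.mul_sum, ← Finset.sum_sub_distrib]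
  · rw [Set.indicator_of_notMem hx]
    have : ∃ j, ¬ |x j| ≤ 1 := by
      by_contra hcon
      push Not at hcon
      exact hx hcon
    obtain ⟨j, hj⟩ := this
    symm
    apply Finset.prod_eq_zero (Finset.mem_univ j)
    apply Set.indicator_of_notMem
    intro hcon
    exact hj (abs_le.mpr hcon)

/-- the change of variables factor does not depend on the function -/
lemma cov_all (A : (Fin N → ℝ) →ₗ[ℝ] (Fin N → ℝ))
    (hA : Function.Injective A) : ∃ d : ℝ, 0 < d ∧ ∀ g : (Fin N → ℝ) → ℝ, Measurable g →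
      ∫ v, g (A v) = d * ∫ x, g x := by
  have hdet : LinearMap.det A ≠ 0 := fun h =>
    (LinearMap.det_eq_zero_iff_ker_ne_bot.mp h) (LinearMap.ker_eq_bot.mpr hA)
  refine ⟨|(LinearMap.det A)⁻¹|, abs_pos.mpr (inv_ne_zero hdet), fun g hg => ?_⟩
  have h1 := Real.map_linearMap_volume_pi_eq_smul_volume_pi hdet
  have h2 := integral_map (μ := volume) (φ := A) (lin_cont A).measurable.aemeasurable
    (f := g) hg.aestronglyMeasurable
  rw [← h2, h1, integral_smul_measure, smul_eq_mul, ENNReal.toReal_ofReal (abs_nonneg _)]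

theorem Up_base : Up N N 1 := by
  intro A hA θ c t ht hc
  obtain ⟨d, hd, hcov⟩ := cov_all A hA
  choose u hu using fun j => P1_hoeffding (θ j) t
  refine ⟨∑ j, c j * u j, ?_⟩
  have key : ∀ r : ℝ, r ^ 2 = 1 →
      (∫ v, Real.exp (r * (dot c (A v) - ∑ j, c j * u j)) * W θ t (A v)) ≤
        2 * ∫ v, W θ t (A v) := by
    intro r hr
    have hm : Measurable (fun x => Real.exp (r * (dot c x - ∑ j, c j * u j)) * W θ t x) := by
      have := (dot_continuous c).measurable
      have := W_meas θ t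
      fun_prop
    rw [hcov _ hm, hcov _ (W_meas θ t)]
    have e1 : ∀ x, Real.exp (r * (dot c x - ∑ j, c j * u j)) * W θ t x =
        ∏ j, (Real.exp (r * c j * (x j - u j)) * P1 (θ j) t (x j)) := by
      intro x
      rw [Finset.prod_mul_distrib, ← Real.exp_sum, W_prod]
      congr 2
      rw [dot, ← Finset.sum_sub_distrib, Finset.mul_sum]
      apply Finset.sum_congr rfl
      intro j _
      ring
    simp only [e1]
    rw [integral_fintype_prod_volume_eq_prod (fun j y =>
      Real.exp (r * c j * (y - u j)) * P1 (θ j) t y)]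
    have e2 : ∫ x, W θ t x = ∏ j, ∫ y, P1 (θ j) t y := by
      simp only [W_prod]
      exact integral_fintype_prod_volume_eq_prod (fun j y => P1 (θ j) t y)
    rw [e2]
    have h1 : ∏ j, ∫ y, Real.exp (r * c j * (y - u j)) * P1 (θ j) t y ≤
        ∏ j, (Real.exp ((r * c j) ^ 2 / 2) * ∫ y, P1 (θ j) t y) := by
      apply Finset.prod_le_prod
      · intro j _
        exact integral_nonneg fun y => mul_nonneg (Real.exp_pos _).le (P1_nonneg _ _ _)
      · intro j _
        exact hu j (r * c j)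
    rw [Finset.prod_mul_distrib, ← Real.exp_sum] at h1
    have h2 : Real.exp (∑ j, (r * c j) ^ 2 / 2) ≤ 2 := by
      have e3 : ∑ j, (r * c j) ^ 2 / 2 = dot c c / 2 := by
        rw [dot, Finset.sum_div]
        apply Finset.sum_congr rfl
        intro j _
        rw [mul_pow, hr]
        ring
      rw [e3]
      have h3 : Real.exp (dot c c / 2) ≤ Real.exp (1 / 2) := Real.exp_le_exp.mpr (by linarith)
      have h4 : Real.exp (1 / 2 : ℝ) ≤ 2 := by
        have h5 : Real.exp (1 / 2 : ℝ) ^ 2 = Real.exp 1 := by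
          rw [← Real.exp_nat_mul]; norm_num
        have h6 := Real.exp_one_lt_d9
        nlinarith [Real.exp_pos (1 / 2 : ℝ)]
      linarith
    have h7 : 0 ≤ ∏ j, ∫ y, P1 (θ j) t y :=
      Finset.prod_nonneg fun j _ => (P1_pos _ _).le
    have h8 : ∏ j, ∫ y, Real.exp (r * c j * (y - u j)) * P1 (θ j) t y ≤
        2 * ∏ j, ∫ y, P1 (θ j) t y :=
      h1.trans (mul_le_mul_of_nonneg_right h2 h7)
    calc _ ≤ d * (2 * ∏ j, ∫ y, P1 (θ j) t y) := mul_le_mul_of_nonneg_left h8 hd.le
      _ = _ := by ring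
  exact ⟨key 1 (by norm_num), key (-1) (by norm_num)⟩

theorem Up_all (k n : ℕ) : Up (n + k) n ((1 / 16) ^ k) := by
  have h : ∀ j : ℕ, j ≤ k → Up (n + k) (n + k - j) ((1 / 16) ^ j) := by
    intro j
    induction j with
    | zero =>
      intro _
      have := Up_base (N := n + k)
      simpa using this
    | succ j ih =>
      intro hj
      have h1 := ih (by omega)
      have e : n + k - j = (n + k - (j + 1)) + 1 := by omega
      rw [e] at h1
      have h2 := Up_step (by omega) h1
      rw [pow_succ]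
      convert h2 using 1
      ring
  have := h k le_rfl
  rwa [Nat.add_sub_cancel] at this

end Pool.Agent.Lib.MP_6d896a_gt.Few
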