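import Mathlib
import Pool.Agent.Lib.MP_6d896a_gt.Few.SecK
import Pool.Agent.Lib.MP_6d896a_gt.Few.Sec4

/-!
Exponential moments on sections of codimension `k`, with a linear dependence on `k`.
-/

set_option autoImplicit false

namespace Pool.Agent.Lib.MP_6d896a_gt.Few

open MeasureTheory Real Filter Topology
open scoped ENNReal

variable {N m k : ℕ}

/-- supporting exponential at an interior point -/
lemma support_k {F : (Fin k → ℝ) → ℝ} (hF : LogC F) {r c : ℝ}
    (hF0 : ∀ z, 0 ≤ F z) (hr : 0 < r) (hc : 0 < c) (hpos : ∀ z : Fin k → ℝ, ‖z‖ < r → c ≤ F z) :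
    ∃ w : Fin k → ℝ, ∀ z, F z ≤ F 0 * Real.exp (dot w z) := by
  set H : Set ((Fin k → ℝ) × ℝ) := {p | 0 < F p.1 ∧ p.2 ≤ Real.log (F p.1)} with hH
  have hconv : Convex ℝ H := by
    rw [convex_iff_forall_pos]
    rintro ⟨p, p'⟩ ⟨hp1, hp2⟩ ⟨q, q'⟩ ⟨hq1, hq2⟩ a b ha hb hab
    simp only at hp1 hp2 hq1 hq2
    have h1 := hF p q b hb (by linarith)
    have ea : 1 - b = a := by linarith
    rw [ea] at h1
    have h2 : 0 < F p ^ a * F q ^ b := by positivity
    have h3 : 0 < F (a • p + b • q) := lt_of_lt_of_le h2 h1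
    refine ⟨h3, ?_⟩
    show a * p' + b * q' ≤ Real.log (F (a • p + b • q))
    have h4 := Real.log_le_log h2 h1
    rw [Real.log_mul (by positivity) (by positivity), Real.log_rpow hp1, Real.log_rpow hq1] at h4
    nlinarith
  have hF00 : 0 < F 0 := lt_of_lt_of_le hc (hpos 0 (by simpa using hr))
  have hint : (interior H).Nonempty := by
    refine ⟨(0, Real.log c - 1), ?_⟩
    rw [mem_interior]
    refine ⟨(Metric.ball 0 r) ×ˢ Set.Iio (Real.log c), ?_, Metric.isOpen_ball.prod isOpen_Iio, ?_⟩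
    · rintro ⟨z, y⟩ ⟨hz, hy⟩
      have hz' : ‖z‖ < r := by simpa using hz
      have h1 := hpos z hz'
      have hy' : y < Real.log c := hy
      refine ⟨lt_of_lt_of_le hc h1, ?_⟩
      exact hy'.le.trans (Real.log_le_log hc h1)
    · refine ⟨by simpa using hr, ?_⟩
      show Real.log c - 1 < Real.log c
      linarith
  have hnot : ((0 : Fin k → ℝ), Real.log (F 0)) ∉ interior H := by
    intro h
    rw [mem_interior_iff_mem_nhds] at h
    have hc0 : Continuous (fun y : ℝ => ((0 : Fin k → ℝ), y)) := by fun_prop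
    have h1 : ∀ᶠ y in 𝓝 (Real.log (F 0)), ((0 : Fin k → ℝ), y) ∈ H :=
      hc0.continuousAt.tendsto h
    have h2 : ∀ᶠ y in 𝓝[>] (Real.log (F 0)), ((0 : Fin k → ℝ), y) ∈ H :=
      h1.filter_mono nhdsWithin_le_nhds
    obtain ⟨y, hy1, hy2⟩ := (h2.and self_mem_nhdsWithin).exists
    have hy3 : Real.log (F 0) < y := hy2
    have hy4 : y ≤ Real.log (F 0) := hy1.2
    linarith
  obtain ⟨f, hf0, hf⟩ := geometric_hahn_banach_of_nonempty_interior_point hconv hnot hint
  set φ : (Fin k → ℝ) →ₗ[ℝ] ℝ := f.toLinearMap ∘ₗ LinearMap.inl ℝ (Fin k → ℝ) ℝ with hφ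
  set β : ℝ := f (0, 1) with hβ
  have hfe : ∀ z y, f (z, y) = φ z + y * β := by
    intro z y
    have e : (z, y) = (z, (0 : ℝ)) + y • ((0 : Fin k → ℝ), (1 : ℝ)) := by simp
    rw [e, map_add, map_smul]
    rfl
  have hβ0 : 0 ≤ β := by
    have h1 := hf (0, Real.log (F 0) - 1) ⟨hF00, by
      show Real.log (F 0) - 1 ≤ Real.log (F 0)
      linarith⟩
    rw [hfe, hfe] at h1
    linarith
  have hβ1 : β ≠ 0 := by
    intro hβz
    apply hf0
    have h1 : ∀ z : Fin k → ℝ, ‖z‖ < r → φ z ≤ 0 := by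
      intro z hz
      have h2 := hpos z hz
      have h3 := hf (z, Real.log (F z)) ⟨lt_of_lt_of_le hc h2, le_rfl⟩
      rw [hfe, hfe, hβz, map_zero] at h3
      linarith
    have h2 : ∀ z : Fin k → ℝ, φ z = 0 := by
      intro z
      set l := r / (2 * (‖z‖ + 1)) with hl
      have hl0 : 0 < l := by positivity
      have hn : ‖l • z‖ < r := by
        rw [norm_smul, Real.norm_eq_abs, abs_of_pos hl0, hl]
        have : r / (2 * (‖z‖ + 1)) * ‖z‖ < r := by
          rw [div_mul_eq_mul_div, div_lt_iff₀ (by positivity)]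
          have := norm_nonneg z
          nlinarith
        exact this
      have h3 := h1 (l • z) hn
      have h4 := h1 (-(l • z)) (by rwa [norm_neg])
      rw [map_neg, map_smul, smul_eq_mul] at h4
      rw [map_smul, smul_eq_mul] at h3
      have h5 : l * φ z = 0 := by linarith
      rcases mul_eq_zero.mp h5 with h6 | h6
      · exact absurd h6 hl0.ne'
      · exact h6
    refine ContinuousLinearMap.ext fun p => ?_
    show f (p.1, p.2) = 0
    rw [hfe, h2, hβz]
    ring
  have hβp : 0 < β := lt_of_le_of_ne hβ0 (Ne.symm hβ1)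
  refine ⟨fun i => -φ (Pi.single i 1) / β, fun z => ?_⟩
  have hdot : dot (fun i => -φ (Pi.single i 1) / β) z = -φ z / β := by
    rw [LinearMap.pi_apply_eq_sum_univ φ z]
    unfold dot
    rw [← Finset.sum_neg_distrib, Finset.sum_div]
    apply Finset.sum_congr rfl
    intro j _
    have e : (fun i => if j = i then (1 : ℝ) else 0) = Pi.single j 1 := by
      funext i
      simp [Pi.single_apply, eq_comm]
    rw [e, smul_eq_mul]
    ring
  rw [hdot]
  rcases (hF0 z).eq_or_lt with hz | hz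
  · rw [← hz]
    positivity
  · have h1 := hf (z, Real.log (F z)) ⟨hz, le_rfl⟩
    rw [hfe, hfe, map_zero] at h1
    have h2 : Real.log (F z) ≤ Real.log (F 0) + -φ z / β := by
      have h3 : (Real.log (F z) - Real.log (F 0)) * β ≤ -φ z := by linarith
      have h4 : Real.log (F z) - Real.log (F 0) ≤ -φ z / β := by
        rw [le_div_iff₀ hβp]
        exact h3
      linarith
    calc F z = Real.exp (Real.log (F z)) := (Real.exp_log hz).symm
      _ ≤ Real.exp (Real.log (F 0) + -φ z / β) := Real.exp_le_exp.mpr h2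
      _ = _ := by rw [Real.exp_add, Real.exp_log hF00]

lemma logC_half_k {g : (Fin k → ℝ) → ℝ} (hg0 : ∀ s, 0 ≤ g s) (hgL : LogC g) (x y : Fin k → ℝ) :
    g x * g y ≤ g ((1 / 2 : ℝ) • x + (1 / 2 : ℝ) • y) ^ 2 := by
  have h := hgL x y (1 / 2) (by norm_num) (by norm_num)
  have e : (1 : ℝ) - 1 / 2 = 1 / 2 := by norm_num
  rw [e, ← Real.sqrt_eq_rpow, ← Real.sqrt_eq_rpow] at h
  have h2 := pow_le_pow_left₀ (by positivity) h 2
  rw [mul_pow, Real.sq_sqrt (hg0 x), Real.sq_sqrt (hg0 y)] at h2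
  exact h2

lemma half_int_k {g : (Fin k → ℝ) → ℝ} (hg : Integrable g) (hgm : Measurable g)
    (hg0 : ∀ s, 0 ≤ g s) (hgL : LogC g) {Cg : ℝ} (hgb : ∀ s, g s ≤ Cg) (y : Fin k → ℝ) :
    g y * ∫ s, g s ≤ 2 ^ k * ∫ s, g s ^ 2 := by
  have hg2 : Integrable (fun s => g s ^ 2) := by
    refine (hg.const_mul Cg).mono' (hgm.pow_const 2).aestronglyMeasurable (ae_of_all _ fun s => ?_)
    rw [Real.norm_eq_abs, abs_of_nonneg (sq_nonneg _), sq]
    exact mul_le_mul_of_nonneg_right (hgb s) (hg0 s)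
  have h1 : Integrable (fun z => g (z + (1 / 2 : ℝ) • y) ^ 2) := hg2.comp_add_right _
  have hsub : Integrable (fun x => g ((1 / 2 : ℝ) • x + (1 / 2 : ℝ) • y) ^ 2) :=
    h1.comp_smul (by norm_num)
  have e1 : ∫ x, g ((1 / 2 : ℝ) • x + (1 / 2 : ℝ) • y) ^ 2 = 2 ^ k * ∫ s, g s ^ 2 := by
    rw [Measure.integral_comp_smul volume (fun z => g (z + (1 / 2 : ℝ) • y) ^ 2) (1 / 2),
      integral_add_right_eq_self (fun z => g z ^ 2)]
    simp only [Module.finrank_pi, Fintype.card_fin, smul_eq_mul]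
    congr 1
    rw [abs_of_pos (by positivity), one_div, inv_pow, inv_inv]
  rw [← e1, ← integral_const_mul]
  apply integral_mono (hg.const_mul _) hsub
  intro x
  show g y * g x ≤ _
  rw [mul_comm]
  exact logC_half_k hg0 hgL x y

lemma lemLk {f g : (Fin k → ℝ) → ℝ} (hf : Integrable f) (hg : Integrable g) (hgm : Measurable g)
    (hf0 : ∀ s, 0 ≤ f s) (hg0 : ∀ s, 0 ≤ g s) (hgL : LogC g) {Cg : ℝ} (hgb : ∀ s, g s ≤ Cg)
    (hfmax : ∀ s, f s ≤ f 0) (hZ : 0 < ∫ s, f s) (h1 : ∫ s, f s ≤ 2 * ∫ s, g s)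
    (h2 : ∀ B, MeasurableSet B → (∫ s in B, g s) ^ 2 ≤ 2 * (∫ s, f s) * ∫ s in B, f s) :
    g 0 ≤ 32 * 8 ^ k * f 0 := by
  set I := ∫ s, g s with hI
  set J := ∫ s, g s ^ 2 with hJ
  set Z := ∫ s, f s with hZd
  set q : ℝ := 2 ^ k with hq
  have hq0 : 0 < q := by positivity
  have hIpos : 0 < I := by linarith
  have hg2 : Integrable (fun s => g s ^ 2) := by
    refine (hg.const_mul Cg).mono' (hgm.pow_const 2).aestronglyMeasurable (ae_of_all _ fun s => ?_)
    rw [Real.norm_eq_abs, abs_of_nonneg (sq_nonneg _), sq]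
    exact mul_le_mul_of_nonneg_right (hgb s) (hg0 s)
  set G := q * J / I with hG
  have hGle : ∀ y, g y ≤ G := by
    intro y
    rw [hG, le_div_iff₀ hIpos]
    exact half_int_k hg hgm hg0 hgL hgb y
  have hG0 : 0 < G := by
    by_contra hcon
    push Not at hcon
    have : I ≤ 0 := by
      rw [hI]
      apply integral_nonpos
      intro s
      exact (hGle s).trans hcon
    linarith
  have hJG : J = G * I / q := by
    rw [hG]; field_simp
  set B : Set (Fin k → ℝ) := {s | G / (2 * q) ≤ g s} with hB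
  have hBm : MeasurableSet B := measurableSet_le measurable_const hgm
  -- mass of the level set
  have hmass : I / (2 * q) ≤ ∫ s in B, g s := by
    have h3 : J ≤ G * (∫ s in B, g s) + G / (2 * q) * I := by
      have e1 : J = (∫ s in B, g s ^ 2) + ∫ s in Bᶜ, g s ^ 2 := (integral_add_compl hBm hg2).symm
      have h4 : ∫ s in B, g s ^ 2 ≤ G * ∫ s in B, g s := by
        rw [← integral_const_mul]
        apply setIntegral_mono hg2.integrableOn (hg.const_mul _).integrableOn
        intro s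
        show g s ^ 2 ≤ G * g s
        rw [sq]
        exact mul_le_mul_of_nonneg_right (hGle s) (hg0 s)
      have h5 : ∫ s in Bᶜ, g s ^ 2 ≤ G / (2 * q) * ∫ s in Bᶜ, g s := by
        rw [← integral_const_mul]
        apply setIntegral_mono_on hg2.integrableOn (hg.const_mul _).integrableOn hBm.compl
        intro s hs
        have hs' : g s < G / (2 * q) := not_le.mp hs
        rw [sq]
        exact mul_le_mul_of_nonneg_right hs'.le (hg0 s)
      have h6 : ∫ s in Bᶜ, g s ≤ I := setIntegral_le_integral hg (ae_of_all _ hg0)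
      have h7 : G / (2 * q) * ∫ s in Bᶜ, g s ≤ G / (2 * q) * I := by gcongr
      linarith
    rw [hJG] at h3
    have e9 : G * I / q = G * (I / (2 * q)) + G / (2 * q) * I := by
      field_simp
      ring
    rw [e9] at h3
    have h8 : G * (I / (2 * q)) ≤ G * ∫ s in B, g s := by linarith
    exact le_of_mul_le_mul_left h8 hG0
  -- volume of the level set
  have hvol : volume.real B ≤ 2 * q * I / G := by
    have h3 : G / (2 * q) * volume.real B ≤ I := by
      have h4 := mul_meas_ge_le_integral_of_nonneg (μ := volume) (ae_of_all _ hg0) hg (G / (2 * q))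
      exact h4
    rw [le_div_iff₀ hG0]
    have h4 : (2 * q) * (G / (2 * q) * volume.real B) ≤ (2 * q) * I :=
      mul_le_mul_of_nonneg_left h3 (by positivity)
    have h5 : (2 * q) * (G / (2 * q) * volume.real B) = volume.real B * G := by
      field_simp
    linarith
  have hBfin : volume B ≠ ∞ := by
    have h4 := hg.measure_ge_lt_top (μ := volume) (show 0 < G / (2 * q) by positivity)
    exact h4.ne
  have hfB : ∫ s in B, f s ≤ f 0 * (2 * q * I / G) := by
    calc ∫ s in B, f s ≤ ∫ s in B, f 0 := by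
          apply setIntegral_mono hf.integrableOn (integrableOn_const hBfin)
          exact hfmax
      _ = f 0 * volume.real B := by
          rw [setIntegral_const, smul_eq_mul, mul_comm]
      _ ≤ _ := mul_le_mul_of_nonneg_left hvol (hf0 0)
  have h9 := h2 B hBm
  have h10 : (I / (2 * q)) ^ 2 ≤ 2 * Z * (f 0 * (2 * q * I / G)) := by
    calc (I / (2 * q)) ^ 2 ≤ (∫ s in B, g s) ^ 2 := pow_le_pow_left₀ (by positivity) hmass 2
      _ ≤ 2 * Z * ∫ s in B, f s := h9
      _ ≤ _ := mul_le_mul_of_nonneg_left hfB (by positivity)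
  have h13 : I * G ≤ 16 * q ^ 3 * Z * f 0 := by
    have h11 : (I / (2 * q)) ^ 2 * (G * (4 * q ^ 2) / I) ≤
        2 * Z * (f 0 * (2 * q * I / G)) * (G * (4 * q ^ 2) / I) :=
      mul_le_mul_of_nonneg_right h10 (by positivity)
    have e1 : (I / (2 * q)) ^ 2 * (G * (4 * q ^ 2) / I) = I * G := by
      field_simp
      ring
    have e2 : 2 * Z * (f 0 * (2 * q * I / G)) * (G * (4 * q ^ 2) / I) =
        16 * q ^ 3 * Z * f 0 := by
      field_simp
      ring
    rw [e1, e2] at h11
    exact h11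
  have h14 : I * G ≤ I * (32 * q ^ 3 * f 0) := by
    have := hf0 0
    have h15 : 16 * q ^ 3 * f 0 * Z ≤ 16 * q ^ 3 * f 0 * (2 * I) :=
      mul_le_mul_of_nonneg_left h1 (by positivity)
    nlinarith
  have hq3 : q ^ 3 = 8 ^ k := by
    rw [hq, ← pow_mul, mul_comm, pow_mul]
    norm_num
  rw [hq3] at h14
  exact (hGle 0).trans (le_of_mul_le_mul_left h14 hIpos)

lemma exp_root {p : ℕ} (hp : 1 ≤ p) (x : ℝ) :
    Real.exp (x / p) ≤ 2 * (1 - 1 / p) + 2 / p * (Real.exp x / 2 ^ p) := by
  have hp0 : (0 : ℝ) < p := by exact_mod_cast hp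
  set y := Real.exp (x / p) / 2 with hy
  have hy0 : 0 < y := by positivity
  have e : y ^ p = Real.exp x / 2 ^ p := by
    rw [hy, div_pow, ← Real.exp_nat_mul]
    congr 2
    field_simp
  have h1 := one_add_mul_le_pow (show (-2 : ℝ) ≤ y - 1 by linarith) p
  rw [add_sub_cancel, e] at h1
  have h2 : y ≤ 1 - 1 / p + 1 / p * (Real.exp x / 2 ^ p) := by
    have h3 : p * y ≤ p * (1 - 1 / p + 1 / p * (Real.exp x / 2 ^ p)) := by
      have e3 : p * (1 - 1 / p + 1 / p * (Real.exp x / 2 ^ p)) =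
          p - 1 + Real.exp x / 2 ^ p := by
        field_simp
      rw [e3]
      nlinarith
    exact le_of_mul_le_mul_left h3 hp0
  have h3 : Real.exp (x / p) = 2 * y := by rw [hy]; ring
  rw [h3]
  have e4 : 2 / p * (Real.exp x / 2 ^ p) = 2 * (1 / p * (Real.exp x / 2 ^ p)) := by ring
  rw [e4]
  linarith

section comp

variable {A : (Fin m → ℝ) →ₗ[ℝ] (Fin N → ℝ)} {B : (Fin k → ℝ) →ₗ[ℝ] (Fin N → ℝ)}
  {Φ : (Fin N → ℝ) → ℝ}

/-- the coordinates in the complement -/
noncomputable def cz (B : (Fin k → ℝ) →ₗ[ℝ] (Fin N → ℝ)) (x : Fin N → ℝ) : Fin k → ℝ :=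
  fun i => dot (B (Pi.single i 1)) x

lemma cz_apply (h : Comp A B) (z : Fin k → ℝ) (v : Fin m → ℝ) : cz B (B z + A v) = z := by
  funext i
  unfold cz
  rw [h.coord]
  unfold dot
  simp [Pi.single_apply]

lemma cz_meas (B : (Fin k → ℝ) →ₗ[ℝ] (Fin N → ℝ)) : Measurable (cz B) := by
  unfold cz
  exact measurable_pi_iff.mpr fun i => (dot_continuous _).measurable

lemma indk_Cw (hΦ : Cw Φ) {S : Set (Fin k → ℝ)} (hS : MeasurableSet S) :
    Cw (fun x => Set.indicator S (fun _ => (1 : ℝ)) (cz B x) * Φ x) := by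
  apply hΦ.mul (C := 1)
  · exact (measurable_const.indicator hS).comp (cz_meas B)
  · intro x
    exact Set.indicator_nonneg (fun _ _ => zero_le_one) _
  · intro x _
    exact Set.indicator_le_self' (s := S) (f := fun _ : Fin k → ℝ => (1 : ℝ))
      (fun _ _ => zero_le_one) _

lemma setInt_slk (h : Comp A B) {S : Set (Fin k → ℝ)} (hS : MeasurableSet S) :
    ∫ z in S, slk A B Φ z =
      ∫ z, slk A B (fun x => Set.indicator S (fun _ => (1 : ℝ)) (cz B x) * Φ x) z := by
  rw [← integral_indicator hS]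
  apply integral_congr_ae (ae_of_all _ fun z => ?_)
  show S.indicator (fun s => slk A B Φ s) z =
    ∫ v, Set.indicator S (fun _ => (1 : ℝ)) (cz B (B z + A v)) * Φ (B z + A v)
  simp only [cz_apply h]
  rw [integral_const_mul]
  by_cases hs : z ∈ S
  · rw [Set.indicator_of_mem hs, Set.indicator_of_mem hs, one_mul]
    rfl
  · rw [Set.indicator_of_notMem hs, Set.indicator_of_notMem hs, zero_mul]

lemma slk_shift (h : Comp A B) (θ : Fin N → ℝ) (t r : ℝ) (w z : Fin k → ℝ) :
    slk A B (W (θ + r • B w) t) z = Real.exp (r * dot w z) * slk A B (W θ t) z := by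
  unfold slk
  rw [← integral_const_mul]
  apply integral_congr_ae (ae_of_all _ fun v => ?_)
  show W (θ + r • B w) t (B z + A v) = Real.exp (r * dot w z) * W θ t (B z + A v)
  rw [← W_shift, h.coord]

lemma W_low (θ : Fin N → ℝ) {t : ℝ} (ht : 0 ≤ t) {x : Fin N → ℝ} (hx : x ∈ cube N) :
    Real.exp (-(∑ j, |θ j|) - t / 2 * N) ≤ W θ t x := by
  unfold W
  rw [Set.indicator_of_mem hx]
  apply Real.exp_le_exp.mpr
  have h1 := (abs_le.mp (dot_abs_cube θ hx)).1
  have h2 := cube_dot hx
  have h3 : t / 2 * dot x x ≤ t / 2 * N := by gcongr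
  linarith

lemma slk_low (h : Comp A B) (θ : Fin N → ℝ) {t : ℝ} (ht : 0 ≤ t) :
    ∃ r : ℝ, 0 < r ∧ ∃ c : ℝ, 0 < c ∧ ∀ z : Fin k → ℝ, ‖z‖ < r → c ≤ slk A B (W θ t) z := by
  have hAc := lin_cont A
  have hBc := lin_cont B
  have hU : IsOpen {p : (Fin k → ℝ) × (Fin m → ℝ) | ‖B p.1 + A p.2‖ < 1} := by
    have : Continuous (fun p : (Fin k → ℝ) × (Fin m → ℝ) => ‖B p.1 + A p.2‖) := by fun_prop
    exact isOpen_lt this continuous_const
  obtain ⟨r, hr, hball⟩ := Metric.isOpen_iff.mp hU (0, 0) (by simp)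
  refine ⟨r, hr, Real.exp (-(∑ j, |θ j|) - t / 2 * N) *
    volume.real (Metric.ball (0 : Fin m → ℝ) r), ?_, ?_⟩
  · have : 0 < volume.real (Metric.ball (0 : Fin m → ℝ) r) :=
      ENNReal.toReal_pos (Metric.measure_ball_pos _ _ hr).ne' measure_ball_lt_top.ne
    positivity
  intro z hz
  have hcube : ∀ v ∈ Metric.ball (0 : Fin m → ℝ) r, B z + A v ∈ cube N := by
    intro v hv
    have hv' : ‖v‖ < r := by simpa using hv
    have h1 : (z, v) ∈ Metric.ball ((0 : Fin k → ℝ), (0 : Fin m → ℝ)) r := by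
      rw [Metric.mem_ball, Prod.dist_eq]
      simp only [dist_zero_right]
      exact max_lt hz hv'
    have h2 : ‖B z + A v‖ < 1 := hball h1
    intro j
    exact (norm_le_pi_norm _ j).trans h2.le
  have hi : Integrable (fun v => W θ t (B z + A v)) := (W_Cw θ ht).int A h.inj _
  calc Real.exp (-(∑ j, |θ j|) - t / 2 * N) * volume.real (Metric.ball (0 : Fin m → ℝ) r)
      = ∫ v in Metric.ball (0 : Fin m → ℝ) r, Real.exp (-(∑ j, |θ j|) - t / 2 * N) := by
        rw [setIntegral_const, smul_eq_mul, mul_comm]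
    _ ≤ ∫ v in Metric.ball (0 : Fin m → ℝ) r, W θ t (B z + A v) := by
        apply setIntegral_mono_on (integrableOn_const measure_ball_lt_top.ne) hi.integrableOn
          Metric.isOpen_ball.measurableSet
        intro v hv
        exact W_low θ ht (hcube v hv)
    _ ≤ _ := setIntegral_le_integral hi (ae_of_all _ fun v => W_nonneg _ _ _)

lemma csN (θ c : Fin N → ℝ) {t : ℝ} (ht : 0 ≤ t) (r u : ℝ) {S : Set (Fin k → ℝ)}
    (hS : MeasurableSet S) :
    (∫ x, Set.indicator S (fun _ => (1 : ℝ)) (cz B x) *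
      (Real.exp (r * (dot c x - u)) * W θ t x)) ^ 2 ≤
      (∫ x, Set.indicator S (fun _ => (1 : ℝ)) (cz B x) * W θ t x) *
        ∫ x, Real.exp (2 * r * (dot c x - u)) * W θ t x := by
  have hsq : ∀ z : Fin k → ℝ, Set.indicator S (fun _ => (1 : ℝ)) z ^ 2 =
      Set.indicator S (fun _ => (1 : ℝ)) z := by
    intro z
    by_cases hz : z ∈ S
    · rw [Set.indicator_of_mem hz]; norm_num
    · rw [Set.indicator_of_notMem hz]; norm_num
  have hex : ∀ z : ℝ, Real.exp (r * z) ^ 2 = Real.exp (2 * r * z) := by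
    intro z
    rw [← Real.exp_nat_mul]
    congr 1
    push_cast
    ring
  have key := cs_w (μ := (volume : Measure (Fin N → ℝ)))
    (P := fun y => W θ t y)
    (g1 := fun y => Set.indicator S (fun _ => (1 : ℝ)) (cz B y))
    (g2 := fun y => Real.exp (r * (dot c y - u))) (fun y => W_nonneg θ t _) ?_ ?_ ?_
  · simp only [hsq, hex] at key
    refine le_trans (le_of_eq ?_) key
    congr 1
    apply integral_congr_ae (ae_of_all _ fun y => ?_)
    show _ * (_ * _) = _ * _ * _
    ring
  · simp only [hsq]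
    exact (indk_Cw (W_Cw θ ht) hS).intN
  · simp only [hex]
    exact (expW_Cw θ c ht (2 * r) u).intN
  · have := (indk_Cw (B := B) (expW_Cw θ c ht r u) hS).intN
    refine this.congr (ae_of_all _ fun y => ?_)
    show _ * (_ * _) = _ * _ * _
    ring

end comp

theorem UpK (h : k + m = N) : Up N m (1 / (6 * k + 10)) := by
  intro A hA θ0 c t ht hc
  obtain ⟨B, hB⟩ := exists_comp k A hA h
  obtain ⟨r, hr, c0, hc0, hlow⟩ := slk_low hB θ0 ht
  obtain ⟨w, hw⟩ := support_k (slk_logC hB (W_Cw θ0 ht) (W_logC θ0 ht))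
    (fun z => slk_nonneg (W_Cw θ0 ht) z) hr hc0 hlow
  set θ := θ0 + (-1 : ℝ) • B w with hθ
  have hWA : ∀ v, W θ t (A v) = W θ0 t (A v) := by
    intro v
    rw [hθ, ← W_shift, hB.orth, mul_zero, Real.exp_zero, one_mul]
  obtain ⟨u, hu1, hu2⟩ := Up_base (N := N) LinearMap.id (fun _ _ h => h) θ c t ht hc
  simp only [LinearMap.id_coe, id_eq] at hu1 hu2
  have hmax : ∀ s, slk A B (W θ t) s ≤ slk A B (W θ t) 0 := by
    intro s
    rw [hθ, slk_shift hB, slk_shift hB, dot_zero, mul_zero, Real.exp_zero, one_mul]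
    calc Real.exp (-1 * dot w s) * slk A B (W θ0 t) s
        ≤ Real.exp (-1 * dot w s) * (slk A B (W θ0 t) 0 * Real.exp (dot w s)) :=
          mul_le_mul_of_nonneg_left (hw s) (Real.exp_pos _).le
      _ = slk A B (W θ0 t) 0 * (Real.exp (-1 * dot w s) * Real.exp (dot w s)) := by ring
      _ = _ := by
          rw [← Real.exp_add]
          have : -1 * dot w s + dot w s = 0 := by ring
          rw [this, Real.exp_zero, mul_one]
  obtain ⟨d, hd, htot⟩ := slk_total hB
  have hZN : 0 < ∫ x, W θ t x := by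
    have := W_int_pos (A := LinearMap.id) (fun _ _ h => h) θ ht
    simpa using this
  have hZ : 0 < ∫ s, slk A B (W θ t) s := by
    rw [htot _ (W_Cw θ ht)]
    positivity
  set p : ℕ := 3 * k + 5 with hp
  -- the main estimate for both signs
  have main : ∀ σ : ℝ, (∫ y, Real.exp (σ * (dot c y - u)) * W θ t y) ≤ 2 * ∫ y, W θ t y →
      (∫ y, Real.exp (-σ * (dot c y - u)) * W θ t y) ≤ 2 * ∫ y, W θ t y →
      (∫ v, Real.exp (σ * (1 / (6 * k + 10)) * (dot c (A v) - u)) * W θ0 t (A v)) ≤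
        2 * ∫ v, W θ0 t (A v) := by
    intro σ h1 h2
    set ρ := σ / 2 with hρ
    have e2 : 2 * ρ = σ := by rw [hρ]; ring
    have hgC := expW_Cw θ c ht ρ u
    obtain ⟨Cg, hCg⟩ := slk_bdd hB hgC
    have hL := lemLk (f := slk A B (W θ t))
      (g := slk A B (fun x => Real.exp (ρ * (dot c x - u)) * W θ t x))
      (slk_int hB (W_Cw θ ht)) (slk_int hB hgC) (slk_meas hgC)
      (fun s => slk_nonneg (W_Cw θ ht) s) (fun s => slk_nonneg hgC s)
      (slk_logC hB hgC (expW_logC θ c ht ρ u)) hCg hmax hZ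
      (by
        rw [htot _ (W_Cw θ ht), htot _ hgC]
        have h3 := low_mass (A := LinearMap.id) (fun _ _ h => h) θ c ht ρ u (by
          rw [e2]
          simpa using h2)
        simp only [LinearMap.id_coe, id_eq] at h3
        calc d * ∫ x, W θ t x ≤ d * (2 * ∫ x, Real.exp (ρ * (dot c x - u)) * W θ t x) :=
              mul_le_mul_of_nonneg_left h3 hd.le
          _ = _ := by ring)
      (by
        intro S hS
        rw [setInt_slk hB hS, setInt_slk hB hS, htot _ (indk_Cw hgC hS),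
          htot _ (indk_Cw (W_Cw θ ht) hS), htot _ (W_Cw θ ht)]
        have h3 := csN (B := B) θ c ht ρ u hS
        rw [e2] at h3
        have hb0 : 0 ≤ ∫ x, Set.indicator S (fun _ => (1 : ℝ)) (cz B x) * W θ t x :=
          integral_nonneg fun x => mul_nonneg
            (Set.indicator_nonneg (fun _ _ => zero_le_one) _) (W_nonneg _ _ _)
        have h4 := h3.trans (mul_le_mul_of_nonneg_left h1 hb0)
        calc _ = d ^ 2 * (∫ x, Set.indicator S (fun _ => (1 : ℝ)) (cz B x) *
              (Real.exp (ρ * (dot c x - u)) * W θ t x)) ^ 2 := by ring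
          _ ≤ d ^ 2 * ((∫ x, Set.indicator S (fun _ => (1 : ℝ)) (cz B x) * W θ t x) *
              (2 * ∫ y, W θ t y)) := mul_le_mul_of_nonneg_left h4 (sq_nonneg d)
          _ = _ := by ring)
    rw [slk_zero, slk_zero] at hL
    simp only [hWA] at hL
    have i1 : Integrable (fun v => Real.exp (ρ * (dot c (A v) - u)) * W θ0 t (A v)) :=
      (expW_Cw θ0 c ht ρ u).int0 A hA
    have i2 : Integrable (fun v => W θ0 t (A v)) := (W_Cw θ0 ht).int0 A hA
    have hp1 : 1 ≤ p := by omega
    have hp0 : (0 : ℝ) < p := by exact_mod_cast hp1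
    have hpe : (p : ℝ) = 3 * k + 5 := by rw [hp]; push_cast; ring
    have h2p : (2 : ℝ) ^ p = 32 * 8 ^ k := by
      rw [hp, pow_add, pow_mul]
      norm_num
      ring
    calc (∫ v, Real.exp (σ * (1 / (6 * k + 10)) * (dot c (A v) - u)) * W θ0 t (A v))
        ≤ ∫ v, (2 * (1 - 1 / p) * W θ0 t (A v) +
            2 / p / 2 ^ p * (Real.exp (ρ * (dot c (A v) - u)) * W θ0 t (A v))) := by
          apply integral_mono ((expW_Cw θ0 c ht (σ * (1 / (6 * k + 10))) u).int0 A hA)
            ((i2.const_mul _).add (i1.const_mul _))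
          intro v
          have h3 := exp_root hp1 (ρ * (dot c (A v) - u))
          have e3 : σ * (1 / (6 * k + 10)) * (dot c (A v) - u) =
              ρ * (dot c (A v) - u) / p := by
            rw [hρ, hpe]
            have : (3 * (k : ℝ) + 5) ≠ 0 := by positivity
            have : (6 * (k : ℝ) + 10) ≠ 0 := by positivity
            field_simp
            ring
          show Real.exp (σ * (1 / (6 * k + 10)) * (dot c (A v) - u)) * W θ0 t (A v) ≤
            2 * (1 - 1 / p) * W θ0 t (A v) +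
            2 / p / 2 ^ p * (Real.exp (ρ * (dot c (A v) - u)) * W θ0 t (A v))
          rw [e3]
          have h4 := W_nonneg θ0 t (A v)
          calc _ ≤ (2 * (1 - 1 / p) + 2 / p * (Real.exp (ρ * (dot c (A v) - u)) / 2 ^ p)) *
                W θ0 t (A v) := mul_le_mul_of_nonneg_right h3 h4
            _ = _ := by ring
      _ = 2 * (1 - 1 / p) * (∫ v, W θ0 t (A v)) +
            2 / p / 2 ^ p * ∫ v, Real.exp (ρ * (dot c (A v) - u)) * W θ0 t (A v) := by
          rw [integral_add (i2.const_mul _) (i1.const_mul _), integral_const_mul,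
            integral_const_mul]
      _ ≤ 2 * (1 - 1 / p) * (∫ v, W θ0 t (A v)) +
            2 / p / 2 ^ p * (32 * 8 ^ k * ∫ v, W θ0 t (A v)) := by
          gcongr
      _ = 2 * ∫ v, W θ0 t (A v) := by
          rw [← h2p]
          field_simp
          ring
  refine ⟨u, ?_, ?_⟩
  · have := main 1 hu1 hu2
    rw [one_mul] at this
    exact this
  · have := main (-1) hu2 (by rw [neg_neg]; exact hu1)
    rw [neg_one_mul] at this
    exact this

end Pool.Agent.Lib.MP_6d896a_gt.Few
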