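import Mathlib
import Pool.Agent.Lib.MP_6d896a_gt.Few.Loc3
import Pool.Agent.Lib.MP_6d896a_gt.Few.PostP
import Pool.Agent.Lib.MP_6d896a_gt.Few.SecU
import Pool.Agent.Lib.MP_6d896a_gt.Iso

/-!
The isoperimetric inequality for the Lebesgue measure on a central section of the cube.
-/

set_option autoImplicit false

namespace Pool.Agent.Lib.MP_6d896a_gt.Few

open MeasureTheory Real Filter Topology
open scoped ENNReal

/-- variance through an `L^1` double integral -/
lemma var_L1 {Ω : Type*} [MeasurableSpace Ω] {mm : Measure Ω} [IsFiniteMeasure mm]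
    {w g : Ω → ℝ} (hw : Wt w) (hpos : 0 < ∫ x, w x ∂mm) (hg : Measurable g)
    (hg0 : ∀ x, 0 ≤ g x) (hg1 : ∀ x, g x ≤ 1) :
    (∫ x, w x ∂mm) * VV mm w g ≤
      (1 / 2) * ∫ x, (∫ x', |g x' - g x| * w x' ∂mm) * w x ∂mm := by
  set q := ∫ x, w x ∂mm with hq
  set G := ∫ x, g x * w x ∂mm with hG
  set G2 := ∫ x, g x ^ 2 * w x ∂mm with hG2
  have hgabs : ∀ x, |g x| ≤ 1 := fun x => by
    rw [abs_le]; constructor <;> linarith [hg0 x, hg1 x]
  have hg2b : ∀ x, |g x ^ 2| ≤ 1 := fun x => by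
    rw [abs_pow]; exact pow_le_one₀ (abs_nonneg _) (hgabs x)
  have hki : Integrable w mm := hw.int1
  have i1 : Integrable (fun x => g x ^ 2 * w x) mm := hw.int (hg.pow_const 2) hg2b
  have i2 : Integrable (fun x => g x * w x) mm := hw.int hg hgabs
  have e0 : q * VV mm w g = q * G2 - G ^ 2 := by
    unfold VV
    rw [mul_sub, ← hq, ← hG, ← hG2]
    congr 1
    field_simp
  have inn : ∀ x, ∫ x', (g x' - g x) ^ 2 * w x' ∂mm = G2 - 2 * g x * G + g x ^ 2 * q := by
    intro x
    have e : ∀ x', (g x' - g x) ^ 2 * w x' = g x' ^ 2 * w x' -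
      2 * g x * (g x' * w x') + g x ^ 2 * w x' := by intro x'; ring
    simp only [e]
    have i3 := hki.const_mul (g x ^ 2)
    have i2' := i2.const_mul (2 * g x)
    have i4 : Integrable (fun x' => g x' ^ 2 * w x' -
      2 * g x * (g x' * w x')) mm := i1.sub i2'
    rw [integral_add i4 i3, integral_sub i1 i2', integral_const_mul, integral_const_mul]
  have out : ∫ x, (∫ x', (g x' - g x) ^ 2 * w x' ∂mm) * w x ∂mm =
      2 * (q * G2 - G ^ 2) := by
    simp only [inn]
    have e : ∀ x, (G2 - 2 * g x * G + g x ^ 2 * q) * w x =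
      G2 * w x - (2 * G) * (g x * w x) + q * (g x ^ 2 * w x) := by intro x; ring
    simp only [e]
    have i4 : Integrable (fun x => G2 * w x - (2 * G) * (g x * w x)) mm :=
      (hki.const_mul _).sub (i2.const_mul _)
    rw [integral_add i4 (i1.const_mul _), integral_sub (hki.const_mul _) (i2.const_mul _),
      integral_const_mul, integral_const_mul, integral_const_mul]
    show G2 * q - 2 * G * G + q * G2 = _
    ring
  have hle : ∫ x, (∫ x', (g x' - g x) ^ 2 * w x' ∂mm) * w x ∂mm ≤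
      ∫ x, (∫ x', |g x' - g x| * w x' ∂mm) * w x ∂mm := by
    have hcont2 : Measurable (fun p : Ω × Ω => |g p.2 - g p.1| * w p.2) := by
      apply Measurable.mul
      · exact ((hg.comp measurable_snd).sub (hg.comp measurable_fst)).abs
      · exact hw.meas.comp measurable_snd
    have habs1 : ∀ x x', |g x' - g x| ≤ 1 := by
      intro x x'
      rw [abs_le]
      constructor <;> linarith [hg0 x, hg0 x', hg1 x, hg1 x']
    have hin : ∀ x, Integrable (fun x' => |g x' - g x| * w x') mm := fun x =>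
      hw.int (hg.sub_const _).abs (C := 1) (fun x' => by rw [abs_abs]; exact habs1 x x')
    have hin2 : ∀ x, Integrable (fun x' => (g x' - g x) ^ 2 * w x') mm := fun x =>
      hw.int ((hg.sub_const _).pow_const 2) (C := 1)
        (fun x' => by
          rw [abs_pow]; exact pow_le_one₀ (abs_nonneg _) (habs1 x x'))
    have hmeasH : Measurable (fun x => ∫ x', |g x' - g x| * w x' ∂mm) :=
      (hcont2.stronglyMeasurable.integral_prod_right').measurable
    have hHb : ∀ x, |∫ x', |g x' - g x| * w x' ∂mm| ≤ q := by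
      intro x
      rw [← Real.norm_eq_abs]
      refine norm_integral_le_of_norm_le hki (ae_of_all _ fun x' => ?_)
      rw [Real.norm_eq_abs, abs_mul, abs_abs, abs_of_nonneg (hw.nonneg _)]
      exact mul_le_of_le_one_left (hw.nonneg _) (habs1 x x')
    apply integral_mono_of_nonneg
    · apply ae_of_all
      intro x
      simp only [Pi.zero_apply]
      apply mul_nonneg _ (hw.nonneg _)
      exact integral_nonneg fun x' => mul_nonneg (sq_nonneg _) (hw.nonneg _)
    · exact hw.int hmeasH hHb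
    · apply ae_of_all
      intro x
      apply mul_le_mul_of_nonneg_right _ (hw.nonneg _)
      apply integral_mono (hin2 x) (hin x)
      intro x'
      apply mul_le_mul_of_nonneg_right _ (hw.nonneg _)
      rw [← sq_abs]
      have h5 := habs1 x x'
      have h6 := abs_nonneg (g x' - g x)
      nlinarith
  rw [e0]
  linarith

variable {n N : ℕ}

/-- Parseval frames -/
def Pars (b : Fin N → EuclideanSpace ℝ (Fin n)) : Prop :=
  ∀ z : EuclideanSpace ℝ (Fin n), ∑ j, (inner ℝ (b j) z : ℝ) ^ 2 = ‖z‖ ^ 2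

/-- the section -/
def Kb (b : Fin N → EuclideanSpace ℝ (Fin n)) : Set (EuclideanSpace ℝ (Fin n)) :=
  {z | ∀ j, |(inner ℝ (b j) z : ℝ)| ≤ 1}

/-- the parametrisation of the section -/
noncomputable def AA (b : Fin N → EuclideanSpace ℝ (Fin n)) : (Fin n → ℝ) →ₗ[ℝ] (Fin N → ℝ) :=
  LinearMap.pi fun j => (innerSL ℝ (b j)).toLinearMap ∘ₗ
    (WithLp.linearEquiv 2 ℝ (Fin n → ℝ)).symm.toLinearMap

lemma AA_apply (b : Fin N → EuclideanSpace ℝ (Fin n)) (v : Fin n → ℝ) (j : Fin N) :
    AA b v j = inner ℝ (b j) (WithLp.toLp 2 v) := rfl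

lemma AA_dot {b : Fin N → EuclideanSpace ℝ (Fin n)} (hb : Pars b) (v : Fin n → ℝ) :
    dot (AA b v) (AA b v) = ‖(WithLp.toLp 2 v : EuclideanSpace ℝ (Fin n))‖ ^ 2 := by
  rw [← hb]
  unfold dot
  apply Finset.sum_congr rfl
  intro j _
  rw [AA_apply, sq]

lemma AA_inj {b : Fin N → EuclideanSpace ℝ (Fin n)} (hb : Pars b) :
    Function.Injective (AA b) := by
  rw [← LinearMap.ker_eq_bot, LinearMap.ker_eq_bot']
  intro v hv
  have h1 := AA_dot hb v
  rw [hv, dot_zero] at h1
  have h2 : (WithLp.toLp 2 v : EuclideanSpace ℝ (Fin n)) = 0 := by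
    rw [← norm_eq_zero]
    exact pow_eq_zero_iff (two_ne_zero) |>.mp h1.symm
  have h3 := congrArg WithLp.ofLp h2
  simpa using h3

lemma Kb_closed (b : Fin N → EuclideanSpace ℝ (Fin n)) : IsClosed (Kb b) := by
  have : Kb b = ⋂ j, {z : EuclideanSpace ℝ (Fin n) | |(inner ℝ (b j) z : ℝ)| ≤ 1} := by
    ext z; simp [Kb]
  rw [this]
  exact isClosed_iInter fun j =>
    isClosed_le (continuous_const.inner continuous_id).abs continuous_const

lemma Kb_compact {b : Fin N → EuclideanSpace ℝ (Fin n)} (hb : Pars b) : IsCompact (Kb b) := by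
  apply Metric.isCompact_of_isClosed_isBounded (Kb_closed b)
  rw [isBounded_iff_forall_norm_le]
  refine ⟨N + 1, fun z hz => ?_⟩
  have h1 := hb z
  have h2 : ∑ j, (inner ℝ (b j) z : ℝ) ^ 2 ≤ ∑ _j : Fin N, (1 : ℝ) := by
    apply Finset.sum_le_sum
    intro j _
    rw [← sq_abs]
    exact pow_le_one₀ (abs_nonneg _) (hz j)
  have h3 : ∑ _j : Fin N, (1 : ℝ) = N := by simp
  have h4 := norm_nonneg z
  have h5 : (0 : ℝ) ≤ N := Nat.cast_nonneg _
  nlinarith

/-- the clipped coordinates -/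
noncomputable def XX (b : Fin N → EuclideanSpace ℝ (Fin n)) (j : Fin N)
    (z : EuclideanSpace ℝ (Fin n)) : ℝ := max (-1) (min 1 (inner ℝ (b j) z))

lemma XX_meas (b : Fin N → EuclideanSpace ℝ (Fin n)) (j : Fin N) : Measurable (XX b j) := by
  have h : Measurable (fun z : EuclideanSpace ℝ (Fin n) => (inner ℝ (b j) z : ℝ)) :=
    (continuous_const.inner continuous_id).measurable
  exact measurable_const.max (measurable_const.min h)

lemma XX_abs (b : Fin N → EuclideanSpace ℝ (Fin n)) (j : Fin N) (z : EuclideanSpace ℝ (Fin n)) :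
    |XX b j z| ≤ 1 := by
  unfold XX
  rw [abs_le]
  constructor
  · exact le_max_left _ _
  · exact max_le (by norm_num) (min_le_left _ _)

lemma XX_eq {b : Fin N → EuclideanSpace ℝ (Fin n)} {z : EuclideanSpace ℝ (Fin n)} (hz : z ∈ Kb b)
    (j : Fin N) : XX b j z = inner ℝ (b j) z := by
  have h := abs_le.mp (hz j)
  unfold XX
  rw [min_eq_right h.2, max_eq_right h.1]

/-- the measure -/
noncomputable def mb (b : Fin N → EuclideanSpace ℝ (Fin n)) :
    Measure (EuclideanSpace ℝ (Fin n)) := volume.restrict (Kb b)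

lemma mb_fin {b : Fin N → EuclideanSpace ℝ (Fin n)} (hb : Pars b) : IsFiniteMeasure (mb b) := by
  constructor
  unfold mb
  rw [Measure.restrict_apply_univ]
  exact (Kb_compact hb).measure_lt_top

lemma mem_Kb_iff (b : Fin N → EuclideanSpace ℝ (Fin n)) (v : Fin n → ℝ) :
    (WithLp.toLp 2 v : EuclideanSpace ℝ (Fin n)) ∈ Kb b ↔ AA b v ∈ cube N := Iff.rfl

lemma conv_int (b : Fin N → EuclideanSpace ℝ (Fin n)) (F : EuclideanSpace ℝ (Fin n) → ℝ)
    (t : ℝ) (θ : Fin N → ℝ) :
    ∫ z, F z * GG (XX b) t θ z ∂(mb b) = ∫ v, F (WithLp.toLp 2 v) * W θ t (AA b v) := by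
  unfold mb
  rw [← integral_indicator (Kb_closed b).measurableSet]
  rw [← (PiLp.volume_preserving_toLp (Fin n)).integral_comp
    (MeasurableEquiv.toLp 2 (Fin n → ℝ)).measurableEmbedding]
  apply integral_congr_ae (ae_of_all _ fun v => ?_)
  show Set.indicator (Kb b) (fun z => F z * GG (XX b) t θ z) (WithLp.toLp 2 v) =
    F (WithLp.toLp 2 v) * W θ t (AA b v)
  by_cases hv : AA b v ∈ cube N
  · have hv' := (mem_Kb_iff b v).mpr hv
    rw [Set.indicator_of_mem hv']
    unfold W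
    rw [Set.indicator_of_mem hv]
    congr 1
    unfold GG
    simp only [XX_eq hv', dot, AA_apply, sq]
  · have hv' : (WithLp.toLp 2 v : EuclideanSpace ℝ (Fin n)) ∉ Kb b := fun h =>
      hv ((mem_Kb_iff b v).mp h)
    rw [Set.indicator_of_notMem hv']
    unfold W
    rw [Set.indicator_of_notMem hv, mul_zero]

lemma XG_wt (b : Fin N → EuclideanSpace ℝ (Fin n)) {t : ℝ} (ht : 0 ≤ t) (θ : Fin N → ℝ) :
    Wt (GG (XX b) t θ) := by
  refine ⟨?_, fun x => (Real.exp_pos _).le, Real.exp (∑ j, |θ j|), fun x => ?_⟩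
  · unfold GG
    apply Real.measurable_exp.comp
    apply Measurable.sub
    · exact Finset.measurable_sum _ fun j _ => (XX_meas b j).const_mul _
    · exact (Finset.measurable_sum _ fun j _ => (XX_meas b j).pow_const 2).const_mul _
  · unfold GG
    apply Real.exp_le_exp.mpr
    have h1 : ∑ j, θ j * XX b j x ≤ ∑ j, |θ j| := by
      apply Finset.sum_le_sum
      intro j _
      have h2 := XX_abs b j x
      calc θ j * XX b j x ≤ |θ j * XX b j x| := le_abs_self _
        _ = |θ j| * |XX b j x| := abs_mul _ _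
        _ ≤ |θ j| * 1 := by gcongr
        _ = _ := mul_one _
    have h2 : 0 ≤ ∑ j, XX b j x ^ 2 := Finset.sum_nonneg fun j _ => sq_nonneg _
    have h3 : 0 ≤ t / 2 * ∑ j, XX b j x ^ 2 := by positivity
    linarith

lemma GG_pos {b : Fin N → EuclideanSpace ℝ (Fin n)} (hb : Pars b) {t : ℝ} (ht : 0 ≤ t)
    (θ : Fin N → ℝ) : 0 < ∫ z, GG (XX b) t θ z ∂(mb b) := by
  have h := conv_int b (fun _ => 1) t θ
  simp only [one_mul] at h
  rw [h]
  exact W_int_pos (AA_inj hb) θ ht

lemma cosh_low (x : ℝ) : 1 + x ^ 2 / 2 ≤ Real.cosh x := by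
  have h1 : |x| / 2 ≤ Real.sinh (|x| / 2) := Real.self_le_sinh_iff.mpr (by positivity)
  have h2 : Real.cosh x = 1 + 2 * Real.sinh (|x| / 2) ^ 2 := by
    rw [← Real.cosh_abs x]
    have h3 : |x| = 2 * (|x| / 2) := by ring
    rw [h3, Real.cosh_two_mul, Real.cosh_sq]
    have h4 : 2 * (|x| / 2) / 2 = |x| / 2 := by ring
    rw [h4]
    ring
  rw [h2]
  have h5 : (|x| / 2) ^ 2 ≤ Real.sinh (|x| / 2) ^ 2 := pow_le_pow_left₀ (by positivity) h1 2
  have h6 : (|x| / 2) ^ 2 = x ^ 2 / 4 := by rw [div_pow, sq_abs]; norm_num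
  linarith

/-- covariance bound for all the weights -/
lemma H1_bound {k : ℕ} {b : Fin N → EuclideanSpace ℝ (Fin n)} (hb : Pars b) (hN : k + n = N)
    {t : ℝ} (ht : 0 ≤ t) (θ c : Fin N → ℝ) :
    VV (mb b) (GG (XX b) t θ) (fun x => ∑ j, c j * XX b j x) ≤
      (2 * (6 * k + 10) ^ 2) * (∑ j, c j ^ 2) * ∫ x, GG (XX b) t θ x ∂(mb b) := by
  have hfin := mb_fin hb
  have hmeas : ∀ c : Fin N → ℝ, Measurable (fun x => ∑ j, c j * XX b j x) := fun c =>
    Finset.measurable_sum _ fun j _ => (XX_meas b j).const_mul _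
  have hbd : ∀ (c : Fin N → ℝ) x, |∑ j, c j * XX b j x| ≤ ∑ j, |c j| := by
    intro c x
    refine (Finset.abs_sum_le_sum_abs _ _).trans (Finset.sum_le_sum fun j _ => ?_)
    rw [abs_mul]
    exact mul_le_of_le_one_right (abs_nonneg _) (XX_abs b j x)
  set Z := ∫ x, GG (XX b) t θ x ∂(mb b) with hZ
  have hZ0 : 0 < Z := GG_pos hb ht θ
  have hZW : Z = ∫ v, W θ t (AA b v) := by
    have h := conv_int b (fun _ => 1) t θ
    simpa only [one_mul] using h
  set δ : ℝ := 1 / (6 * k + 10) with hδ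
  have hk0 : (0 : ℝ) < 6 * k + 10 := by positivity
  have hδ0 : 0 < δ := by positivity
  -- unit vectors
  have unit : ∀ c : Fin N → ℝ, ∑ j, c j ^ 2 = 1 →
      VV (mb b) (GG (XX b) t θ) (fun x => ∑ j, c j * XX b j x) ≤
        (2 * (6 * k + 10) ^ 2) * Z := by
    intro c hc
    have hcc : dot c c ≤ 1 := by
      rw [← hc]
      unfold dot
      exact le_of_eq (Finset.sum_congr rfl fun j _ => (sq _).symm)
    obtain ⟨u, hu1, hu2⟩ := UpK hN (AA b) (AA_inj hb) θ c t ht hcc
    rw [← hδ] at hu1 hu2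
    refine (VV_le_moment (XG_wt b ht θ) hZ0 (hmeas c) (hbd c) u).trans ?_
    have e1 : ∫ x, (∑ j, c j * XX b j x - u) ^ 2 * GG (XX b) t θ x ∂(mb b) =
        ∫ v, (dot c (AA b v) - u) ^ 2 * W θ t (AA b v) := by
      rw [conv_int b (fun x => (∑ j, c j * XX b j x - u) ^ 2) t θ]
      apply integral_congr_ae (ae_of_all _ fun v => ?_)
      show (∑ j, c j * XX b j (WithLp.toLp 2 v) - u) ^ 2 * W θ t (AA b v) =
        (dot c (AA b v) - u) ^ 2 * W θ t (AA b v)
      by_cases hv : AA b v ∈ cube N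
      · have hv' := (mem_Kb_iff b v).mpr hv
        simp only [XX_eq hv', dot, AA_apply]
      · unfold W
        rw [Set.indicator_of_notMem hv, mul_zero, mul_zero]
    rw [e1]
    have hpt : ∀ z : ℝ, (δ * z) ^ 2 + 2 ≤ Real.exp (δ * z) + Real.exp (-δ * z) := by
      intro z
      have h1 := Real.cosh_eq (δ * z)
      have h2 := cosh_low (δ * z)
      have h3 : Real.exp (-(δ * z)) = Real.exp (-δ * z) := by congr 1; ring
      rw [h3] at h1
      linarith
    have i0 : ∀ r : ℝ, Integrable (fun v => Real.exp (r * (dot c (AA b v) - u)) *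
        W θ t (AA b v)) := fun r => (expW_Cw θ c ht r u).int0 (AA b) (AA_inj hb)
    have iW : Integrable (fun v => W θ t (AA b v)) := (W_Cw θ ht).int0 (AA b) (AA_inj hb)
    have h4 : δ ^ 2 * ∫ v, (dot c (AA b v) - u) ^ 2 * W θ t (AA b v) ≤ 2 * Z := by
      have h5 : δ ^ 2 * ∫ v, (dot c (AA b v) - u) ^ 2 * W θ t (AA b v) ≤
          ∫ v, (Real.exp (δ * (dot c (AA b v) - u)) * W θ t (AA b v) +
            Real.exp (-δ * (dot c (AA b v) - u)) * W θ t (AA b v) - 2 * W θ t (AA b v)) := by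
        rw [← integral_const_mul]
        apply integral_mono_of_nonneg
        · exact ae_of_all _ fun v => mul_nonneg (sq_nonneg _)
            (mul_nonneg (sq_nonneg _) (W_nonneg _ _ _))
        · exact ((i0 δ).add (i0 (-δ))).sub (iW.const_mul 2)
        · apply ae_of_all
          intro v
          have h6 := hpt (dot c (AA b v) - u)
          have h7 := W_nonneg θ t (AA b v)
          have h8 := mul_le_mul_of_nonneg_right h6 h7
          show δ ^ 2 * ((dot c (AA b v) - u) ^ 2 * W θ t (AA b v)) ≤ _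
          nlinarith
      have i3 : Integrable (fun v => Real.exp (δ * (dot c (AA b v) - u)) * W θ t (AA b v) +
            Real.exp (-δ * (dot c (AA b v) - u)) * W θ t (AA b v)) := (i0 δ).add (i0 (-δ))
      rw [integral_sub i3 (iW.const_mul 2), integral_add (i0 δ) (i0 (-δ)),
        integral_const_mul, ← hZW] at h5
      rw [← hZW] at hu1 hu2
      linarith
    have h9 : ∫ v, (dot c (AA b v) - u) ^ 2 * W θ t (AA b v) =
        (6 * k + 10) ^ 2 * (δ ^ 2 * ∫ v, (dot c (AA b v) - u) ^ 2 * W θ t (AA b v)) := by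
      rw [hδ]
      field_simp
    rw [h9]
    calc (6 * (k : ℝ) + 10) ^ 2 * (δ ^ 2 * ∫ v, (dot c (AA b v) - u) ^ 2 * W θ t (AA b v))
        ≤ (6 * (k : ℝ) + 10) ^ 2 * (2 * Z) := mul_le_mul_of_nonneg_left h4 (by positivity)
      _ = _ := by ring
  -- general vectors
  set s := ∑ j, c j ^ 2 with hs
  have hs0 : 0 ≤ s := Finset.sum_nonneg fun j _ => sq_nonneg _
  rcases hs0.eq_or_lt with h0 | h0
  · have hc : ∀ j, c j = 0 := by
      intro j
      have h1 := (Finset.sum_eq_zero_iff_of_nonneg (fun j _ => sq_nonneg (c j))).mp h0.symm j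
        (Finset.mem_univ j)
      exact pow_eq_zero_iff two_ne_zero |>.mp h1
    simp only [hc, zero_mul, Finset.sum_const_zero]
    unfold VV
    simp only [ne_eq, OfNat.ofNat_ne_zero, not_false_eq_true, zero_pow, zero_mul,
      integral_zero, zero_div, sub_zero]
    positivity
  · set r := Real.sqrt s with hr
    have hr0 : 0 < r := Real.sqrt_pos.mpr h0
    have hr2 : r ^ 2 = s := Real.sq_sqrt h0.le
    have h1 := unit (fun j => c j / r) (by
      simp only [div_pow]
      rw [← Finset.sum_div, hr2, ← hs, div_self h0.ne'])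
    have h2 : VV (mb b) (GG (XX b) t θ) (fun x => ∑ j, c j * XX b j x) =
        s * VV (mb b) (GG (XX b) t θ) (fun x => ∑ j, c j / r * XX b j x) := by
      have e : ∀ x, ∑ j, c j / r * XX b j x = r⁻¹ * ∑ j, c j * XX b j x := by
        intro x
        rw [Finset.mul_sum]
        apply Finset.sum_congr rfl
        intro j _
        ring
      unfold VV
      simp only [e, mul_pow]
      have e1 : ∀ x, r⁻¹ ^ 2 * (∑ j, c j * XX b j x) ^ 2 * GG (XX b) t θ x =
          r⁻¹ ^ 2 * ((∑ j, c j * XX b j x) ^ 2 * GG (XX b) t θ x) := fun x => by ring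
      have e2 : ∀ x, r⁻¹ * (∑ j, c j * XX b j x) * GG (XX b) t θ x =
          r⁻¹ * ((∑ j, c j * XX b j x) * GG (XX b) t θ x) := fun x => by ring
      simp only [e1, e2]
      rw [integral_const_mul, integral_const_mul, ← hr2]
      field_simp
    rw [h2]
    calc s * VV (mb b) (GG (XX b) t θ) (fun x => ∑ j, c j / r * XX b j x)
        ≤ s * ((2 * (6 * k + 10) ^ 2) * Z) := mul_le_mul_of_nonneg_left h1 h0.le
      _ = _ := by ring

/-- the vectors of the polytope -/
def up2 (b : Fin N → EuclideanSpace ℝ (Fin n)) : Fin N ⊕ Fin N → EuclideanSpace ℝ (Fin n) :=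
  Sum.elim b (fun j => -b j)

lemma PP_up2 (b : Fin N → EuclideanSpace ℝ (Fin n)) : PP (up2 b) = Kb b := by
  ext z
  constructor
  · intro h j
    have h1 : (inner ℝ (b j) z : ℝ) ≤ 1 := h (Sum.inl j)
    have h2 : (inner ℝ (-b j) z : ℝ) ≤ 1 := h (Sum.inr j)
    rw [inner_neg_left] at h2
    rw [abs_le]
    constructor <;> linarith
  · intro h j
    rcases j with j | j
    · exact (abs_le.mp (h j)).2
    · show (inner ℝ (-b j) z : ℝ) ≤ 1
      rw [inner_neg_left]
      have := (abs_le.mp (h j)).1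
      linarith

/-- the final inequality for one weight -/
lemma H2_bound {b : Fin N → EuclideanSpace ℝ (Fin n)} (hb : Pars b) {T : ℝ} (hT : 0 < T)
    (θ : Fin N → ℝ) {g : EuclideanSpace ℝ (Fin n) → ℝ} {l l2 : ℝ} (hl : 0 ≤ l)
    (hl2 : 0 ≤ l2) (hg : ContDiff ℝ 1 g) (hg0 : ∀ x, 0 ≤ g x) (hg1 : ∀ x, g x ≤ 1)
    (hgl : ∀ x y, |g x - g y| ≤ l * ‖x - y‖)
    (hg2 : ∀ x y, ‖fderiv ℝ g x - fderiv ℝ g y‖ ≤ l2 * ‖x - y‖) :
    VV (mb b) (GG (XX b) T θ) g ≤
      (π / 4 * Real.sqrt (1 / T)) * ∫ x, ‖fderiv ℝ g x‖ * GG (XX b) T θ x ∂(mb b) := by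
  have hfin := mb_fin hb
  set y : EuclideanSpace ℝ (Fin n) := T⁻¹ • ∑ j, θ j • b j with hy
  set κ0 : ℝ := Real.exp (T / 2 * ‖y‖ ^ 2) with hκ0
  have hκp : 0 < κ0 := Real.exp_pos _
  have hGG : ∀ z ∈ Kb b, GG (XX b) T θ z = κ0 * Real.exp (-(T / 2) * ‖z - y‖ ^ 2) := by
    intro z hz
    unfold GG
    simp only [XX_eq hz]
    rw [hb z, hκ0, ← Real.exp_add]
    congr 1
    rw [norm_sub_sq_real]
    have h1 : T * (inner ℝ z y : ℝ) = ∑ j, θ j * (inner ℝ (b j) z : ℝ) := by
      rw [hy, inner_smul_right, ← mul_assoc, mul_inv_cancel₀ hT.ne', one_mul, inner_sum]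
      apply Finset.sum_congr rfl
      intro j _
      rw [inner_smul_right, real_inner_comm]
    rw [← h1]
    ring
  have conv : ∀ F : EuclideanSpace ℝ (Fin n) → ℝ, ∫ z, F z * GG (XX b) T θ z ∂(mb b) =
      κ0 * ∫ z, F z * (Real.exp (-(T / 2) * ‖z - y‖ ^ 2) * WP (up2 b) z) := by
    intro F
    unfold mb
    rw [← integral_indicator (Kb_closed b).measurableSet, ← integral_const_mul]
    apply integral_congr_ae (ae_of_all _ fun z => ?_)
    show Set.indicator (Kb b) (fun z => F z * GG (XX b) T θ z) z =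
      κ0 * (F z * (Real.exp (-(T / 2) * ‖z - y‖ ^ 2) * WP (up2 b) z))
    unfold WP
    rw [PP_up2]
    by_cases hz : z ∈ Kb b
    · rw [Set.indicator_of_mem hz, Set.indicator_of_mem hz, hGG z hz]
      ring
    · rw [Set.indicator_of_notMem hz, Set.indicator_of_notMem hz]
      ring
  have hwt := XG_wt b hT.le θ
  have hpos := GG_pos hb hT.le θ
  have h1 := var_L1 hwt hpos hg.continuous.measurable hg0 hg1
  have hgabs : ∀ x, |g x| ≤ 1 := fun x => by
    rw [abs_le]; constructor <;> linarith [hg0 x, hg1 x]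
  have h2 := post_L1P (up2 b) hT y hl hl2 hg hgabs hgl hg2
  have e1 : ∫ x, (∫ x', |g x' - g x| * GG (XX b) T θ x' ∂(mb b)) * GG (XX b) T θ x ∂(mb b) =
      κ0 ^ 2 * ∫ x, (∫ x', |g x' - g x| * (Real.exp (-(T / 2) * ‖x' - y‖ ^ 2) *
        WP (up2 b) x')) * (Real.exp (-(T / 2) * ‖x - y‖ ^ 2) * WP (up2 b) x) := by
    rw [conv]
    have : ∀ z, ∫ x', |g x' - g z| * GG (XX b) T θ x' ∂(mb b) =
        κ0 * ∫ x', |g x' - g z| * (Real.exp (-(T / 2) * ‖x' - y‖ ^ 2) * WP (up2 b) x') :=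
      fun z => conv _
    simp only [this]
    rw [← integral_const_mul, ← integral_const_mul]
    apply integral_congr_ae (ae_of_all _ fun z => ?_)
    ring
  have e2 : ∫ x, GG (XX b) T θ x ∂(mb b) =
      κ0 * ∫ x, Real.exp (-(T / 2) * ‖x - y‖ ^ 2) * WP (up2 b) x := by
    have := conv (fun _ => 1)
    simpa only [one_mul] using this
  have e3 := conv (fun x => ‖fderiv ℝ g x‖)
  rw [e1] at h1
  set P := ∫ x, Real.exp (-(T / 2) * ‖x - y‖ ^ 2) * WP (up2 b) x with hP
  set Q := ∫ x, ‖fderiv ℝ g x‖ * (Real.exp (-(T / 2) * ‖x - y‖ ^ 2) * WP (up2 b) x) with hQ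
  rw [e3]
  rw [e2] at h1 hpos
  have h3 : κ0 * P * VV (mb b) (GG (XX b) T θ) g ≤
      κ0 * P * (π / 4 * Real.sqrt (1 / T) * (κ0 * Q)) := by
    refine h1.trans ?_
    calc _ ≤ (1 / 2) * (κ0 ^ 2 * (π / 2 * Real.sqrt (1 / T) * (P * Q))) := by
          gcongr
      _ = _ := by ring
  exact le_of_mul_le_mul_left h3 hpos

/-- isoperimetry for the section -/
theorem iso_mb {k : ℕ} {b : Fin N → EuclideanSpace ℝ (Fin n)} (hb : Pars b) (hN : k + n = N) :
    Iso (mb b) (3 * π * (6 * k + 10)) := by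
  have hfin := mb_fin hb
  have hk0 : (0 : ℝ) < 6 * k + 10 := by positivity
  apply iso_of_smooth _ (by positivity)
  intro g l l2 hl hl2 hg hg0 hg1 hgl hg2
  set K : ℝ := 2 * (6 * k + 10) ^ 2 with hK
  have hKp : 0 < K := by positivity
  set T : ℝ := 1 / (8 * K) with hT
  have hTp : 0 < T := by positivity
  set β : ℝ := π / 4 * Real.sqrt (1 / T) with hβ
  have hβe : β = π * (6 * k + 10) := by
    rw [hβ, hT, hK]
    have : (1 : ℝ) / (1 / (8 * (2 * (6 * (k : ℝ) + 10) ^ 2))) = (4 * (6 * k + 10)) ^ 2 := by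
      field_simp
      ring
    rw [this, Real.sqrt_sq (by positivity)]
    ring
  have hbd : ∀ x, ‖fderiv ℝ g x‖ ≤ l := by
    intro x
    have h : LipschitzWith (Real.toNNReal l) g := by
      apply LipschitzWith.of_dist_le_mul
      intro a c
      rw [Real.dist_eq, dist_eq_norm, Real.coe_toNNReal l hl]
      exact hgl a c
    have h2 := norm_fderiv_le_of_lipschitz ℝ h (x₀ := x)
    rwa [Real.coe_toNNReal l hl] at h2
  have hfm : Measurable (fun x => ‖fderiv ℝ g x‖) :=
    (hg.continuous_fderiv (by norm_num)).norm.measurable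
  have hgabs : ∀ x, |g x| ≤ 1 := fun x => by
    rw [abs_le]; constructor <;> linarith [hg0 x, hg1 x]
  have key := localise (mm := mb b) (X := XX b) (XX_meas b) (XX_abs b)
    (f := g) (D := fun x => ‖fderiv ℝ g x‖) hg.continuous.measurable hgabs hfm
    (fun x => norm_nonneg _) (CD := l) (fun x => by rw [abs_of_nonneg (norm_nonneg _)]; exact hbd x)
    (K := K) (T := T) (β := β) hKp hTp (by rw [hT]; field_simp; exact le_rfl)
    (by rw [hβe]; positivity)
    (fun t θ c ht _ => H1_bound hb hN ht θ c)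
    (fun θ => H2_bound hb hTp θ hl hl2 hg hg0 hg1 hgl hg2)
  rw [hβe] at key
  unfold VV at key
  simp only [mul_one, integral_const, smul_eq_mul, mul_one] at key
  set M := (mb b).real Set.univ with hM
  have hM0 : 0 < M := by
    have h := GG_pos hb le_rfl (0 : Fin N → ℝ)
    unfold GG at h
    simp only [Pi.zero_apply, zero_mul, Finset.sum_const_zero, zero_div, sub_zero, Real.exp_zero,
      integral_const, smul_eq_mul, mul_one] at h
    exact h
  have h1 := mul_le_mul_of_nonneg_left key hM0.le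
  have e1 : M * ((∫ x, g x ^ 2 ∂(mb b)) - (∫ x, g x ∂(mb b)) ^ 2 / M) =
      M * (∫ x, g x ^ 2 ∂(mb b)) - (∫ x, g x ∂(mb b)) ^ 2 := by
    field_simp
  rw [e1] at h1
  calc _ ≤ _ := h1
    _ = _ := by ring

end Pool.Agent.Lib.MP_6d896a_gt.Few
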