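import Mathlib
import Pool.Agent.Lib.MP_6d896a_gt.Few.SecF
import Pool.Agent.Lib.MP_6d896a_gt.Transport

/-!
From the section of the cube to the polytope.
-/

set_option autoImplicit false

namespace Pool.Agent.Lib.MP_6d896a_gt.Few

open MeasureTheory Real Filter Topology ProbabilityTheory
open scoped ENNReal NNReal

variable {n N : ℕ}

/-- the polytope -/
def Ka (a : Fin N → EuclideanSpace ℝ (Fin n)) : Set (EuclideanSpace ℝ (Fin n)) :=
  {x | ∀ i, |(inner ℝ (a i) x : ℝ)| ≤ 1}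

lemma Ka_inj {a : Fin N → EuclideanSpace ℝ (Fin n)} (hb : Bornology.IsBounded (Ka a))
    {x : EuclideanSpace ℝ (Fin n)} (hx : ∀ i, (inner ℝ (a i) x : ℝ) = 0) : x = 0 := by
  by_contra hne
  obtain ⟨R, hR⟩ := isBounded_iff_forall_norm_le.mp hb
  have hxn : 0 < ‖x‖ := norm_pos_iff.mpr hne
  have h1 : ((|R| + 1) / ‖x‖) • x ∈ Ka a := by
    intro i
    rw [inner_smul_right, hx i, mul_zero, abs_zero]
    exact zero_le_one
  have h2 := hR _ h1
  rw [norm_smul, Real.norm_eq_abs, abs_of_pos (by positivity), div_mul_cancel₀ _ hxn.ne'] at h2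
  have := le_abs_self R
  linarith

/-- the normalising map -/
lemma exists_T {a : Fin N → EuclideanSpace ℝ (Fin n)}
    (ha : ∀ x : EuclideanSpace ℝ (Fin n), (∀ i, (inner ℝ (a i) x : ℝ) = 0) → x = 0) :
    ∃ T : EuclideanSpace ℝ (Fin n) ≃L[ℝ] EuclideanSpace ℝ (Fin n),
      ∀ z, ∑ i, (inner ℝ (a i) (T z) : ℝ) ^ 2 = ‖z‖ ^ 2 := by
  set L : EuclideanSpace ℝ (Fin n) →ₗ[ℝ] EuclideanSpace ℝ (Fin N) :=
    (WithLp.linearEquiv 2 ℝ (Fin N → ℝ)).symm.toLinearMap ∘ₗ
      LinearMap.pi (fun i => (innerSL ℝ (a i)).toLinearMap) with hL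
  have hLa : ∀ x i, (L x) i = inner ℝ (a i) x := fun x i => rfl
  have hLn : ∀ x, ‖L x‖ ^ 2 = ∑ i, (inner ℝ (a i) x : ℝ) ^ 2 := by
    intro x
    rw [EuclideanSpace.norm_sq_eq]
    simp only [hLa, Real.norm_eq_abs, sq_abs]
  have hinj : Function.Injective L := by
    rw [← LinearMap.ker_eq_bot, LinearMap.ker_eq_bot']
    intro x hx
    apply ha
    intro i
    rw [← hLa, hx]
    rfl
  set V := LinearMap.range L with hV
  have hfr : Module.finrank ℝ V = n := by
    rw [hV, LinearMap.finrank_range_of_inj hinj]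
    simp
  set ob : OrthonormalBasis (Fin n) ℝ V :=
    (stdOrthonormalBasis ℝ V).reindex (finCongr hfr) with hob
  set e : EuclideanSpace ℝ (Fin n) ≃ₗᵢ[ℝ] V := ob.repr.symm with he
  set L' : EuclideanSpace ℝ (Fin n) ≃ₗ[ℝ] V := LinearEquiv.ofInjective L hinj with hL'
  set T : EuclideanSpace ℝ (Fin n) ≃ₗ[ℝ] EuclideanSpace ℝ (Fin n) :=
    e.toLinearEquiv.trans L'.symm with hT
  refine ⟨T.toContinuousLinearEquiv, fun z => ?_⟩
  show ∑ i, (inner ℝ (a i) (T z) : ℝ) ^ 2 = ‖z‖ ^ 2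
  rw [← hLn]
  have h1 : L (T z) = (e z : EuclideanSpace ℝ (Fin N)) := by
    have h2 : L' (T z) = e z := by
      rw [hT]
      simp
    rw [← h2]
    rfl
  rw [h1]
  have h3 : ‖(e z : EuclideanSpace ℝ (Fin N))‖ = ‖z‖ := by
    rw [← e.norm_map z]
    rfl
  rw [h3]

section assemble

variable {a : Fin N → EuclideanSpace ℝ (Fin n)}
  {T : EuclideanSpace ℝ (Fin n) ≃L[ℝ] EuclideanSpace ℝ (Fin n)}

/-- the Parseval frame -/
noncomputable def bb (a : Fin N → EuclideanSpace ℝ (Fin n))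
    (T : EuclideanSpace ℝ (Fin n) ≃L[ℝ] EuclideanSpace ℝ (Fin n)) (i : Fin N) :
    EuclideanSpace ℝ (Fin n) :=
  ContinuousLinearMap.adjoint (T : EuclideanSpace ℝ (Fin n) →L[ℝ] EuclideanSpace ℝ (Fin n)) (a i)

lemma bb_inner (i : Fin N) (z : EuclideanSpace ℝ (Fin n)) :
    (inner ℝ (bb a T i) z : ℝ) = inner ℝ (a i) (T z) := by
  unfold bb
  rw [ContinuousLinearMap.adjoint_inner_left]
  rfl

lemma bb_pars (hT : ∀ z, ∑ i, (inner ℝ (a i) (T z) : ℝ) ^ 2 = ‖z‖ ^ 2) : Pars (bb a T) := by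
  intro z
  simp only [bb_inner]
  exact hT z

lemma Kb_pre : Kb (bb a T) = T ⁻¹' (Ka a) := by
  ext z
  show (∀ i, |(inner ℝ (bb a T i) z : ℝ)| ≤ 1) ↔ ∀ i, |(inner ℝ (a i) (T z) : ℝ)| ≤ 1
  simp only [bb_inner]

lemma Ka_closed (a : Fin N → EuclideanSpace ℝ (Fin n)) : IsClosed (Ka a) := Kb_closed a

lemma map_vol (T : EuclideanSpace ℝ (Fin n) ≃L[ℝ] EuclideanSpace ℝ (Fin n)) :
    ∃ d : ℝ≥0, 0 < d ∧ Measure.map T (volume : Measure (EuclideanSpace ℝ (Fin n))) =
      d • (volume : Measure (EuclideanSpace ℝ (Fin n))) := by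
  set μ : Measure (EuclideanSpace ℝ (Fin n)) := Measure.map T volume with hμ
  have hHaar : μ.IsAddHaarMeasure := T.isAddHaarMeasure_map volume
  exact ⟨Measure.addHaarScalarFactor μ volume,
    Measure.addHaarScalarFactor_pos_of_isAddHaarMeasure μ volume,
    Measure.isAddLeftInvariant_eq_smul μ volume⟩

lemma map_mb (a : Fin N → EuclideanSpace ℝ (Fin n))
    (T : EuclideanSpace ℝ (Fin n) ≃L[ℝ] EuclideanSpace ℝ (Fin n)) :
    ∃ d : ℝ≥0, 0 < d ∧ Measure.map T (mb (bb a T)) =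
      d • (volume : Measure (EuclideanSpace ℝ (Fin n))).restrict (Ka a) := by
  obtain ⟨d, hd, h⟩ := map_vol T
  refine ⟨d, hd, ?_⟩
  unfold mb
  rw [Kb_pre, ← Measure.restrict_map T.continuous.measurable (Ka_closed a).measurableSet, h,
    Measure.restrict_smul]

lemma cond_eq (a : Fin N → EuclideanSpace ℝ (Fin n))
    (T : EuclideanSpace ℝ (Fin n) ≃L[ℝ] EuclideanSpace ℝ (Fin n)) :
    ∃ c : ℝ≥0∞, ProbabilityTheory.cond (volume : Measure (EuclideanSpace ℝ (Fin n))) (Ka a) =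
      c • Measure.map T (mb (bb a T)) := by
  obtain ⟨d, hd, h⟩ := map_mb a T
  refine ⟨(volume (Ka a))⁻¹ * (d : ℝ≥0∞)⁻¹, ?_⟩
  have hd' : (d : ℝ≥0∞) ≠ 0 := by exact_mod_cast hd.ne'
  rw [h, ENNReal.smul_def d, smul_smul, mul_assoc, ENNReal.inv_mul_cancel hd' ENNReal.coe_ne_top,
    mul_one]
  rfl

lemma Ka_vol_pos (a : Fin N → EuclideanSpace ℝ (Fin n)) : volume (Ka a) ≠ 0 := by
  have hU : IsOpen {x : EuclideanSpace ℝ (Fin n) | ∀ i, |(inner ℝ (a i) x : ℝ)| < 1} := by
    have : {x : EuclideanSpace ℝ (Fin n) | ∀ i, |(inner ℝ (a i) x : ℝ)| < 1} =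
        ⋂ i, {x : EuclideanSpace ℝ (Fin n) | |(inner ℝ (a i) x : ℝ)| < 1} := by
      ext x; simp
    rw [this]
    exact isOpen_iInter_of_finite fun i =>
      isOpen_lt (continuous_const.inner continuous_id).abs continuous_const
  have h1 : 0 < volume {x : EuclideanSpace ℝ (Fin n) | ∀ i, |(inner ℝ (a i) x : ℝ)| < 1} :=
    hU.measure_pos volume ⟨0, fun i => by simp⟩
  exact (lt_of_lt_of_le h1 (measure_mono fun x hx i => (hx i).le)).ne'

lemma pars_polar {b : Fin N → EuclideanSpace ℝ (Fin n)} (hb : Pars b)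
    (x y : EuclideanSpace ℝ (Fin n)) :
    ∑ j, (inner ℝ (b j) x : ℝ) * inner ℝ (b j) y = inner ℝ x y := by
  have h1 := hb (x + y)
  have h2 := hb x
  have h3 := hb y
  rw [norm_add_sq_real] at h1
  have h4 : ∑ j, (inner ℝ (b j) (x + y) : ℝ) ^ 2 = (∑ j, (inner ℝ (b j) x : ℝ) ^ 2) +
      2 * (∑ j, (inner ℝ (b j) x : ℝ) * inner ℝ (b j) y) +
      ∑ j, (inner ℝ (b j) y : ℝ) ^ 2 := by
    rw [Finset.mul_sum, ← Finset.sum_add_distrib, ← Finset.sum_add_distrib]
    apply Finset.sum_congr rfl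
    intro j _
    rw [inner_add_right]
    ring
  linarith

/-- lower bound for second moments on the section, in coordinates free form -/
lemma low_mb {b : Fin N → EuclideanSpace ℝ (Fin n)} (hb : Pars b) {κ : ℝ}
    (hLow : ∀ (A : (Fin n → ℝ) →ₗ[ℝ] (Fin N → ℝ)), Function.Injective A → ∀ c : Fin n → ℝ,
      κ * dot (A c) (A c) * (∫ v, W 0 0 (A v)) ≤ ∫ v, dot (A c) (A v) ^ 2 * W 0 0 (A v))
    (c : EuclideanSpace ℝ (Fin n)) :
    κ * ‖c‖ ^ 2 * (mb b).real Set.univ ≤ ∫ z, (inner ℝ c z : ℝ) ^ 2 ∂(mb b) := by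
  have h := hLow (AA b) (AA_inj hb) (WithLp.ofLp c)
  have hGG : ∀ z, GG (XX b) 0 0 z = 1 := by
    intro z
    unfold GG
    simp
  have e1 := conv_int b (fun _ => 1) 0 0
  have e2 := conv_int b (fun z => (inner ℝ c z : ℝ) ^ 2) 0 0
  simp only [hGG, mul_one, one_mul, integral_const, smul_eq_mul] at e1 e2
  have e3 : ∀ v, dot (AA b (WithLp.ofLp c)) (AA b v) =
      inner ℝ c (WithLp.toLp 2 v : EuclideanSpace ℝ (Fin n)) := by
    intro v
    rw [← pars_polar hb]
    rfl
  rw [AA_dot hb] at h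
  simp only [e3] at h
  rw [e1, e2]
  exact h

/-- the norm of the normalising map is controlled by the covariance -/
lemma T_norm (hT : ∀ z, ∑ i, (inner ℝ (a i) (T z) : ℝ) ^ 2 = ‖z‖ ^ 2) {κ s : ℝ} (hκ : 0 < κ)
    (hs : 0 < s)
    (hLow : ∀ (A : (Fin n → ℝ) →ₗ[ℝ] (Fin N → ℝ)), Function.Injective A → ∀ c : Fin n → ℝ,
      κ * dot (A c) (A c) * (∫ v, W 0 0 (A v)) ≤ ∫ v, dot (A c) (A v) ^ 2 * W 0 0 (A v))
    (hvar : ∀ θ : EuclideanSpace ℝ (Fin n), ‖θ‖ = 1 → variance (fun x => inner ℝ x θ)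
      (ProbabilityTheory.cond (volume : Measure (EuclideanSpace ℝ (Fin n))) (Ka a)) ≤ s)
    (z : EuclideanSpace ℝ (Fin n)) : ‖T z‖ ≤ Real.sqrt (s / κ) * ‖z‖ := by
  have hb := bb_pars hT
  have hfin := mb_fin hb
  set V := (mb (bb a T)).real Set.univ with hV
  have hV0 : 0 < V := by
    have h := GG_pos hb le_rfl (0 : Fin N → ℝ)
    unfold GG at h
    simp only [Pi.zero_apply, zero_mul, Finset.sum_const_zero, zero_div, sub_zero, Real.exp_zero,
      integral_const, smul_eq_mul, mul_one] at h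
    exact h
  obtain ⟨c, hc⟩ := cond_eq a T
  have hKfin : volume (Ka a) ≠ ∞ := by
    obtain ⟨d, hd, h⟩ := map_mb a T
    intro htop
    have h1 : Measure.map T (mb (bb a T)) Set.univ = ∞ := by
      rw [h, Measure.smul_apply, Measure.restrict_apply_univ, htop, ENNReal.smul_def, smul_eq_mul]
      exact ENNReal.mul_top (by exact_mod_cast hd.ne')
    rw [Measure.map_apply T.continuous.measurable MeasurableSet.univ, Set.preimage_univ] at h1
    exact measure_ne_top _ _ h1
  have hprob : IsProbabilityMeasure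
      (ProbabilityTheory.cond (volume : Measure (EuclideanSpace ℝ (Fin n))) (Ka a)) :=
    cond_isProbabilityMeasure_of_finite (Ka_vol_pos a) hKfin
  set μ := ProbabilityTheory.cond (volume : Measure (EuclideanSpace ℝ (Fin n))) (Ka a) with hμ
  have hTm : Measurable T := T.continuous.measurable
  -- mass
  have hcV : c.toReal * V = 1 := by
    have h1 : μ Set.univ = 1 := measure_univ
    rw [hc, Measure.smul_apply, Measure.map_apply hTm MeasurableSet.univ, Set.preimage_univ,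
      smul_eq_mul] at h1
    have h2 := congrArg ENNReal.toReal h1
    rw [ENNReal.toReal_mul, ENNReal.toReal_one] at h2
    exact h2
  -- integrals
  have hint : ∀ F : EuclideanSpace ℝ (Fin n) → ℝ, Measurable F →
      ∫ x, F x ∂μ = c.toReal * ∫ z, F (T z) ∂(mb (bb a T)) := by
    intro F hF
    rw [hc, integral_smul_measure, smul_eq_mul,
      integral_map hTm.aemeasurable hF.aestronglyMeasurable]
  have key : ∀ θ : EuclideanSpace ℝ (Fin n), ‖θ‖ = 1 →
      ∀ w : EuclideanSpace ℝ (Fin n), (∀ z, (inner ℝ w z : ℝ) = inner ℝ (T z) θ) →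
      ‖w‖ ^ 2 ≤ s / κ := by
    intro θ hθ w hw
    have hm : Measurable (fun x : EuclideanSpace ℝ (Fin n) => (inner ℝ x θ : ℝ)) :=
      (continuous_id.inner continuous_const).measurable
    have hmean : ∫ x, (inner ℝ x θ : ℝ) ∂μ = 0 := by
      rw [hint _ hm]
      simp only [← hw]
      have h1 : ∫ z, (inner ℝ w z : ℝ) ∂(mb (bb a T)) = 0 := by
        unfold mb
        rw [← integral_indicator (Kb_closed _).measurableSet]
        set F : EuclideanSpace ℝ (Fin n) → ℝ :=
          Set.indicator (Kb (bb a T)) (fun z => (inner ℝ w z : ℝ)) with hF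
        have h2 : ∀ z, F (-z) = -F z := by
          intro z
          by_cases hz : z ∈ Kb (bb a T)
          · have hz' : -z ∈ Kb (bb a T) := by
              intro j
              rw [inner_neg_right, abs_neg]
              exact hz j
            rw [hF, Set.indicator_of_mem hz, Set.indicator_of_mem hz', inner_neg_right]
          · have hz' : -z ∉ Kb (bb a T) := by
              intro h3
              apply hz
              intro j
              have := h3 j
              rwa [inner_neg_right, abs_neg] at this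
            rw [hF, Set.indicator_of_notMem hz, Set.indicator_of_notMem hz', neg_zero]
        have h3 : ∫ z, F (-z) = ∫ z, F z := integral_neg_eq_self F volume
        simp only [h2] at h3
        rw [integral_neg] at h3
        linarith
      rw [h1, mul_zero]
    have h1 := hvar θ hθ
    rw [variance_of_integral_eq_zero hm.aemeasurable hmean, hint _ (hm.pow_const 2)] at h1
    simp only [← hw] at h1
    have h2 := low_mb hb hLow w
    rw [← hV] at h2
    have hc0 : 0 < c.toReal := by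
      by_contra hcon
      push Not at hcon
      have : c.toReal * V ≤ 0 := mul_nonpos_of_nonpos_of_nonneg hcon hV0.le
      linarith
    have h3 : c.toReal * (κ * ‖w‖ ^ 2 * V) ≤ s :=
      (mul_le_mul_of_nonneg_left h2 hc0.le).trans h1
    have h4 : c.toReal * (κ * ‖w‖ ^ 2 * V) = κ * ‖w‖ ^ 2 := by
      calc c.toReal * (κ * ‖w‖ ^ 2 * V) = (c.toReal * V) * (κ * ‖w‖ ^ 2) := by ring
        _ = _ := by rw [hcV, one_mul]
    rw [le_div_iff₀ hκ]
    linarith
  rcases eq_or_ne (T z) 0 with h0 | h0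
  · rw [h0, norm_zero]
    positivity
  · set θ : EuclideanSpace ℝ (Fin n) := ‖T z‖⁻¹ • T z with hθ
    have hTz : 0 < ‖T z‖ := norm_pos_iff.mpr h0
    have hθn : ‖θ‖ = 1 := by
      rw [hθ, norm_smul, norm_inv, norm_norm, inv_mul_cancel₀ hTz.ne']
    set w : EuclideanSpace ℝ (Fin n) := ContinuousLinearMap.adjoint
      (T : EuclideanSpace ℝ (Fin n) →L[ℝ] EuclideanSpace ℝ (Fin n)) θ with hw
    have hwz : ∀ z, (inner ℝ w z : ℝ) = inner ℝ (T z) θ := by
      intro z
      rw [hw, ContinuousLinearMap.adjoint_inner_left, real_inner_comm]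
      rfl
    have h1 := key θ hθn w hwz
    have h2 : ‖w‖ ≤ Real.sqrt (s / κ) := Real.le_sqrt_of_sq_le h1
    have h3 : ‖T z‖ = inner ℝ w z := by
      rw [hwz, hθ, inner_smul_right, real_inner_self_eq_norm_sq]
      field_simp
    rw [h3]
    exact (real_inner_le_norm w z).trans (mul_le_mul_of_nonneg_right h2 (norm_nonneg z))

end assemble

/-- the theorem, given the lower bound for second moments -/
theorem main_of_low {k : ℕ} (hN : k + n = N) (a : Fin N → EuclideanSpace ℝ (Fin n))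
    (hb : Bornology.IsBounded (Ka a)) {κ s : ℝ} (hκ : 0 < κ) (hs : 0 < s)
    (hLow : ∀ (A : (Fin n → ℝ) →ₗ[ℝ] (Fin N → ℝ)), Function.Injective A → ∀ c : Fin n → ℝ,
      κ * dot (A c) (A c) * (∫ v, W 0 0 (A v)) ≤ ∫ v, dot (A c) (A v) ^ 2 * W 0 0 (A v))
    (hvar : ∀ θ : EuclideanSpace ℝ (Fin n), ‖θ‖ = 1 → variance (fun x => inner ℝ x θ)
      (ProbabilityTheory.cond (volume : Measure (EuclideanSpace ℝ (Fin n))) (Ka a)) ≤ s)
    {S : Set (EuclideanSpace ℝ (Fin n))} (hS : MeasurableSet S) :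
    ENNReal.ofReal (1 / (2 * (3 * π * (6 * k + 10) * Real.sqrt (s / κ)))) *
      min (ProbabilityTheory.cond (volume : Measure (EuclideanSpace ℝ (Fin n))) (Ka a) S)
        (ProbabilityTheory.cond (volume : Measure (EuclideanSpace ℝ (Fin n))) (Ka a) Sᶜ) ≤
      Filter.liminf (fun ε : ℝ =>
        (ProbabilityTheory.cond (volume : Measure (EuclideanSpace ℝ (Fin n))) (Ka a)
          (Metric.thickening ε S) -
        ProbabilityTheory.cond (volume : Measure (EuclideanSpace ℝ (Fin n))) (Ka a) S) /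
          ENNReal.ofReal ε) (𝓝[>] 0) := by
  obtain ⟨T, hT⟩ := exists_T (fun x hx => Ka_inj hb hx)
  have hpars := bb_pars hT
  have hfin := mb_fin hpars
  have hKfin : volume (Ka a) ≠ ∞ := hb.measure_lt_top.ne
  have hprob : IsProbabilityMeasure
      (ProbabilityTheory.cond (volume : Measure (EuclideanSpace ℝ (Fin n))) (Ka a)) :=
    cond_isProbabilityMeasure_of_finite (Ka_vol_pos a) hKfin
  have hq : 0 < Real.sqrt (s / κ) := Real.sqrt_pos.mpr (by positivity)
  set L : ℝ≥0 := ⟨Real.sqrt (s / κ), hq.le⟩ with hL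
  have hL0 : 0 < L := hq
  have hlip : LipschitzWith L T := by
    apply LipschitzWith.of_dist_le_mul
    intro x y
    rw [dist_eq_norm, dist_eq_norm, ← map_sub]
    exact T_norm hT hκ hs hLow hvar (x - y)
  obtain ⟨c, hc⟩ := cond_eq a T
  have h1 : Iso (ProbabilityTheory.cond (volume : Measure (EuclideanSpace ℝ (Fin n))) (Ka a))
      (3 * π * (6 * k + 10) * L) := by
    rw [hc]
    exact ((iso_mb hpars hN).map (by positivity) hL0 hlip T.continuous.measurable).smul c
  exact h1.liminf (by have := pi_pos; positivity) hS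

end Pool.Agent.Lib.MP_6d896a_gt.Few
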